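import Mathlib
import Pool.Agent.Work.MP_b0497c_an.Algebra

set_option autoImplicit false

/-!
Offsets for which finitely many families of periodic tubes are pairwise disjoint.
-/

namespace Pool.Agent.Work.MP_b0497c_an.Weak

open Set RealInnerProductSpace Pool.Agent.Work.MP_b0497c_an Polynomial Filter Topology

/-- The real vector with integer coordinates `m`. -/
noncomputable def iv (m : Fin 3 → ℤ) : E3 := !₂[(m 0 : ℝ), (m 1 : ℝ), (m 2 : ℝ)]

theorem iv_zero (m : Fin 3 → ℤ) : iv m 0 = m 0 := rfl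
theorem iv_one (m : Fin 3 → ℤ) : iv m 1 = m 1 := rfl
theorem iv_two (m : Fin 3 → ℤ) : iv m 2 = m 2 := rfl

/-- The offset number. -/
theorem exists_transc : ∃ t : ℝ, Transcendental ℤ t :=
  ⟨_, transcendental_liouvilleNumber (m := 2) le_rfl⟩

theorem coeff_rel {i j : ℕ} (hij : i ≠ j) {c0 c1 c2 c3 n : ℤ}
    (h : C c0 * X ^ (2 * i + 1) + C c1 * X ^ (2 * i + 2) + C c2 * X ^ (2 * j + 1)
      + C c3 * X ^ (2 * j + 2) - C n = (0 : ℤ[X])) : c0 = 0 ∧ c1 = 0 ∧ c2 = 0 ∧ c3 = 0 := by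
  have h0 := congrArg (fun p : ℤ[X] => p.coeff (2 * i + 1)) h
  have h1 := congrArg (fun p : ℤ[X] => p.coeff (2 * i + 2)) h
  have h2 := congrArg (fun p : ℤ[X] => p.coeff (2 * j + 1)) h
  have h3 := congrArg (fun p : ℤ[X] => p.coeff (2 * j + 2)) h
  simp only [coeff_add, coeff_sub, coeff_C_mul, coeff_X_pow, coeff_C, coeff_zero] at h0 h1 h2 h3
  have a1 : ¬ (2 * i + 1 = 2 * i + 2) := by omega
  have a2 : ¬ (2 * i + 1 = 2 * j + 1) := by omega
  have a3 : ¬ (2 * i + 1 = 2 * j + 2) := by omega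
  have a4 : ¬ (2 * i + 2 = 2 * j + 1) := by omega
  have a5 : ¬ (2 * i + 2 = 2 * j + 2) := by omega
  have a6 : ¬ (2 * j + 1 = 2 * j + 2) := by omega
  have b1 : ¬ (2 * i + 2 = 2 * i + 1) := by omega
  have b2 : ¬ (2 * j + 1 = 2 * i + 1) := by omega
  have b3 : ¬ (2 * j + 2 = 2 * i + 1) := by omega
  have b4 : ¬ (2 * j + 1 = 2 * i + 2) := by omega
  have b5 : ¬ (2 * j + 2 = 2 * i + 2) := by omega
  have b6 : ¬ (2 * j + 2 = 2 * j + 1) := by omega
  simp only [if_neg a1, if_neg a2, if_neg a3, if_pos, if_neg (Nat.succ_ne_zero _)] at h0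
  simp only [if_neg b1, if_neg a4, if_neg a5, if_pos, if_neg (Nat.succ_ne_zero _)] at h1
  simp only [if_neg b2, if_neg b4, if_neg a6, if_pos, if_neg (Nat.succ_ne_zero _)] at h2
  simp only [if_neg b3, if_neg b5, if_neg b6, if_pos, if_neg (Nat.succ_ne_zero _)] at h3
  refine ⟨?_, ?_, ?_, ?_⟩
  · simpa using h0
  · simpa using h1
  · simpa using h2
  · simpa using h3

theorem exists_relation (a b c d : Fin 3 → ℤ) : ∃ c0 c1 c2 c3 : ℤ,
    ¬ (c0 = 0 ∧ c1 = 0 ∧ c2 = 0 ∧ c3 = 0) ∧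
    ∀ k, c0 * a k + c1 * b k + c2 * c k + c3 * d k = 0 := by
  set M : Matrix (Fin 4) (Fin 4) ℤ := Matrix.of ![![a 0, b 0, c 0, d 0], ![a 1, b 1, c 1, d 1],
    ![a 2, b 2, c 2, d 2], ![0, 0, 0, 0]] with hM
  have hdet : M.det = 0 := by
    apply Matrix.det_eq_zero_of_row_eq_zero 3
    intro j
    fin_cases j <;> rfl
  obtain ⟨v, hv, hMv⟩ := Matrix.exists_mulVec_eq_zero_iff.mpr hdet
  refine ⟨v 0, v 1, v 2, v 3, ?_, ?_⟩
  · rintro ⟨h0, h1, h2, h3⟩
    apply hv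
    ext k
    fin_cases k
    · exact h0
    · exact h1
    · exact h2
    · exact h3
  · intro k
    have h0 := congrFun hMv 0
    have h1 := congrFun hMv 1
    have h2 := congrFun hMv 2
    simp [hM, Matrix.mulVec, dotProduct, Fin.sum_univ_four] at h0 h1 h2
    fin_cases k
    · simp only [Fin.zero_eta]
      linarith
    · simp only [Fin.mk_one]
      linarith
    · simp only [Fin.reduceFinMk]
      linarith

/-- Offsets making finitely many tube families disjoint. -/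
theorem exists_offsets (J : ℕ) (a b : Fin J → Fin 3 → ℤ) :
    ∃ (α β : Fin J → ℝ) (r : ℝ), 0 < r ∧ r < Real.pi ∧ ∀ i j, i ≠ j → ∀ x : E3,
      ∀ n1 n2 n3 n4 : ℤ, |⟪iv (a i), x⟫ - α i - 2 * Real.pi * n1| < r →
      |⟪iv (b i), x⟫ - β i - 2 * Real.pi * n2| < r →
      |⟪iv (a j), x⟫ - α j - 2 * Real.pi * n3| < r →
      |⟪iv (b j), x⟫ - β j - 2 * Real.pi * n4| < r → False := by
  obtain ⟨t, ht⟩ := exists_transc
  set α : Fin J → ℝ := fun i => 2 * Real.pi * t ^ (2 * (i : ℕ) + 1) with hα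
  set β : Fin J → ℝ := fun i => 2 * Real.pi * t ^ (2 * (i : ℕ) + 2) with hβ
  have key : ∀ i j : Fin J, i ≠ j → ∃ ρ > 0, ∀ r : ℝ, 0 < r → r < ρ → ∀ x : E3,
      ∀ n1 n2 n3 n4 : ℤ, |⟪iv (a i), x⟫ - α i - 2 * Real.pi * n1| < r →
      |⟪iv (b i), x⟫ - β i - 2 * Real.pi * n2| < r →
      |⟪iv (a j), x⟫ - α j - 2 * Real.pi * n3| < r →
      |⟪iv (b j), x⟫ - β j - 2 * Real.pi * n4| < r → False := by
    intro i j hij
    obtain ⟨c0, c1, c2, c3, hc, hrel⟩ := exists_relation (a i) (b i) (a j) (b j)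
    set κ : ℝ := c0 * t ^ (2 * (i : ℕ) + 1) + c1 * t ^ (2 * (i : ℕ) + 2)
      + c2 * t ^ (2 * (j : ℕ) + 1) + c3 * t ^ (2 * (j : ℕ) + 2) with hκ
    have hκn : ∀ n : ℤ, κ ≠ n := by
      intro n hn
      apply hc
      apply coeff_rel (n := n) (i := (i : ℕ)) (j := (j : ℕ)) (fun h => hij (Fin.ext h))
      by_contra hcon
      apply ht
      refine ⟨_, hcon, ?_⟩
      simp only [map_sub, map_add, map_mul, map_pow, aeval_X, eq_intCast, map_intCast]
      rw [← hκ, hn, sub_self]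
    set δ : ℝ := |κ - round κ| with hδ
    have hδ0 : 0 < δ := abs_pos.mpr (sub_ne_zero.mpr (hκn _))
    set S : ℝ := |(c0 : ℝ)| + |(c1 : ℝ)| + |(c2 : ℝ)| + |(c3 : ℝ)| with hS
    have hS0 : 0 ≤ S := by positivity
    refine ⟨2 * Real.pi * δ / (S + 1), by positivity, ?_⟩
    intro r hr0 hr x n1 n2 n3 n4 h1 h2 h3 h4
    have hlin : (c0 : ℝ) * ⟪iv (a i), x⟫ + c1 * ⟪iv (b i), x⟫ + c2 * ⟪iv (a j), x⟫
        + c3 * ⟪iv (b j), x⟫ = 0 := by
      have r0 : (c0 : ℝ) * a i 0 + c1 * b i 0 + c2 * a j 0 + c3 * b j 0 = 0 := by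
        exact_mod_cast hrel 0
      have r1 : (c0 : ℝ) * a i 1 + c1 * b i 1 + c2 * a j 1 + c3 * b j 1 = 0 := by
        exact_mod_cast hrel 1
      have r2 : (c0 : ℝ) * a i 2 + c1 * b i 2 + c2 * a j 2 + c3 * b j 2 = 0 := by
        exact_mod_cast hrel 2
      rw [inner_eq, inner_eq, inner_eq, inner_eq]
      simp only [iv_zero, iv_one, iv_two]
      linear_combination (x 0) * r0 + (x 1) * r1 + (x 2) * r2
    set e1 := ⟪iv (a i), x⟫ - α i - 2 * Real.pi * n1 with he1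
    set e2 := ⟪iv (b i), x⟫ - β i - 2 * Real.pi * n2 with he2
    set e3 := ⟪iv (a j), x⟫ - α j - 2 * Real.pi * n3 with he3
    set e4 := ⟪iv (b j), x⟫ - β j - 2 * Real.pi * n4 with he4
    have hsum : 2 * Real.pi * (κ - ((-(c0 * n1 + c1 * n2 + c2 * n3 + c3 * n4) : ℤ) : ℝ))
        = -(c0 * e1 + c1 * e2 + c2 * e3 + c3 * e4) := by
      rw [he1, he2, he3, he4, hκ]
      simp only [hα, hβ]
      push_cast
      linear_combination hlin
    have hge : δ ≤ |κ - ((-(c0 * n1 + c1 * n2 + c2 * n3 + c3 * n4) : ℤ) : ℝ)| := round_le _ _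
    have hle : 2 * Real.pi * |κ - ((-(c0 * n1 + c1 * n2 + c2 * n3 + c3 * n4) : ℤ) : ℝ)|
        ≤ S * r := by
      have h5 : 2 * Real.pi * |κ - ((-(c0 * n1 + c1 * n2 + c2 * n3 + c3 * n4) : ℤ) : ℝ)|
          = |2 * Real.pi * (κ - ((-(c0 * n1 + c1 * n2 + c2 * n3 + c3 * n4) : ℤ) : ℝ))| := by
        rw [abs_mul, abs_of_pos (by positivity : 0 < 2 * Real.pi)]
      rw [h5, hsum, abs_neg]
      calc |c0 * e1 + c1 * e2 + c2 * e3 + c3 * e4|
          ≤ |c0 * e1| + |c1 * e2| + |c2 * e3| + |c3 * e4| := by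
            refine (abs_add_le _ _).trans ?_
            gcongr
            refine (abs_add_le _ _).trans ?_
            gcongr
            exact abs_add_le _ _
        _ = |(c0 : ℝ)| * |e1| + |(c1 : ℝ)| * |e2| + |(c2 : ℝ)| * |e3| + |(c3 : ℝ)| * |e4| := by
            simp only [abs_mul]
        _ ≤ |(c0 : ℝ)| * r + |(c1 : ℝ)| * r + |(c2 : ℝ)| * r + |(c3 : ℝ)| * r := by
            gcongr
        _ = S * r := by rw [hS]; ring
    have h6 : 2 * Real.pi * δ ≤ S * r := by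
      refine le_trans ?_ hle
      gcongr
    rw [lt_div_iff₀ (by positivity)] at hr
    nlinarith
  choose! ρ hρ0 hρ using key
  have hev : ∀ᶠ r in 𝓝[>] (0 : ℝ), ∀ i j : Fin J, i ≠ j → r < ρ i j := by
    rw [eventually_all]
    intro i
    rw [eventually_all]
    intro j
    by_cases hij : i = j
    · filter_upwards with r h
      exact absurd hij h
    · have : ∀ᶠ r in 𝓝[>] (0 : ℝ), r < ρ i j :=
        (eventually_lt_nhds (hρ0 i j hij)).filter_mono nhdsWithin_le_nhds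
      filter_upwards [this] with r hr _
      exact hr
  have hev2 : ∀ᶠ r in 𝓝[>] (0 : ℝ), r < Real.pi :=
    (eventually_lt_nhds Real.pi_pos).filter_mono nhdsWithin_le_nhds
  obtain ⟨r, ⟨h1, h2⟩, h3⟩ := ((hev.and hev2).and self_mem_nhdsWithin).exists
  exact ⟨α, β, r, h3, h2, fun i j hij => hρ i j hij r h3 (h1 i j hij)⟩

end Pool.Agent.Work.MP_b0497c_an.Weak
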