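import Mathlib

set_option autoImplicit false

/-!
Periodic bump functions on the line, periodic antiderivatives, and an oscillation lemma.
-/

namespace Pool.Agent.Work.MP_b0497c_an.Weak

open Set MeasureTheory intervalIntegral
open scoped ContDiff

local instance : Fact (0 < 2 * Real.pi) := ⟨by positivity⟩

/-- Smooth periodic bump functions with mean one. -/
theorem exists_bump {r : ℝ} (hr : 0 < r) (hr' : r < Real.pi) :
    ∃ P : ℝ → ℝ, ContDiff ℝ ∞ P ∧ Function.Periodic P (2 * Real.pi) ∧
      (∫ s in (0 : ℝ)..(2 * Real.pi), P s = 2 * Real.pi) ∧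
      ∀ s, P s ≠ 0 → ∃ n : ℤ, |s - 2 * Real.pi * n| < r := by
  set Q : ℝ → ℝ := fun s => expNegInvGlue (Real.cos s - Real.cos r) with hQ
  have hQs : ContDiff ℝ ∞ Q :=
    expNegInvGlue.contDiff.comp (Real.contDiff_cos.sub contDiff_const)
  have hQp : Function.Periodic Q (2 * Real.pi) := by
    intro s
    simp only [hQ, Real.cos_add_two_pi]
  have hQn : ∀ s, 0 ≤ Q s := fun s => expNegInvGlue.nonneg _
  have hcos : Real.cos r < 1 := by
    have := Real.strictAntiOn_cos ⟨le_rfl, Real.pi_pos.le⟩ ⟨hr.le, hr'.le⟩ hr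
    simpa using this
  have hpos : 0 < ∫ s in (0 : ℝ)..(2 * Real.pi), Q s := by
    apply intervalIntegral.integral_pos (by positivity) hQs.continuous.continuousOn
      (fun s _ => hQn s)
    refine ⟨0, ⟨le_rfl, by positivity⟩, ?_⟩
    simp only [hQ, Real.cos_zero]
    exact expNegInvGlue.pos_of_pos (by linarith)
  set I := ∫ s in (0 : ℝ)..(2 * Real.pi), Q s with hI
  refine ⟨fun s => (2 * Real.pi / I) * Q s, contDiff_const.mul hQs, ?_, ?_, ?_⟩
  · intro s
    simp only [hQp s]
  · rw [intervalIntegral.integral_const_mul, ← hI]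
    field_simp
  · intro s hs
    have hQ0 : Q s ≠ 0 := right_ne_zero_of_mul hs
    have hc : Real.cos r < Real.cos s := by
      by_contra hcon
      rw [not_lt] at hcon
      exact hQ0 (expNegInvGlue.zero_of_nonpos (by linarith))
    refine ⟨round (s / (2 * Real.pi)), ?_⟩
    set n := round (s / (2 * Real.pi)) with hn
    have h1 : |s / (2 * Real.pi) - n| ≤ 1 / 2 := abs_sub_round _
    have h2 : |s - 2 * Real.pi * n| ≤ Real.pi := by
      have h3 : s - 2 * Real.pi * n = (2 * Real.pi) * (s / (2 * Real.pi) - n) := by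
        field_simp
      rw [h3, abs_mul, abs_of_pos (by positivity : 0 < 2 * Real.pi)]
      calc 2 * Real.pi * |s / (2 * Real.pi) - n| ≤ 2 * Real.pi * (1 / 2) := by gcongr
        _ = Real.pi := by ring
    have h4 : Real.cos |s - 2 * Real.pi * n| = Real.cos s := by
      rw [Real.cos_abs]
      have := Real.cos_sub_int_mul_two_pi s n
      rw [← this]
      congr 1
      ring
    by_contra hcon
    rw [not_lt] at hcon
    have h5 : Real.cos |s - 2 * Real.pi * n| ≤ Real.cos r :=
      Real.strictAntiOn_cos.antitoneOn ⟨hr.le, hr'.le⟩ ⟨abs_nonneg _, h2⟩ hcon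
    linarith [h4 ▸ h5]

/-- Periodic antiderivatives. -/
theorem exists_antideriv {g : ℝ → ℝ} (hg : ContDiff ℝ ∞ g)
    (hp : Function.Periodic g (2 * Real.pi)) (h0 : ∫ s in (0 : ℝ)..(2 * Real.pi), g s = 0) :
    ∃ G : ℝ → ℝ, ContDiff ℝ ∞ G ∧ Function.Periodic G (2 * Real.pi) ∧
      (∀ s, HasDerivAt G (g s) s) ∧ (∃ M, 0 ≤ M ∧ ∀ s, |G s| ≤ M) ∧
      ∀ s, G s = ∫ x in (0 : ℝ)..s, g x := by
  have hd : ∀ s, HasDerivAt (fun s => ∫ x in (0 : ℝ)..s, g x) (g s) s := fun s =>
    intervalIntegral.integral_hasDerivAt_right (hg.continuous.intervalIntegrable _ _)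
      hg.continuous.stronglyMeasurable.stronglyMeasurableAtFilter hg.continuous.continuousAt
  have hper : Function.Periodic (fun s => ∫ x in (0 : ℝ)..s, g x) (2 * Real.pi) := by
    intro s
    have h1 := intervalIntegral.integral_add_adjacent_intervals
      (hg.continuous.intervalIntegrable (μ := volume) 0 s)
      (hg.continuous.intervalIntegrable (μ := volume) s (s + 2 * Real.pi))
    have h2 := hp.intervalIntegral_add_eq s 0
    rw [zero_add, h0] at h2
    change (∫ x in (0 : ℝ)..(s + 2 * Real.pi), g x) = _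
    rw [← h1, h2, add_zero]
  have hcont : Continuous (fun s => ∫ x in (0 : ℝ)..s, g x) :=
    continuous_iff_continuousAt.mpr fun s => (hd s).continuousAt
  refine ⟨fun s => ∫ x in (0 : ℝ)..s, g x, ?_, hper, hd, ?_, fun s => rfl⟩
  · have hderiv : deriv (fun s => ∫ x in (0 : ℝ)..s, g x) = g := funext fun s => (hd s).deriv
    rw [show (∞ : WithTop ℕ∞) = ∞ + 1 from rfl, contDiff_succ_iff_deriv]
    refine ⟨fun s => (hd s).differentiableAt, ?_, ?_⟩
    · intro h
      exact absurd h (by simp)
    · rw [hderiv]
      exact hg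
  · obtain ⟨C, hC⟩ := isCompact_Icc.exists_bound_of_continuousOn
      (s := Icc (0 : ℝ) (2 * Real.pi)) hcont.continuousOn
    refine ⟨max C 0, le_max_right _ _, fun s => ?_⟩
    obtain ⟨y, hy, hys⟩ := hper.exists_mem_Ico₀ (by positivity) s
    have h3 : (∫ x in (0 : ℝ)..s, g x) = ∫ x in (0 : ℝ)..y, g x := hys
    change |∫ x in (0 : ℝ)..s, g x| ≤ _
    rw [h3]
    exact (hC y ⟨hy.1, hy.2.le⟩).trans (le_max_left _ _)

/-- Orthogonality of rapidly oscillating functions to the first harmonics. -/
theorem osc_orth {q : ℝ → ℝ} (hq : Continuous q) (hp : Function.Periodic q (2 * Real.pi))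
    {N : ℕ} (hN : 2 ≤ N) (A B : ℝ) :
    ∫ s in (0 : ℝ)..(2 * Real.pi), q (N * s) * (A * Real.cos s + B * Real.sin s) = 0 := by
  set I : ℝ → ℝ → ℝ := fun A B =>
    ∫ s in (0 : ℝ)..(2 * Real.pi), q (N * s) * (A * Real.cos s + B * Real.sin s) with hI
  have hqN : Continuous fun s : ℝ => q (N * s) := hq.comp (continuous_const.mul continuous_id)
  have hqNp : Function.Periodic (fun s : ℝ => q (N * s)) (2 * Real.pi) := by
    intro s
    have := hp.nat_mul N (N * s)
    simp only
    rw [← this]
    congr 1
    push_cast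
    ring
  have hlin : ∀ A B, I A B = A * I 1 0 + B * I 0 1 := by
    intro A B
    simp only [hI]
    rw [← intervalIntegral.integral_const_mul, ← intervalIntegral.integral_const_mul,
      ← intervalIntegral.integral_add]
    · apply intervalIntegral.integral_congr
      intro s _
      simp only
      ring
    · apply Continuous.intervalIntegrable
      fun_prop
    · apply Continuous.intervalIntegrable
      fun_prop
  set θ : ℝ := 2 * Real.pi / N with hθ
  have hNpos : (0 : ℝ) < N := by
    have : 0 < N := by omega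
    exact_mod_cast this
  have hshift : ∀ A B, I A B = I (A * Real.cos θ + B * Real.sin θ)
      (B * Real.cos θ - A * Real.sin θ) := by
    intro A B
    have hper : Function.Periodic
        (fun s : ℝ => q (N * s) * (A * Real.cos s + B * Real.sin s)) (2 * Real.pi) := by
      intro s
      have := hqNp s
      simp only at this ⊢
      rw [this, Real.cos_add_two_pi, Real.sin_add_two_pi]
    have h1 := hper.intervalIntegral_add_eq 0 θ
    rw [zero_add] at h1
    have h2 : ∫ s in (0 : ℝ)..(2 * Real.pi),
        (fun s : ℝ => q (N * s) * (A * Real.cos s + B * Real.sin s)) (s + θ)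
        = ∫ s in (0 + θ)..(2 * Real.pi + θ),
          q (N * s) * (A * Real.cos s + B * Real.sin s) :=
      intervalIntegral.integral_comp_add_right
        (fun s : ℝ => q (N * s) * (A * Real.cos s + B * Real.sin s)) θ
    simp only [hI]
    rw [h1, zero_add, add_comm (2 * Real.pi) θ] at *
    rw [← h2]
    apply intervalIntegral.integral_congr
    intro s _
    simp only
    have h3 : q (N * (s + θ)) = q (N * s) := by
      rw [← hp (N * s)]
      congr 1
      rw [hθ]
      field_simp
    rw [h3, Real.cos_add, Real.sin_add]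
    ring
  have e1 := hshift 1 0
  have e2 := hshift 0 1
  rw [hlin (1 * Real.cos θ + 0 * Real.sin θ)] at e1
  rw [hlin (0 * Real.cos θ + 1 * Real.sin θ)] at e2
  set X := I 1 0
  set Y := I 0 1
  have hcos : Real.cos θ < 1 := by
    have hθ0 : 0 < θ := by positivity
    have hθ1 : θ ≤ Real.pi := by
      rw [hθ, div_le_iff₀ hNpos]
      have : (2 : ℝ) ≤ N := by exact_mod_cast hN
      nlinarith [Real.pi_pos]
    have := Real.strictAntiOn_cos ⟨le_rfl, Real.pi_pos.le⟩ ⟨hθ0.le, hθ1⟩ hθ0
    simpa using this
  have hsc := Real.sin_sq_add_cos_sq θ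
  have hX : X = 0 := by
    have h1 : (1 - Real.cos θ) * X = - Real.sin θ * Y := by linarith
    have h2 : (1 - Real.cos θ) * Y = Real.sin θ * X := by linarith
    have h3 : (2 - 2 * Real.cos θ) * X = 0 := by
      have : (1 - Real.cos θ) * ((1 - Real.cos θ) * X) = - Real.sin θ * (Real.sin θ * X) := by
        rw [h1, ← h2]; ring
      nlinarith
    exact (mul_eq_zero.mp h3).resolve_left (by linarith)
  have hY : Y = 0 := by
    have h2 : (1 - Real.cos θ) * Y = Real.sin θ * X := by linarith
    rw [hX, mul_zero] at h2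
    exact (mul_eq_zero.mp h2).resolve_left (by linarith)
  change I A B = 0
  rw [hlin, hX, hY]
  ring

/-- The oscillation lemma: `(p(N s) - 1) F(s)` has a periodic antiderivative of size `O(1/N)`. -/
theorem osc {p : ℝ → ℝ} (hp : ContDiff ℝ ∞ p) (hper : Function.Periodic p (2 * Real.pi))
    (hmean : ∫ s in (0 : ℝ)..(2 * Real.pi), p s = 2 * Real.pi) (C A B : ℝ) :
    ∃ K : ℝ, 0 ≤ K ∧ ∀ N : ℕ, 2 ≤ N → ∃ G : ℝ → ℝ, ContDiff ℝ ∞ G ∧
      Function.Periodic G (2 * Real.pi) ∧
      (∀ s, HasDerivAt G ((p (N * s) - 1) * (C + A * Real.cos s + B * Real.sin s)) s) ∧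
      ∀ s, |G s| ≤ K / N := by
  obtain ⟨P1, hP1s, hP1p, hP1d, ⟨M, hM0, hM⟩, -⟩ := exists_antideriv
    (g := fun s => p s - 1) (hp.sub contDiff_const)
    (fun s => by simp only [hper s]) (by
      rw [intervalIntegral.integral_sub (hp.continuous.intervalIntegrable _ _) (by simp), hmean]
      simp)
  refine ⟨M * (|C| + |A| + |B|) + 2 * Real.pi * (M * (|A| + |B|)), by positivity, ?_⟩
  intro N hN
  have hNpos : (0 : ℝ) < N := by
    have : 0 < N := by omega
    exact_mod_cast this
  have hP1N : ContDiff ℝ ∞ fun s : ℝ => P1 (N * s) :=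
    hP1s.comp (contDiff_const.mul contDiff_id)
  have hP1Np : Function.Periodic (fun s : ℝ => P1 (N * s)) (2 * Real.pi) := by
    intro s
    have := hP1p.nat_mul N (N * s)
    simp only
    rw [← this]
    congr 1
    push_cast
    ring
  obtain ⟨R, hRs, hRp, hRd, -, hR⟩ := exists_antideriv
    (g := fun s => P1 (N * s) * (B * Real.cos s + (-A) * Real.sin s))
    (hP1N.mul ((contDiff_const.mul Real.contDiff_cos).add (contDiff_const.mul Real.contDiff_sin)))
    (fun s => by
      have := hP1Np s
      simp only at this ⊢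
      rw [this, Real.cos_add_two_pi, Real.sin_add_two_pi])
    (osc_orth hP1s.continuous hP1p hN B (-A))
  have hRb : ∀ s, |R s| ≤ 2 * Real.pi * (M * (|A| + |B|)) := by
    intro s
    obtain ⟨y, hy, hys⟩ := hRp.exists_mem_Ico₀ (by positivity) s
    rw [hys, hR y]
    have h1 : ‖∫ x in (0 : ℝ)..y, P1 (N * x) * (B * Real.cos x + (-A) * Real.sin x)‖
        ≤ (M * (|A| + |B|)) * |y - 0| := by
      apply intervalIntegral.norm_integral_le_of_norm_le_const
      intro x _
      rw [Real.norm_eq_abs, abs_mul]
      have h2 : |B * Real.cos x + (-A) * Real.sin x| ≤ |A| + |B| := by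
        calc |B * Real.cos x + (-A) * Real.sin x|
            ≤ |B * Real.cos x| + |(-A) * Real.sin x| := abs_add_le _ _
          _ = |B| * |Real.cos x| + |A| * |Real.sin x| := by rw [abs_mul, abs_mul, abs_neg]
          _ ≤ |B| * 1 + |A| * 1 := by
              gcongr
              · exact Real.abs_cos_le_one _
              · exact Real.abs_sin_le_one _
          _ = |A| + |B| := by ring
      exact mul_le_mul (hM _) h2 (abs_nonneg _) hM0
    rw [Real.norm_eq_abs, sub_zero, abs_of_nonneg hy.1] at h1
    refine h1.trans ?_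
    have h3 : 0 ≤ M * (|A| + |B|) := by positivity
    nlinarith [hy.2.le]
  refine ⟨fun s => (1 / N) * (P1 (N * s) * (C + A * Real.cos s + B * Real.sin s) - R s),
    ?_, ?_, ?_, ?_⟩
  · apply contDiff_const.mul
    refine ContDiff.sub (hP1N.mul ?_) hRs
    exact (contDiff_const.add (contDiff_const.mul Real.contDiff_cos)).add
      (contDiff_const.mul Real.contDiff_sin)
  · intro s
    have := hP1Np s
    simp only at this ⊢
    rw [this, Real.cos_add_two_pi, Real.sin_add_two_pi, hRp s]
  · intro s
    have h1 : HasDerivAt (fun s : ℝ => P1 (N * s)) ((p (N * s) - 1) * N) s := by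
      have h2 : HasDerivAt (fun s : ℝ => (N : ℝ) * s) N s := by
        simpa using (hasDerivAt_id s).const_mul (N : ℝ)
      exact (hP1d (N * s)).comp s h2
    have h3 : HasDerivAt (fun s => C + A * Real.cos s + B * Real.sin s)
        (A * (- Real.sin s) + B * Real.cos s) s := by
      have h4 := ((Real.hasDerivAt_cos s).const_mul A).add ((Real.hasDerivAt_sin s).const_mul B)
      refine (h4.const_add C).congr_of_eventuallyEq ?_
      filter_upwards with y
      simp only [Pi.add_apply]
      ring
    have h5 := ((h1.mul h3).sub (hRd s)).const_mul (1 / (N : ℝ))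
    refine h5.congr_deriv ?_
    field_simp
    ring
  · intro s
    rw [abs_mul, abs_of_pos (by positivity : (0 : ℝ) < 1 / N), one_div, inv_mul_eq_div]
    gcongr
    calc |P1 (N * s) * (C + A * Real.cos s + B * Real.sin s) - R s|
        ≤ |P1 (N * s) * (C + A * Real.cos s + B * Real.sin s)| + |R s| := abs_sub _ _
      _ ≤ M * (|C| + |A| + |B|) + 2 * Real.pi * (M * (|A| + |B|)) := by
          gcongr
          · rw [abs_mul]
            apply mul_le_mul (hM _) _ (abs_nonneg _) hM0
            calc |C + A * Real.cos s + B * Real.sin s|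
                ≤ |C + A * Real.cos s| + |B * Real.sin s| := abs_add_le _ _
              _ ≤ |C| + |A * Real.cos s| + |B * Real.sin s| := by
                  gcongr
                  exact abs_add_le _ _
              _ ≤ |C| + |A| * 1 + |B| * 1 := by
                  rw [abs_mul, abs_mul]
                  gcongr
                  · exact Real.abs_cos_le_one _
                  · exact Real.abs_sin_le_one _
              _ = |C| + |A| + |B| := by ring
          · exact hRb s

end Pool.Agent.Work.MP_b0497c_an.Weak
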