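import Mathlib
import Pool.Agent.Work.MP_b0497c_an.Algebra

set_option autoImplicit false

/-!
Cross product and curl rules.
-/

namespace Pool.Agent.Work.MP_b0497c_an.Weak

open Set RealInnerProductSpace Pool.Agent.Work.MP_b0497c_an

/-- The cross product. -/
noncomputable def cr (a b : E3) : E3 :=
  !₂[a 1 * b 2 - a 2 * b 1, a 2 * b 0 - a 0 * b 2, a 0 * b 1 - a 1 * b 0]

theorem cr_zero (a b : E3) : cr a b 0 = a 1 * b 2 - a 2 * b 1 := rfl
theorem cr_one (a b : E3) : cr a b 1 = a 2 * b 0 - a 0 * b 2 := rfl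
theorem cr_two (a b : E3) : cr a b 2 = a 0 * b 1 - a 1 * b 0 := rfl

theorem ext3 {a b : E3} (h0 : a 0 = b 0) (h1 : a 1 = b 1) (h2 : a 2 = b 2) : a = b := by
  ext i
  fin_cases i
  · exact h0
  · exact h1
  · exact h2

theorem cr_self (a : E3) : cr a a = 0 := by
  apply ext3 <;> simp [cr_zero, cr_one, cr_two] <;> ring

theorem cr_swap (a b : E3) : cr b a = - cr a b := by
  apply ext3 <;> simp [cr_zero, cr_one, cr_two] <;> ring

theorem cr_add_left (a b c : E3) : cr (a + b) c = cr a c + cr b c := by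
  apply ext3 <;> simp [cr_zero, cr_one, cr_two] <;> ring

theorem cr_smul_left (r : ℝ) (a c : E3) : cr (r • a) c = r • cr a c := by
  apply ext3 <;> simp [cr_zero, cr_one, cr_two] <;> ring

theorem cr_add_right (a b c : E3) : cr a (b + c) = cr a b + cr a c := by
  apply ext3 <;> simp [cr_zero, cr_one, cr_two] <;> ring

theorem cr_smul_right (r : ℝ) (a c : E3) : cr a (r • c) = r • cr a c := by
  apply ext3 <;> simp [cr_zero, cr_one, cr_two] <;> ring

theorem inner_cr_left (a b : E3) : ⟪a, cr a b⟫ = 0 := by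
  rw [inner_eq, cr_zero, cr_one, cr_two]
  ring

theorem inner_cr_right (a b : E3) : ⟪b, cr a b⟫ = 0 := by
  rw [inner_eq, cr_zero, cr_one, cr_two]
  ring

theorem norm_cr_sq (a b : E3) : ‖cr a b‖ ^ 2 = ‖a‖ ^ 2 * ‖b‖ ^ 2 - ⟪a, b⟫ ^ 2 := by
  rw [norm_sq_eq, norm_sq_eq, norm_sq_eq, inner_eq, cr_zero, cr_one, cr_two]
  ring

theorem norm_cr_le (a b : E3) : ‖cr a b‖ ≤ ‖a‖ * ‖b‖ := by
  apply le_of_sq_le_sq _ (by positivity)
  rw [norm_cr_sq, mul_pow]
  nlinarith [sq_nonneg ⟪a, b⟫]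

/-- `axial` as a linear map. -/
noncomputable def axialL : (E3 →L[ℝ] E3) →ₗ[ℝ] E3 where
  toFun := axial
  map_add' A B := by
    apply ext3 <;> simp [axial_zero, axial_one, axial_two] <;> ring
  map_smul' r A := by
    apply ext3 <;> simp [axial_zero, axial_one, axial_two] <;> ring

theorem axial_add (A B : E3 →L[ℝ] E3) : axial (A + B) = axial A + axial B := axialL.map_add A B
theorem axial_sub (A B : E3 →L[ℝ] E3) : axial (A - B) = axial A - axial B := axialL.map_sub A B
theorem axial_smul (r : ℝ) (A : E3 →L[ℝ] E3) : axial (r • A) = r • axial A := axialL.map_smul r A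
theorem axial_z : axial 0 = 0 := axialL.map_zero

theorem curl_add {f g : E3 → E3} {x : E3} (hf : DifferentiableAt ℝ f x)
    (hg : DifferentiableAt ℝ g x) : curl (fun y => f y + g y) x = curl f x + curl g x := by
  unfold curl
  rw [fderiv_fun_add hf hg, axial_add]

theorem curl_sub {f g : E3 → E3} {x : E3} (hf : DifferentiableAt ℝ f x)
    (hg : DifferentiableAt ℝ g x) : curl (fun y => f y - g y) x = curl f x - curl g x := by
  unfold curl
  rw [fderiv_fun_sub hf hg, axial_sub]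

theorem curl_neg {f : E3 → E3} {x : E3} : curl (fun y => - f y) x = - curl f x := by
  unfold curl
  rw [fderiv_fun_neg]
  exact axialL.map_neg _

theorem curl_const_smul {f : E3 → E3} {x : E3} (r : ℝ) (hf : DifferentiableAt ℝ f x) :
    curl (fun y => r • f y) x = r • curl f x := by
  unfold curl
  rw [fderiv_fun_const_smul hf, axial_smul]

theorem curl_sum {ι : Type} (s : Finset ι) {f : ι → E3 → E3} {x : E3}
    (hf : ∀ i ∈ s, DifferentiableAt ℝ (f i) x) :
    curl (fun y => ∑ i ∈ s, f i y) x = ∑ i ∈ s, curl (f i) x := by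
  unfold curl
  rw [fderiv_fun_sum hf]
  exact map_sum axialL _ _

theorem e_apply' (i j : Fin 3) : (e i) j = if j = i then 1 else 0 := by
  simp [e]

/-- The vector representing a linear functional. -/
theorem curl_smul_const {φ : E3 → ℝ} {x : E3} {a : E3} (c : E3)
    (hφ : HasFDerivAt φ (innerSL ℝ a) x) : curl (fun y => φ y • c) x = cr a c := by
  unfold curl
  rw [(hφ.smul_const c).fderiv]
  apply ext3 <;>
    simp [axial_zero, axial_one, axial_two, cr_zero, cr_one, cr_two, inner_eq, e_apply']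

/-- Functional of the form `h(⟨a,x⟩, ⟨b,x⟩)`. -/
theorem hasFDerivAt_two {h : ℝ × ℝ → ℝ} {a b x : E3} {h1 h2 : ℝ}
    (hh : HasFDerivAt h (h1 • ContinuousLinearMap.fst ℝ ℝ ℝ + h2 • ContinuousLinearMap.snd ℝ ℝ ℝ)
      (⟪a, x⟫, ⟪b, x⟫)) :
    HasFDerivAt (fun y : E3 => h (⟪a, y⟫, ⟪b, y⟫)) (innerSL ℝ (h1 • a + h2 • b)) x := by
  have h3 : HasFDerivAt (fun y : E3 => (⟪a, y⟫, ⟪b, y⟫))
      ((innerSL ℝ a).prod (innerSL ℝ b)) x :=
    ((innerSL ℝ a).hasFDerivAt).prodMk ((innerSL ℝ b).hasFDerivAt)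
  refine (hh.comp x h3).congr_fderiv ?_
  ext v
  simp

theorem trace_smul_const {φ : E3 → ℝ} {x a : E3} (c : E3)
    (hφ : HasFDerivAt φ (innerSL ℝ a) x) :
    LinearMap.trace ℝ E3 (fderiv ℝ (fun y => φ y • c) x) = ⟪a, c⟫ := by
  rw [(hφ.smul_const c).fderiv, trace_eq, inner_eq]
  simp [inner_eq, e_apply']

end Pool.Agent.Work.MP_b0497c_an.Weak
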