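import Mathlib
import Pool.Agent.Work.MP_b0497c_an.Weak.Curl

set_option autoImplicit false

/-!
Vector potentials of periodic divergence free fields.
-/

namespace Pool.Agent.Work.MP_b0497c_an.Weak

open Set RealInnerProductSpace Pool.Agent.Work.MP_b0497c_an MeasureTheory Filter Topology
open intervalIntegral

/-- Weighted average along the direction `v`. -/
noncomputable def avg (w : ℝ → ℝ) (v : E3) (f : E3 → E3) (x : E3) : E3 :=
  ∫ s in (0 : ℝ)..(2 * Real.pi), w s • f (x + s • v)

section

variable {w : ℝ → ℝ} {v : E3} {f : E3 → E3}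

theorem hasFDerivAt_avg (hw : Continuous w) (v : E3) (hf : ContDiff ℝ 1 f) (x : E3) :
    HasFDerivAt (avg w v f)
      (∫ s in (0 : ℝ)..(2 * Real.pi), w s • fderiv ℝ f (x + s • v)) x := by
  have hfc : Continuous (fderiv ℝ f) := hf.continuous_fderiv one_ne_zero
  have hF'c : Continuous (fun z : E3 × ℝ => w z.2 • fderiv ℝ f (z.1 + z.2 • v)) :=
    (hw.comp continuous_snd).smul
      (hfc.comp (continuous_fst.add (continuous_snd.smul continuous_const)))
  obtain ⟨K, hK⟩ := ((isCompact_closedBall x (1 : ℝ)).prod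
    (isCompact_Icc (a := (0 : ℝ)) (b := 2 * Real.pi))).exists_bound_of_continuousOn
    hF'c.continuousOn
  have hcx : ∀ y : E3, Continuous fun s : ℝ => w s • f (y + s • v) := fun y =>
    hw.smul (hf.continuous.comp (continuous_const.add (continuous_id.smul continuous_const)))
  refine intervalIntegral.hasFDerivAt_integral_of_dominated_of_fderiv_le
    (F := fun y s => w s • f (y + s • v))
    (F' := fun y s => w s • fderiv ℝ f (y + s • v)) (bound := fun _ => K)
    (Metric.closedBall_mem_nhds x one_pos) ?_ ?_ ?_ ?_ ?_ ?_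
  · filter_upwards with y
    exact (hcx y).aestronglyMeasurable
  · exact (hcx x).intervalIntegrable _ _
  · exact (hF'c.comp (continuous_const.prodMk continuous_id)).aestronglyMeasurable
  · filter_upwards with s hs y hy
    have hs' : s ∈ Icc (0 : ℝ) (2 * Real.pi) := by
      rw [uIoc_of_le (by positivity)] at hs
      exact ⟨hs.1.le, hs.2⟩
    exact hK (y, s) ⟨hy, hs'⟩
  · exact intervalIntegrable_const
  · filter_upwards with s _ y _
    have h1 : HasFDerivAt f (fderiv ℝ f (y + s • v)) (y + s • v) :=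
      (hf.differentiable one_ne_zero _).hasFDerivAt
    have h2 : HasFDerivAt (fun y : E3 => f (y + s • v)) (fderiv ℝ f (y + s • v)) y :=
      (hasFDerivAt_comp_add_right (s • v)).mpr h1
    exact h2.const_smul (w s)

theorem fderiv_avg (hw : Continuous w) (v : E3) (hf : ContDiff ℝ 1 f) (x : E3) :
    fderiv ℝ (avg w v f) x = ∫ s in (0 : ℝ)..(2 * Real.pi), w s • fderiv ℝ f (x + s • v) :=
  (hasFDerivAt_avg hw v hf x).fderiv

theorem contDiff_avg (hw : Continuous w) (v : E3) (hf : ContDiff ℝ 1 f) :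
    ContDiff ℝ 1 (avg w v f) := by
  rw [contDiff_one_iff_fderiv]
  refine ⟨fun x => (hasFDerivAt_avg hw v hf x).differentiableAt, ?_⟩
  rw [show fderiv ℝ (avg w v f) = fun x => ∫ s in (0 : ℝ)..(2 * Real.pi),
    w s • fderiv ℝ f (x + s • v) from funext (fderiv_avg hw v hf)]
  apply intervalIntegral.continuous_parametric_intervalIntegral_of_continuous'
  have hfc : Continuous (fderiv ℝ f) := hf.continuous_fderiv one_ne_zero
  exact (hw.comp continuous_snd).smul
      (hfc.comp (continuous_fst.add (continuous_snd.smul continuous_const)))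

theorem periodic_avg (w : ℝ → ℝ) (v : E3) (hf : Periodic3 f) : Periodic3 (avg w v f) := by
  intro i x
  unfold avg
  apply intervalIntegral.integral_congr
  intro s _
  simp only
  rw [show x + (2 * Real.pi) • e i + s • v = (x + s • v) + (2 * Real.pi) • e i by abel, hf i]

theorem fderiv_avg_apply (hw : Continuous w) (v : E3) (hf : ContDiff ℝ 1 f) (x h : E3) :
    fderiv ℝ (avg w v f) x h
      = ∫ s in (0 : ℝ)..(2 * Real.pi), w s • fderiv ℝ f (x + s • v) h := by
  have hfc : Continuous (fderiv ℝ f) := hf.continuous_fderiv one_ne_zero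
  have hint : IntervalIntegrable (fun s : ℝ => w s • fderiv ℝ f (x + s • v)) volume 0
      (2 * Real.pi) := by
    apply Continuous.intervalIntegrable
    exact hw.smul (hfc.comp (continuous_const.add (continuous_id.smul continuous_const)))
  rw [fderiv_avg hw v hf x, ContinuousLinearMap.intervalIntegral_apply hint]
  rfl

/-- The divergence. -/
noncomputable def dv (f : E3 → E3) (x : E3) : ℝ := LinearMap.trace ℝ E3 (fderiv ℝ f x)

theorem dv_eq (f : E3 → E3) (x : E3) :
    dv f x = (fderiv ℝ f x (e 0)) 0 + (fderiv ℝ f x (e 1)) 1 + (fderiv ℝ f x (e 2)) 2 :=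
  trace_eq _

/-- The trace as a continuous linear map. -/
noncomputable def trL : (E3 →L[ℝ] E3) →L[ℝ] ℝ :=
  LinearMap.toContinuousLinearMap
    { toFun := fun A => LinearMap.trace ℝ E3 (A : E3 →ₗ[ℝ] E3)
      map_add' := fun A B => by
        rw [ContinuousLinearMap.toLinearMap_add, map_add]
      map_smul' := fun r A => by
        rw [ContinuousLinearMap.toLinearMap_smul, map_smul]
        rfl }

theorem trL_apply (A : E3 →L[ℝ] E3) : trL A = LinearMap.trace ℝ E3 (A : E3 →ₗ[ℝ] E3) := rfl

theorem dv_avg (hw : Continuous w) (v : E3) (hf : ContDiff ℝ 1 f) (hd : ∀ x, dv f x = 0) (x : E3) :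
    dv (avg w v f) x = 0 := by
  have hfc : Continuous (fderiv ℝ f) := hf.continuous_fderiv one_ne_zero
  have hint : IntervalIntegrable (fun s : ℝ => w s • fderiv ℝ f (x + s • v)) volume 0
      (2 * Real.pi) := by
    apply Continuous.intervalIntegrable
    exact hw.smul (hfc.comp (continuous_const.add (continuous_id.smul continuous_const)))
  unfold dv
  rw [← trL_apply, fderiv_avg hw v hf x, ← ContinuousLinearMap.intervalIntegral_comp_comm trL hint]
  have : ∀ s : ℝ, trL (w s • fderiv ℝ f (x + s • v)) = 0 := by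
    intro s
    rw [map_smul, trL_apply]
    change w s • dv f (x + s • v) = 0
    rw [hd, smul_zero]
  simp only [this, intervalIntegral.integral_zero]

theorem norm_avg_le {W K : ℝ} (hW : ∀ s ∈ Icc (0 : ℝ) (2 * Real.pi), |w s| ≤ W) (hK : ∀ x, ‖f x‖ ≤ K)
    (x : E3) : ‖avg w v f x‖ ≤ W * K * (2 * Real.pi) := by
  unfold avg
  have := intervalIntegral.norm_integral_le_of_norm_le_const (a := (0 : ℝ)) (b := 2 * Real.pi)
    (f := fun s => w s • f (x + s • v)) (C := W * K) (by
      intro s hs
      rw [uIoc_of_le (by positivity)] at hs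
      rw [norm_smul, Real.norm_eq_abs]
      have h1 := hW s ⟨hs.1.le, hs.2⟩
      exact mul_le_mul h1 (hK _) (norm_nonneg _) ((abs_nonneg _).trans h1))
  rwa [sub_zero, abs_of_pos (by positivity : 0 < 2 * Real.pi)] at this

end

/-- The average along `e i`. -/
noncomputable def Av (i : Fin 3) (f : E3 → E3) : E3 → E3 := avg (fun _ => 1 / (2 * Real.pi)) (e i) f

/-- The antiderivative along `e i`. -/
noncomputable def Jo (i : Fin 3) (f : E3 → E3) : E3 → E3 :=
  avg (fun s => s / (2 * Real.pi)) (e i) f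

theorem fderiv_Jo {f : E3 → E3} (hf : ContDiff ℝ 1 f) (hp : Periodic3 f) (i : Fin 3) (x : E3) :
    fderiv ℝ (Jo i f) x (e i) = f x - Av i f x := by
  have hfc : Continuous (fderiv ℝ f) := hf.continuous_fderiv one_ne_zero
  unfold Jo
  rw [fderiv_avg_apply (by fun_prop) _ hf]
  have hder : ∀ s : ℝ, HasDerivAt (fun s : ℝ => (s / (2 * Real.pi)) • f (x + s • e i))
      ((1 / (2 * Real.pi)) • f (x + s • e i)
        + (s / (2 * Real.pi)) • fderiv ℝ f (x + s • e i) (e i)) s := by
    intro s
    have h1 : HasDerivAt (fun s : ℝ => s / (2 * Real.pi)) (1 / (2 * Real.pi)) s :=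
      (hasDerivAt_id s).div_const _
    have h2 : HasDerivAt (fun s : ℝ => x + s • e i) (e i) s := by
      simpa using ((hasDerivAt_id s).smul_const (e i)).const_add x
    have h3 : HasDerivAt (fun s : ℝ => f (x + s • e i)) (fderiv ℝ f (x + s • e i) (e i)) s :=
      ((hf.differentiable one_ne_zero _).hasFDerivAt).comp_hasDerivAt s h2
    refine (h1.smul h3).congr_deriv ?_
    rw [add_comm]
  have hline : Continuous fun s : ℝ => x + s • e i := by fun_prop
  have hcf : Continuous fun s : ℝ => f (x + s • e i) := hf.continuous.comp hline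
  have hc1 : Continuous fun s : ℝ => (1 / (2 * Real.pi)) • f (x + s • e i) :=
    Continuous.const_smul hcf (1 / (2 * Real.pi))
  have hc2 : Continuous fun s : ℝ => (s / (2 * Real.pi)) • fderiv ℝ f (x + s • e i) (e i) := by
    refine (continuous_id.div_const _).smul ?_
    exact (hfc.comp (continuous_const.add (continuous_id.smul continuous_const))).clm_apply
      continuous_const
  have h4 := intervalIntegral.integral_eq_sub_of_hasDerivAt (a := (0 : ℝ)) (b := 2 * Real.pi)
    (fun s _ => hder s) ((hc1.add hc2).intervalIntegrable _ _)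
  rw [intervalIntegral.integral_add (hc1.intervalIntegrable _ _) (hc2.intervalIntegrable _ _),
    hp i x, zero_div, zero_smul, sub_zero, div_self (by positivity), one_smul] at h4
  rw [← h4]
  unfold Av avg
  abel

theorem curl_cr {F : E3 → E3} {x : E3} (hF : DifferentiableAt ℝ F x) (c : E3) :
    curl (fun y => cr (F y) c) x = fderiv ℝ F x c - dv F x • c := by
  set L : E3 →L[ℝ] E3 := LinearMap.toContinuousLinearMap
    { toFun := fun a => cr a c
      map_add' := fun a b => cr_add_left a b c
      map_smul' := fun r a => cr_smul_left r a c } with hL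
  have hLa : ∀ a, L a = cr a c := fun a => rfl
  have h1 : fderiv ℝ (fun y => cr (F y) c) x = L.comp (fderiv ℝ F x) :=
    (L.hasFDerivAt.comp x hF.hasFDerivAt).fderiv
  unfold curl
  rw [h1, dv_eq]
  have h2 := fun i => apply_expand (fderiv ℝ F x) c i
  apply ext3
  · rw [axial_zero]
    simp only [ContinuousLinearMap.comp_apply, hLa, cr_two, cr_one, PiLp.sub_apply,
      PiLp.smul_apply, smul_eq_mul, h2]
    ring
  · rw [axial_one]
    simp only [ContinuousLinearMap.comp_apply, hLa, cr_two, cr_zero, PiLp.sub_apply,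
      PiLp.smul_apply, smul_eq_mul, h2]
    ring
  · rw [axial_two]
    simp only [ContinuousLinearMap.comp_apply, hLa, cr_zero, cr_one, PiLp.sub_apply,
      PiLp.smul_apply, smul_eq_mul, h2]
    ring

theorem norm_e (i : Fin 3) : ‖e i‖ = 1 := by
  simp [e]

theorem contDiff_cr {F : E3 → E3} {n : WithTop ℕ∞} (hF : ContDiff ℝ n F) (c : E3) :
    ContDiff ℝ n fun y => cr (F y) c := by
  set L : E3 →L[ℝ] E3 := LinearMap.toContinuousLinearMap
    { toFun := fun a => cr a c
      map_add' := fun a b => cr_add_left a b c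
      map_smul' := fun r a => cr_smul_left r a c } with hL
  exact L.contDiff.comp hF

/-- One step: removing the average along `e i`. -/
theorem step {f : E3 → E3} (hf : ContDiff ℝ 1 f) (hp : Periodic3 f) (hd : ∀ x, dv f x = 0)
    (i : Fin 3) (x : E3) :
    curl (fun y => cr (Jo i f y) (e i)) x = f x - Av i f x := by
  have h1 : ContDiff ℝ 1 (Jo i f) := contDiff_avg (by fun_prop) _ hf
  rw [curl_cr (h1.differentiable one_ne_zero x), fderiv_Jo hf hp, Jo,
    dv_avg (by fun_prop) _ hf hd, zero_smul, sub_zero]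

theorem Av_shift {f : E3 → E3} (hp : Periodic3 f) (i : Fin 3) (x : E3) (τ : ℝ) :
    Av i f (x + τ • e i) = Av i f x := by
  unfold Av avg
  rw [intervalIntegral.integral_smul, intervalIntegral.integral_smul]
  congr 1
  have hper : Function.Periodic (fun s : ℝ => f (x + s • e i)) (2 * Real.pi) := by
    intro s
    simp only
    rw [add_smul, ← add_assoc, hp i]
  have h1 := hper.intervalIntegral_add_eq 0 τ
  rw [zero_add] at h1
  rw [h1]
  have h2 : ∫ s in (0 : ℝ)..(2 * Real.pi), (fun s : ℝ => f (x + s • e i)) (s + τ)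
      = ∫ s in (0 + τ)..(2 * Real.pi + τ), (fun s : ℝ => f (x + s • e i)) s :=
    intervalIntegral.integral_comp_add_right (fun s : ℝ => f (x + s • e i)) τ
  rw [zero_add, add_comm (2 * Real.pi) τ] at h2
  rw [← h2]
  apply intervalIntegral.integral_congr
  intro s _
  simp only
  congr 1
  rw [add_smul]
  abel

theorem Av_inv {f : E3 → E3} {v : E3} (h : ∀ x, ∀ τ : ℝ, f (x + τ • v) = f x) (i : Fin 3)
    (x : E3) (τ : ℝ) : Av i f (x + τ • v) = Av i f x := by
  unfold Av avg
  apply intervalIntegral.integral_congr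
  intro s _
  simp only
  rw [show x + τ • v + s • e i = (x + s • e i) + τ • v by abel, h]

theorem periodic_Av {f : E3 → E3} (hp : Periodic3 f) (i : Fin 3) : Periodic3 (Av i f) :=
  periodic_avg _ _ hp

/-- The full average. -/
noncomputable def mn (f : E3 → E3) : E3 → E3 := Av 0 (Av 1 (Av 2 f))

theorem mn_const {f : E3 → E3} (hp : Periodic3 f) (x y : E3) : mn f x = mn f y := by
  have p2 := periodic_Av hp 2
  have p1 := periodic_Av p2 1
  have i2 : ∀ x, ∀ τ : ℝ, mn f (x + τ • e 2) = mn f x :=
    Av_inv (Av_inv (fun x τ => Av_shift hp 2 x τ) 1) 0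
  have i1 : ∀ x, ∀ τ : ℝ, mn f (x + τ • e 1) = mn f x :=
    Av_inv (fun x τ => Av_shift p2 1 x τ) 0
  have i0 : ∀ x, ∀ τ : ℝ, mn f (x + τ • e 0) = mn f x := fun x τ => Av_shift p1 0 x τ
  have hz : ∀ x, mn f x = mn f 0 := by
    intro x
    have : x = 0 + x 0 • e 0 + x 1 • e 1 + x 2 • e 2 := by
      rw [zero_add]; exact expand x
    rw [this, i2, i1, i0]
  rw [hz x, hz y]

theorem Av_reflect {f : E3 → E3} (hp : Periodic3 f) (c : E3) (i : Fin 3) (x : E3) :
    Av i (fun y => f (c - y)) x = Av i f (c - x) := by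
  unfold Av avg
  rw [intervalIntegral.integral_smul, intervalIntegral.integral_smul]
  congr 1
  have h2 : ∫ s in (0 : ℝ)..(2 * Real.pi), (fun s : ℝ => f (c - x + s • e i)) (2 * Real.pi - s)
      = ∫ s in (2 * Real.pi - 2 * Real.pi)..(2 * Real.pi - 0),
        (fun s : ℝ => f (c - x + s • e i)) s :=
    intervalIntegral.integral_comp_sub_left (fun s : ℝ => f (c - x + s • e i)) (2 * Real.pi)
  rw [sub_self, sub_zero] at h2
  rw [← h2]
  apply intervalIntegral.integral_congr
  intro s _
  simp only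
  rw [sub_smul, show c - x + ((2 * Real.pi) • e i - s • e i)
    = (c - (x + s • e i)) + (2 * Real.pi) • e i by abel, hp i]

theorem Av_neg (f : E3 → E3) (i : Fin 3) (x : E3) :
    Av i (fun y => - f y) x = - Av i f x := by
  unfold Av avg
  simp only [smul_neg, intervalIntegral.integral_neg]

theorem mn_odd {f : E3 → E3} (hp : Periodic3 f) (c : E3) (hodd : ∀ x, f (c - x) = - f x) (x : E3) :
    mn f x = 0 := by
  have p2 := periodic_Av hp 2
  have p1 := periodic_Av p2 1
  have h1 : (fun y => f (c - y)) = fun y => - f y := funext hodd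
  have a2 : ∀ y, Av 2 f (c - y) = - Av 2 f y := by
    intro y
    rw [← Av_reflect hp c 2 y, h1, Av_neg]
  have a1 : ∀ y, Av 1 (Av 2 f) (c - y) = - Av 1 (Av 2 f) y := by
    intro y
    rw [← Av_reflect p2 c 1 y, funext a2, Av_neg]
  have a0 : mn f (c - x) = - mn f x := by
    unfold mn
    rw [← Av_reflect p1 c 0 x, funext a1, Av_neg]
  have a3 := mn_const hp (c - x) x
  rw [a3] at a0
  have : (2 : ℝ) • mn f x = 0 := by
    rw [two_smul]
    nth_rewrite 1 [a0]
    exact neg_add_cancel _
  exact (smul_eq_zero.mp this).resolve_left two_ne_zero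

/-- Existence of periodic vector potentials, with a bound. -/
theorem exists_potential {f : E3 → E3} (hf : ContDiff ℝ 1 f) (hp : Periodic3 f)
    (hd : ∀ x, dv f x = 0) : ∃ Ψ : E3 → E3, ContDiff ℝ 1 Ψ ∧ Periodic3 Ψ ∧
      (∀ x, f x = mn f 0 + curl Ψ x) ∧ ∀ K, (∀ x, ‖f x‖ ≤ K) → ∀ x, ‖Ψ x‖ ≤ 20 * K := by
  have hc : Continuous fun s : ℝ => s / (2 * Real.pi) := by fun_prop
  set f1 := Av 2 f with hf1
  set f2 := Av 1 f1 with hf2
  have s1 : ContDiff ℝ 1 f1 := contDiff_avg continuous_const _ hf
  have s2 : ContDiff ℝ 1 f2 := contDiff_avg continuous_const _ s1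
  have p1 : Periodic3 f1 := periodic_Av hp 2
  have p2 : Periodic3 f2 := periodic_Av p1 1
  have d1 : ∀ x, dv f1 x = 0 := dv_avg continuous_const _ hf hd
  have d2 : ∀ x, dv f2 x = 0 := dv_avg continuous_const _ s1 d1
  have k0 : ContDiff ℝ 1 fun y => cr (Jo 2 f y) (e 2) := contDiff_cr (contDiff_avg hc _ hf) _
  have k1 : ContDiff ℝ 1 fun y => cr (Jo 1 f1 y) (e 1) := contDiff_cr (contDiff_avg hc _ s1) _
  have k2 : ContDiff ℝ 1 fun y => cr (Jo 0 f2 y) (e 0) := contDiff_cr (contDiff_avg hc _ s2) _
  refine ⟨fun y => cr (Jo 2 f y) (e 2) + cr (Jo 1 f1 y) (e 1) + cr (Jo 0 f2 y) (e 0),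
    (k0.add k1).add k2, ?_, ?_, ?_⟩
  · intro i x
    have q0 : Periodic3 (Jo 2 f) := periodic_avg _ _ hp
    have q1 : Periodic3 (Jo 1 f1) := periodic_avg _ _ p1
    have q2 : Periodic3 (Jo 0 f2) := periodic_avg _ _ p2
    simp only [q0 i x, q1 i x, q2 i x]
  · intro x
    rw [curl_add (((k0.add k1).differentiable one_ne_zero) x) ((k2.differentiable one_ne_zero) x),
      curl_add ((k0.differentiable one_ne_zero) x) ((k1.differentiable one_ne_zero) x),
      step hf hp hd, step s1 p1 d1, step s2 p2 d2]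
    have : Av 0 f2 x = mn f 0 := mn_const hp x 0
    rw [this]
    abel
  · intro K hK x
    have hK0 : 0 ≤ K := (norm_nonneg _).trans (hK 0)
    have hAv : ∀ (g : E3 → E3) (i : Fin 3), (∀ x, ‖g x‖ ≤ K) → ∀ x, ‖Av i g x‖ ≤ K := by
      intro g i hg x
      have := norm_avg_le (w := fun _ => 1 / (2 * Real.pi)) (v := e i) (W := 1 / (2 * Real.pi))
        (fun s _ => by rw [abs_of_pos (by positivity)]) hg x
      refine this.trans (le_of_eq ?_)
      field_simp
    have hJo : ∀ (g : E3 → E3) (i : Fin 3), (∀ x, ‖g x‖ ≤ K) → ∀ x,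
        ‖cr (Jo i g x) (e i)‖ ≤ K * (2 * Real.pi) := by
      intro g i hg x
      have := norm_avg_le (w := fun s => s / (2 * Real.pi)) (v := e i) (W := 1)
        (fun s hs => by
          rw [abs_of_nonneg (by have := hs.1; positivity), div_le_one (by positivity)]
          exact hs.2) hg x
      refine (norm_cr_le _ _).trans ?_
      rw [norm_e, mul_one]
      rwa [one_mul] at this
    have b0 := hJo f 2 hK x
    have b1 := hJo f1 1 (hAv f 2 hK) x
    have b2 := hJo f2 0 (hAv f1 1 (hAv f 2 hK)) x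
    have b3 := norm_add₃_le (a := cr (Jo 2 f x) (e 2)) (b := cr (Jo 1 f1 x) (e 1))
      (c := cr (Jo 0 f2 x) (e 0))
    have hpi := Real.pi_lt_d2
    have h5 : K * (2 * Real.pi) ≤ K * 6.5 := by
      apply mul_le_mul_of_nonneg_left _ hK0
      linarith
    refine b3.trans ?_
    linarith

end Pool.Agent.Work.MP_b0497c_an.Weak
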