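import Mathlib
import Pool.Agent.Work.MP_b0497c_an.Weak.Potential
import Pool.Agent.Work.MP_b0497c_an.Weak.Osc
import Pool.Agent.Work.MP_b0497c_an.Bd.B25

set_option autoImplicit false

/-!
Shear modes with integer directions and their approximation by thin tubes.
-/

namespace Pool.Agent.Work.MP_b0497c_an.Weak

open Set RealInnerProductSpace Pool.Agent.Work.MP_b0497c_an Filter Topology
open scoped ContDiff

theorem hasFDerivAt_one {α : ℝ → ℝ} {α' : ℝ} {a x : E3} (hα : HasDerivAt α α' ⟪a, x⟫) :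
    HasFDerivAt (fun y : E3 => α ⟪a, y⟫) (innerSL ℝ (α' • a)) x := by
  refine (hα.comp_hasFDerivAt x ((innerSL ℝ a).hasFDerivAt)).congr_fderiv ?_
  ext v
  simp

theorem hasFDerivAt_prod {α β : ℝ → ℝ} {α' β' : ℝ} {a b x : E3} (hα : HasDerivAt α α' ⟪a, x⟫)
    (hβ : HasDerivAt β β' ⟪b, x⟫) :
    HasFDerivAt (fun y : E3 => α ⟪a, y⟫ * β ⟪b, y⟫)
      (innerSL ℝ ((α' * β ⟪b, x⟫) • a + (α ⟪a, x⟫ * β') • b)) x := by
  refine ((hasFDerivAt_one hα).mul (hasFDerivAt_one hβ)).congr_fderiv ?_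
  ext v
  simp
  ring

theorem per_nat {P : ℝ → ℝ} (hP : Function.Periodic P (2 * Real.pi)) (N : ℕ) :
    Function.Periodic (fun s : ℝ => P (N * s)) (2 * Real.pi) := by
  intro s
  have := hP.nat_mul N (N * s)
  simp only
  rw [← this]
  congr 1
  ring

theorem inner_iv_e (a : Fin 3 → ℤ) (i : Fin 3) : ⟪iv a, e i⟫ = a i := by
  rw [inner_eq]
  fin_cases i <;> simp [iv_zero, iv_one, iv_two, e_apply']

theorem per_comp {P : ℝ → ℝ} (hP : Function.Periodic P (2 * Real.pi)) (a : Fin 3 → ℤ) :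
    Periodic3 fun x : E3 => P ⟪iv a, x⟫ := by
  intro i x
  simp only
  rw [inner_add_right, inner_smul_right, inner_iv_e]
  have := hP.int_mul (a i) ⟪iv a, x⟫
  rw [← this]
  congr 1
  ring

theorem bounded_periodic {P : ℝ → ℝ} (hc : Continuous P)
    (hP : Function.Periodic P (2 * Real.pi)) : ∃ M, 0 ≤ M ∧ ∀ s, |P s| ≤ M := by
  obtain ⟨C, hC⟩ := isCompact_Icc.exists_bound_of_continuousOn
    (s := Icc (0 : ℝ) (2 * Real.pi)) hc.continuousOn
  refine ⟨max C 0, le_max_right _ _, fun s => ?_⟩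
  obtain ⟨y, hy, hys⟩ := hP.exists_mem_Ico₀ (by positivity) s
  rw [hys]
  exact (hC y ⟨hy.1, hy.2.le⟩).trans (le_max_left _ _)

/-- A shear mode `F(⟨a,x⟩) a × b`, with `F(s) = C + A cos s + B sin s`, `a`, `b` integer
vectors. -/
structure Mode where
  /-- first integer vector -/
  a : Fin 3 → ℤ
  /-- second integer vector -/
  b : Fin 3 → ℤ
  /-- constant coefficient -/
  C : ℝ
  /-- cosine coefficient -/
  A : ℝ
  /-- sine coefficient -/
  B : ℝ

namespace Mode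

/-- The profile. -/
noncomputable def F (M : Mode) (s : ℝ) : ℝ := M.C + M.A * Real.cos s + M.B * Real.sin s

/-- The direction. -/
noncomputable def dir (M : Mode) : E3 := cr (iv M.a) (iv M.b)

/-- The velocity field. -/
noncomputable def field (M : Mode) (x : E3) : E3 := M.F ⟪iv M.a, x⟫ • M.dir

/-- The amplitude of the tube field. -/
noncomputable def amp (M : Mode) (p q : ℝ → ℝ) (N : ℕ) (x : E3) : ℝ :=
  (p (N * ⟪iv M.a, x⟫) * M.F ⟪iv M.a, x⟫) * q (N * ⟪iv M.b, x⟫)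

theorem F_contDiff (M : Mode) : ContDiff ℝ ∞ M.F :=
  (contDiff_const.add (contDiff_const.mul Real.contDiff_cos)).add
    (contDiff_const.mul Real.contDiff_sin)

theorem F_periodic (M : Mode) : Function.Periodic M.F (2 * Real.pi) := by
  intro s
  unfold F
  rw [Real.cos_add_two_pi, Real.sin_add_two_pi]

variable {p q : ℝ → ℝ}

theorem amp_contDiff (M : Mode) (hp : ContDiff ℝ ∞ p) (hq : ContDiff ℝ ∞ q) (N : ℕ) :
    ContDiff ℝ ∞ (M.amp p q N) := by
  have h1 : ∀ a : E3, ContDiff ℝ ∞ fun x : E3 => ⟪a, x⟫ := fun a => (innerSL ℝ a).contDiff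
  unfold amp
  exact ((hp.comp (contDiff_const.mul (h1 _))).mul (M.F_contDiff.comp (h1 _))).mul
    (hq.comp (contDiff_const.mul (h1 _)))

theorem amp_periodic (M : Mode) (hp : Function.Periodic p (2 * Real.pi))
    (hq : Function.Periodic q (2 * Real.pi)) (N : ℕ) : Periodic3 (M.amp p q N) := by
  intro i x
  unfold amp
  have h1 := per_comp (per_nat hp N) M.a i x
  have h2 := per_comp (per_nat hq N) M.b i x
  have h3 := per_comp M.F_periodic M.a i x
  simp only at h1 h2 h3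
  rw [h1, h2, h3]

theorem amp_deriv (M : Mode) (hp : ContDiff ℝ ∞ p) (hq : ContDiff ℝ ∞ q) (N : ℕ) (x : E3) :
    ∃ r s : ℝ, HasFDerivAt (M.amp p q N) (innerSL ℝ (r • iv M.a + s • iv M.b)) x := by
  have h1 : ContDiff ℝ ∞ fun s : ℝ => p (N * s) * M.F s :=
    (hp.comp (contDiff_const.mul contDiff_id)).mul M.F_contDiff
  have h2 : ContDiff ℝ ∞ fun s : ℝ => q (N * s) := hq.comp (contDiff_const.mul contDiff_id)
  have d1 := (h1.differentiable (by simp) ⟪iv M.a, x⟫).hasDerivAt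
  have d2 := (h2.differentiable (by simp) ⟪iv M.b, x⟫).hasDerivAt
  exact ⟨_, _, hasFDerivAt_prod d1 d2⟩

theorem amp_dir (M : Mode) (hp : ContDiff ℝ ∞ p) (hq : ContDiff ℝ ∞ q) (N : ℕ) (x : E3) :
    fderiv ℝ (M.amp p q N) x M.dir = 0 := by
  obtain ⟨r, s, h⟩ := M.amp_deriv hp hq N x
  rw [h.fderiv]
  simp only [innerSL_apply_apply, inner_add_left, inner_smul_left, dir, inner_cr_left,
    inner_cr_right]
  simp

/-- The tube field approximates the mode. -/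
theorem approx (M : Mode) (hp : ContDiff ℝ ∞ p) (hq : ContDiff ℝ ∞ q)
    (hpp : Function.Periodic p (2 * Real.pi)) (hqp : Function.Periodic q (2 * Real.pi))
    (hpm : ∫ s in (0 : ℝ)..(2 * Real.pi), p s = 2 * Real.pi)
    (hqm : ∫ s in (0 : ℝ)..(2 * Real.pi), q s = 2 * Real.pi) :
    ∃ K : ℝ, 0 ≤ K ∧ ∀ N : ℕ, 2 ≤ N → ∃ Y : E3 → E3, ContDiff ℝ ∞ Y ∧ Periodic3 Y ∧
      (∀ x, ‖Y x‖ ≤ K / N) ∧ ∀ x, M.amp p q N x • M.dir = M.field x + curl Y x := by
  obtain ⟨K1, hK10, hK1⟩ := osc hp hpp hpm M.C M.A M.B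
  obtain ⟨Q1, hQ1s, hQ1p, hQ1d, ⟨M1, hM10, hM1⟩, -⟩ := exists_antideriv
    (g := fun s => q s - 1) (hq.sub contDiff_const)
    (fun s => by simp only [hqp s]) (by
      rw [intervalIntegral.integral_sub (hq.continuous.intervalIntegrable _ _) (by simp), hqm]
      simp)
  obtain ⟨M2, hM20, hM2⟩ := bounded_periodic hp.continuous hpp
  obtain ⟨M3, hM30, hM3⟩ := bounded_periodic M.F_contDiff.continuous M.F_periodic
  refine ⟨(M2 * M3 * M1) * ‖iv M.a‖ + K1 * ‖iv M.b‖, by positivity, ?_⟩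
  intro N hN
  have hNpos : (0 : ℝ) < N := by
    have : 0 < N := by omega
    exact_mod_cast this
  obtain ⟨G, hGs, hGp, hGd, hGb⟩ := hK1 N hN
  have hi : ∀ a : E3, ContDiff ℝ ∞ fun x : E3 => ⟪a, x⟫ := fun a => (innerSL ℝ a).contDiff
  set α : ℝ → ℝ := fun s => p (N * s) * M.F s with hα
  set β : ℝ → ℝ := fun s => (1 / (N : ℝ)) * Q1 (N * s) with hβ
  have hαs : ContDiff ℝ ∞ α := (hp.comp (contDiff_const.mul contDiff_id)).mul M.F_contDiff
  have hβs : ContDiff ℝ ∞ β := contDiff_const.mul (hQ1s.comp (contDiff_const.mul contDiff_id))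
  have hβd : ∀ s, HasDerivAt β (q (N * s) - 1) s := by
    intro s
    have h2 : HasDerivAt (fun s : ℝ => (N : ℝ) * s) N s := by
      simpa using (hasDerivAt_id s).const_mul (N : ℝ)
    refine (((hQ1d (N * s)).comp s h2).const_mul (1 / (N : ℝ))).congr_deriv ?_
    field_simp
  have hY1 : ContDiff ℝ ∞ fun x : E3 => α ⟪iv M.a, x⟫ * β ⟪iv M.b, x⟫ :=
    (hαs.comp (hi _)).mul (hβs.comp (hi _))
  have hY2 : ContDiff ℝ ∞ fun x : E3 => G ⟪iv M.a, x⟫ := hGs.comp (hi _)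
  refine ⟨fun x => G ⟪iv M.a, x⟫ • iv M.b - (α ⟪iv M.a, x⟫ * β ⟪iv M.b, x⟫) • iv M.a,
    (hY2.smul contDiff_const).sub (hY1.smul contDiff_const), ?_, ?_, ?_⟩
  · intro i x
    have h1 := per_comp hGp M.a i x
    have h2 := per_comp (per_nat hpp N) M.a i x
    have h3 := per_comp M.F_periodic M.a i x
    have h4 := per_comp (per_nat hQ1p N) M.b i x
    simp only [hα, hβ] at h1 h2 h3 h4 ⊢
    rw [h1, h2, h3, h4]
  · intro x
    refine (norm_sub_le _ _).trans ?_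
    rw [norm_smul, norm_smul, Real.norm_eq_abs, Real.norm_eq_abs]
    have h1 : |α ⟪iv M.a, x⟫ * β ⟪iv M.b, x⟫| ≤ (M2 * M3 * M1) / N := by
      simp only [hα, hβ]
      rw [abs_mul, abs_mul, abs_mul, abs_of_pos (by positivity : (0 : ℝ) < 1 / N)]
      have h5 := hM2 (N * ⟪iv M.a, x⟫)
      have h6 := hM3 ⟪iv M.a, x⟫
      have h7 := hM1 (N * ⟪iv M.b, x⟫)
      calc |p (N * ⟪iv M.a, x⟫)| * |M.F ⟪iv M.a, x⟫| * (1 / N * |Q1 (N * ⟪iv M.b, x⟫)|)
          ≤ M2 * M3 * (1 / N * M1) := by gcongr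
        _ = (M2 * M3 * M1) / N := by ring
    calc |G ⟪iv M.a, x⟫| * ‖iv M.b‖ + |α ⟪iv M.a, x⟫ * β ⟪iv M.b, x⟫| * ‖iv M.a‖
        ≤ (K1 / N) * ‖iv M.b‖ + ((M2 * M3 * M1) / N) * ‖iv M.a‖ := by
          gcongr
          exact hGb _
      _ = ((M2 * M3 * M1) * ‖iv M.a‖ + K1 * ‖iv M.b‖) / N := by ring
  · intro x
    have t2 : ContDiff ℝ ∞ fun x : E3 => G ⟪iv M.a, x⟫ • iv M.b := hY2.smul contDiff_const
    have t1 : ContDiff ℝ ∞ fun x : E3 => (α ⟪iv M.a, x⟫ * β ⟪iv M.b, x⟫) • iv M.a :=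
      hY1.smul contDiff_const
    rw [curl_sub (t2.differentiable (by simp) x) (t1.differentiable (by simp) x)]
    have d1 : HasFDerivAt (fun y : E3 => G ⟪iv M.a, y⟫) _ x := hasFDerivAt_one (hGd ⟪iv M.a, x⟫)
    have d2 : HasFDerivAt (fun y : E3 => α ⟪iv M.a, y⟫ * β ⟪iv M.b, y⟫) _ x :=
      hasFDerivAt_prod ((hαs.differentiable (by simp) ⟪iv M.a, x⟫).hasDerivAt)
        (hβd ⟪iv M.b, x⟫)
    rw [curl_smul_const (iv M.b) d1, curl_smul_const (iv M.a) d2, cr_smul_left, cr_add_left,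
      cr_smul_left, cr_smul_left, cr_self, smul_zero, zero_add, cr_swap (iv M.a) (iv M.b)]
    unfold amp field dir
    have : M.C + M.A * Real.cos ⟪iv M.a, x⟫ + M.B * Real.sin ⟪iv M.a, x⟫ = M.F ⟪iv M.a, x⟫ := rfl
    rw [this]
    simp only [hα]
    rw [smul_neg, sub_neg_eq_add, ← add_smul, ← add_smul]
    congr 1
    ring

end Mode

end Pool.Agent.Work.MP_b0497c_an.Weak
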