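import Mathlib
import Pool.Agent.Work.MP_b0497c_an.Weak.Block

set_option autoImplicit false

/-!
Fourier coefficients of periodic fields: translation invariance, orthogonality.
-/

namespace Pool.Agent.Work.MP_b0497c_an.Weak

open Set RealInnerProductSpace Pool.Agent.Work.MP_b0497c_an Filter Topology MeasureTheory
open scoped ContDiff

theorem continuous_avg {w : ℝ → ℝ} (hw : Continuous w) (v : E3) {f : E3 → E3}
    (hf : Continuous f) : Continuous (avg w v f) := by
  unfold avg
  apply intervalIntegral.continuous_parametric_intervalIntegral_of_continuous'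
  exact (hw.comp continuous_snd).smul
    (hf.comp (continuous_fst.add (continuous_snd.smul continuous_const)))

theorem continuous_Av (i : Fin 3) {f : E3 → E3} (hf : Continuous f) : Continuous (Av i f) :=
  continuous_avg continuous_const _ hf

theorem Av_add (i : Fin 3) {f g : E3 → E3} (hf : Continuous f) (hg : Continuous g) (x : E3) :
    Av i (fun y => f y + g y) x = Av i f x + Av i g x := by
  unfold Av avg
  have h : ∀ {f : E3 → E3}, Continuous f → IntervalIntegrable
      (fun s : ℝ => (1 / (2 * Real.pi)) • f (x + s • e i)) volume 0 (2 * Real.pi) := by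
    intro f hf
    have hline : Continuous fun s : ℝ => x + s • e i := by fun_prop
    have hc : Continuous fun s : ℝ => f (x + s • e i) := hf.comp hline
    exact (Continuous.const_smul hc (1 / (2 * Real.pi))).intervalIntegrable _ _
  rw [← intervalIntegral.integral_add (h hf) (h hg)]
  simp only [smul_add]

theorem Av_smul (i : Fin 3) (r : ℝ) (f : E3 → E3) (x : E3) :
    Av i (fun y => r • f y) x = r • Av i f x := by
  unfold Av avg
  rw [← intervalIntegral.integral_smul]
  simp only [smul_comm r]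

theorem mn_add {f g : E3 → E3} (hf : Continuous f) (hg : Continuous g) (x : E3) :
    mn (fun y => f y + g y) x = mn f x + mn g x := by
  unfold mn
  rw [show Av 2 (fun y => f y + g y) = fun y => Av 2 f y + Av 2 g y from
      funext fun y => Av_add 2 hf hg y,
    show Av 1 (fun y => Av 2 f y + Av 2 g y) = fun y => Av 1 (Av 2 f) y + Av 1 (Av 2 g) y from
      funext fun y => Av_add 1 (continuous_Av 2 hf) (continuous_Av 2 hg) y,
    Av_add 0 (continuous_Av 1 (continuous_Av 2 hf)) (continuous_Av 1 (continuous_Av 2 hg))]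

theorem mn_smul (r : ℝ) (f : E3 → E3) (x : E3) : mn (fun y => r • f y) x = r • mn f x := by
  unfold mn
  rw [show Av 2 (fun y => r • f y) = fun y => r • Av 2 f y from funext fun y => Av_smul 2 r f y,
    show Av 1 (fun y => r • Av 2 f y) = fun y => r • Av 1 (Av 2 f) y from
      funext fun y => Av_smul 1 r _ y, Av_smul 0]

theorem mn_neg (f : E3 → E3) (x : E3) : mn (fun y => - f y) x = - mn f x := by
  have := mn_smul (-1) f x
  simpa using this

theorem mn_sub {f g : E3 → E3} (hf : Continuous f) (hg : Continuous g) (x : E3) :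
    mn (fun y => f y - g y) x = mn f x - mn g x := by
  have h := mn_add hf hg.neg x
  have h2 : mn (fun y => -g y) x = - mn g x := mn_neg g x
  rw [show (fun y => f y - g y) = fun y => f y + (-g) y from funext fun y => sub_eq_add_neg _ _, h,
    sub_eq_add_neg]
  congr 1

theorem mn_zero (x : E3) : mn (fun _ => (0 : E3)) x = 0 := by
  have := mn_smul 0 (fun _ => (0 : E3)) x
  simpa using this

theorem mn_sum {ι : Type} (s : Finset ι) {f : ι → E3 → E3} (hf : ∀ i ∈ s, Continuous (f i))
    (x : E3) : mn (fun y => ∑ i ∈ s, f i y) x = ∑ i ∈ s, mn (f i) x := by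
  classical
  induction s using Finset.induction_on with
  | empty => simpa using mn_zero x
  | insert a s ha ih =>
    have h1 : ∀ i ∈ s, Continuous (f i) := fun i hi => hf i (Finset.mem_insert_of_mem hi)
    have h2 : Continuous fun y => ∑ i ∈ s, f i y := continuous_finsetSum s h1
    simp only [Finset.sum_insert ha]
    rw [mn_add (hf a (Finset.mem_insert_self a s)) h2, ih h1]

theorem mn_const' (c : E3) (x : E3) : mn (fun _ => c) x = c := by
  have h : ∀ (i : Fin 3), Av i (fun _ => c) = fun _ => c := by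
    intro i
    funext y
    unfold Av avg
    rw [intervalIntegral.integral_const, smul_smul]
    have : (2 * Real.pi - 0) * (1 / (2 * Real.pi)) = 1 := by
      field_simp
      ring
    rw [this, one_smul]
  unfold mn
  rw [h, h, h]

theorem mn_norm_le {f : E3 → E3} {K : ℝ} (hK : ∀ x, ‖f x‖ ≤ K) (x : E3) : ‖mn f x‖ ≤ K := by
  have hAv : ∀ (g : E3 → E3) (i : Fin 3), (∀ x, ‖g x‖ ≤ K) → ∀ x, ‖Av i g x‖ ≤ K := by
    intro g i hg x
    have := norm_avg_le (w := fun _ => 1 / (2 * Real.pi)) (v := e i) (W := 1 / (2 * Real.pi))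
      (fun s _ => by rw [abs_of_pos (by positivity)]) hg x
    refine this.trans (le_of_eq ?_)
    field_simp
  exact hAv _ 0 (hAv _ 1 (hAv _ 2 hK)) x

theorem mn_shift {f : E3 → E3} (hp : Periodic3 f) (τ x : E3) :
    mn (fun y => f (y + τ)) x = mn f x := by
  have h : ∀ (i : Fin 3) (g : E3 → E3), Av i (fun y => g (y + τ)) = fun y => Av i g (y + τ) := by
    intro i g
    funext y
    unfold Av avg
    apply intervalIntegral.integral_congr
    intro s _
    simp only
    rw [add_right_comm]
  unfold mn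
  rw [h 2 f, h 1 (Av 2 f), h 0 (Av 1 (Av 2 f))]
  exact mn_const hp (x + τ) x

theorem mn_fderiv {f : E3 → E3} (hf : ContDiff ℝ 1 f) (hp : Periodic3 f) (h x : E3) :
    mn (fun y => fderiv ℝ f y h) x = 0 := by
  have key : ∀ (i : Fin 3) (g : E3 → E3), ContDiff ℝ 1 g →
      Av i (fun y => fderiv ℝ g y h) = fun y => fderiv ℝ (Av i g) y h := by
    intro i g hg
    funext y
    exact (fderiv_avg_apply continuous_const (e i) hg y h).symm
  have s1 : ContDiff ℝ 1 (Av 2 f) := contDiff_avg continuous_const _ hf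
  have s2 : ContDiff ℝ 1 (Av 1 (Av 2 f)) := contDiff_avg continuous_const _ s1
  unfold mn
  rw [key 2 f hf, key 1 _ s1, key 0 _ s2]
  have : Av 0 (Av 1 (Av 2 f)) = fun _ => mn f 0 := funext fun y => mn_const hp y 0
  rw [this]
  simp

theorem cont_const_smul (r : ℝ) {f : E3 → E3} (hf : Continuous f) :
    Continuous fun y => r • f y := Continuous.const_smul hf r

/-- Cosine coefficient. -/
noncomputable def Fc (k : Fin 3 → ℤ) (f : E3 → E3) : E3 :=
  mn (fun y => Real.cos ⟪iv k, y⟫ • f y) 0

/-- Sine coefficient. -/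
noncomputable def Fs (k : Fin 3 → ℤ) (f : E3 → E3) : E3 :=
  mn (fun y => Real.sin ⟪iv k, y⟫ • f y) 0

theorem continuous_inner' (a : E3) : Continuous fun y : E3 => ⟪a, y⟫ :=
  (innerSL ℝ a).continuous

theorem cont_cos_smul (k : Fin 3 → ℤ) {f : E3 → E3} (hf : Continuous f) :
    Continuous fun y => Real.cos ⟪iv k, y⟫ • f y :=
  (Real.continuous_cos.comp (continuous_inner' _)).smul hf

theorem cont_sin_smul (k : Fin 3 → ℤ) {f : E3 → E3} (hf : Continuous f) :
    Continuous fun y => Real.sin ⟪iv k, y⟫ • f y :=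
  (Real.continuous_sin.comp (continuous_inner' _)).smul hf

/-- All Fourier coefficients with frequencies in the box of size `K` vanish. -/
def LowZero (K : ℕ) (f : E3 → E3) : Prop :=
  ∀ k : Fin 3 → ℤ, (∀ i, |k i| ≤ (K : ℤ)) → Fc k f = 0 ∧ Fs k f = 0

theorem LowZero.add {K : ℕ} {f g : E3 → E3} (hf : Continuous f) (hg : Continuous g)
    (h1 : LowZero K f) (h2 : LowZero K g) : LowZero K (fun x => f x + g x) := by
  intro k hk
  obtain ⟨a1, a2⟩ := h1 k hk
  obtain ⟨b1, b2⟩ := h2 k hk
  unfold Fc Fs at *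
  simp only [smul_add]
  rw [mn_add (cont_cos_smul k hf) (cont_cos_smul k hg),
    mn_add (cont_sin_smul k hf) (cont_sin_smul k hg), a1, a2, b1, b2, add_zero]
  exact ⟨rfl, rfl⟩

theorem LowZero.zero (K : ℕ) : LowZero K (fun _ => 0) := by
  intro k _
  unfold Fc Fs
  simp only [smul_zero, mn_zero, and_self]

theorem LowZero.sum {ι : Type} (s : Finset ι) {K : ℕ} {f : ι → E3 → E3}
    (hf : ∀ i ∈ s, Continuous (f i)) (h : ∀ i ∈ s, LowZero K (f i)) :
    LowZero K (fun x => ∑ i ∈ s, f i x) := by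
  classical
  induction s using Finset.induction_on with
  | empty => simpa using LowZero.zero K
  | insert a s ha ih =>
    have h1 : ∀ i ∈ s, Continuous (f i) := fun i hi => hf i (Finset.mem_insert_of_mem hi)
    have h2 : Continuous fun y => ∑ i ∈ s, f i y := continuous_finsetSum s h1
    simp only [Finset.sum_insert ha]
    exact (h a (Finset.mem_insert_self a s)).add (hf a (Finset.mem_insert_self a s)) h2
      (ih h1 fun i hi => h i (Finset.mem_insert_of_mem hi))

theorem rot_zero {X Y : E3} {θ : ℝ} (h1 : X = Real.cos θ • X - Real.sin θ • Y)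
    (h2 : Y = Real.sin θ • X + Real.cos θ • Y) (hc : Real.cos θ ≠ 1) : X = 0 ∧ Y = 0 := by
  have hsc := Real.sin_sq_add_cos_sq θ
  have hne : (2 - 2 * Real.cos θ) ≠ 0 := fun h => hc (by linarith)
  have comp : ∀ x y : ℝ, x = Real.cos θ * x - Real.sin θ * y →
      y = Real.sin θ * x + Real.cos θ * y → x = 0 ∧ y = 0 := by
    intro x y hx hy
    have a1 : (2 - 2 * Real.cos θ) * x = 0 := by
      have b1 : (1 - Real.cos θ) * x = - Real.sin θ * y := by linarith
      have b2 : (1 - Real.cos θ) * y = Real.sin θ * x := by linarith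
      have : (1 - Real.cos θ) * ((1 - Real.cos θ) * x) = - Real.sin θ * (Real.sin θ * x) := by
        rw [b1, ← b2]; ring
      linear_combination this - x * hsc
    have a2 : (2 - 2 * Real.cos θ) * y = 0 := by
      have b1 : (1 - Real.cos θ) * x = - Real.sin θ * y := by linarith
      have b2 : (1 - Real.cos θ) * y = Real.sin θ * x := by linarith
      have : (1 - Real.cos θ) * ((1 - Real.cos θ) * y) = Real.sin θ * (- Real.sin θ * y) := by
        rw [b2, ← b1]; ring
      linear_combination this - y * hsc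
    exact ⟨(mul_eq_zero.mp a1).resolve_left hne, (mul_eq_zero.mp a2).resolve_left hne⟩
  have hcomp : ∀ i, X i = 0 ∧ Y i = 0 := by
    intro i
    apply comp
    · have := congrArg (fun v : E3 => v i) h1
      simpa using this
    · have := congrArg (fun v : E3 => v i) h2
      simpa using this
  constructor
  · ext i; exact (hcomp i).1
  · ext i; exact (hcomp i).2

/-- Translation trick: a field with period `(2π/N) e i` has no Fourier coefficients with
`k i` not divisible by `N`. -/
theorem shift_zero {g : E3 → E3} (hg : Continuous g) (hp : Periodic3 g) {θ0 : ℝ} (i : Fin 3)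
    (hs : ∀ x, g (x + θ0 • e i) = g x) (k : Fin 3 → ℤ) (hk : Real.cos (k i * θ0) ≠ 1) :
    Fc k g = 0 ∧ Fs k g = 0 := by
  have hin : ∀ y : E3, ⟪iv k, y + θ0 • e i⟫ = ⟪iv k, y⟫ + k i * θ0 := by
    intro y
    rw [inner_add_right, inner_smul_right, inner_iv_e]
    ring
  have hpc : Periodic3 fun y => Real.cos ⟪iv k, y⟫ • g y := by
    intro j x
    have h1 := per_comp Real.cos_periodic k j x
    simp only at h1 ⊢
    rw [h1, hp j x]
  have hps : Periodic3 fun y => Real.sin ⟪iv k, y⟫ • g y := by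
    intro j x
    have h1 := per_comp Real.sin_periodic k j x
    simp only at h1 ⊢
    rw [h1, hp j x]
  apply rot_zero (θ := k i * θ0) _ _ hk
  · unfold Fc Fs
    rw [← mn_smul, ← mn_smul, ← mn_sub]
    · nth_rewrite 1 [← mn_shift hpc (θ0 • e i) 0]
      congr 1
      funext y
      rw [hin, hs, Real.cos_add, sub_smul, mul_smul, mul_smul, smul_comm (Real.cos ⟪iv k, y⟫),
        smul_comm (Real.sin ⟪iv k, y⟫)]
    · exact cont_const_smul _ (cont_cos_smul k hg)
    · exact cont_const_smul _ (cont_sin_smul k hg)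
  · unfold Fc Fs
    rw [← mn_smul, ← mn_smul, ← mn_add]
    · nth_rewrite 1 [← mn_shift hps (θ0 • e i) 0]
      congr 1
      funext y
      rw [hin, hs, Real.sin_add, add_smul, mul_smul, mul_smul, smul_comm (Real.cos ⟪iv k, y⟫),
        smul_comm (Real.sin ⟪iv k, y⟫), add_comm]
    · exact cont_const_smul _ (cont_cos_smul k hg)
    · exact cont_const_smul _ (cont_sin_smul k hg)

theorem cos_ne_one {N : ℕ} (hN : 0 < N) {l : ℤ} (hl : l ≠ 0) (hlN : |l| < (N : ℤ)) :
    Real.cos (l * (2 * Real.pi / N)) ≠ 1 := by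
  intro h
  rw [Real.cos_eq_one_iff] at h
  obtain ⟨n, hn⟩ := h
  have hNpos : (0 : ℝ) < N := by exact_mod_cast hN
  have h1 : (n : ℝ) * N = l := by
    have hpi : (2 * Real.pi) ≠ 0 := by positivity
    field_simp at hn
    exact hn
  have h2 : n * (N : ℤ) = l := by exact_mod_cast h1
  have h3 : n ≠ 0 := by
    rintro rfl
    apply hl
    rw [← h2, zero_mul]
  have h4 : (N : ℤ) ≤ |l| := by
    rw [← h2, abs_mul, abs_of_pos (by exact_mod_cast hN : (0 : ℤ) < N)]
    have : (1 : ℤ) ≤ |n| := Int.one_le_abs h3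
    nlinarith [(by exact_mod_cast hN : (0 : ℤ) < N)]
  linarith

/-- Fields with small period and mean zero have no low modes. -/
theorem small_period {g : E3 → E3} (hg : Continuous g) (hp : Periodic3 g) {N : ℕ} (hN : 0 < N)
    (hs : ∀ i x, g (x + (2 * Real.pi / N) • e i) = g x) (hm : mn g 0 = 0) (l : Fin 3 → ℤ)
    (hl : ∀ i, |l i| < (N : ℤ)) : Fc l g = 0 ∧ Fs l g = 0 := by
  by_cases h : ∃ i, l i ≠ 0
  · obtain ⟨i, hi⟩ := h
    exact shift_zero hg hp i (hs i) l (cos_ne_one hN hi (hl i))
  · push Not at h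
    have h0 : iv l = 0 := by
      apply ext3
      · rw [iv_zero, h 0]; simp
      · rw [iv_one, h 1]; simp
      · rw [iv_two, h 2]; simp
    unfold Fc Fs
    simp only [h0, inner_zero_left, Real.cos_zero, Real.sin_zero, one_smul, zero_smul, hm,
      mn_zero, and_self]

/-- Fourier coefficients of derivatives. -/
theorem Fc_fderiv {f : E3 → E3} (hf : ContDiff ℝ 1 f) (hp : Periodic3 f) (k : Fin 3 → ℤ) (h : E3) :
    Fc k (fun y => fderiv ℝ f y h) = ⟪iv k, h⟫ • Fs k f ∧
    Fs k (fun y => fderiv ℝ f y h) = - (⟪iv k, h⟫ • Fc k f) := by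
  have hfc : Continuous (fun y => fderiv ℝ f y h) :=
    (hf.continuous_fderiv one_ne_zero).clm_apply continuous_const
  have hin : ContDiff ℝ 1 fun x : E3 => ⟪iv k, x⟫ := (innerSL ℝ (iv k)).contDiff
  have hc1 : ContDiff ℝ 1 fun y => Real.cos ⟪iv k, y⟫ • f y :=
    (Real.contDiff_cos.comp hin).smul hf
  have hs1 : ContDiff ℝ 1 fun y => Real.sin ⟪iv k, y⟫ • f y :=
    (Real.contDiff_sin.comp hin).smul hf
  have hpc : Periodic3 fun y => Real.cos ⟪iv k, y⟫ • f y := by
    intro j x
    have h1 := per_comp Real.cos_periodic k j x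
    simp only at h1 ⊢
    rw [h1, hp j x]
  have hps : Periodic3 fun y => Real.sin ⟪iv k, y⟫ • f y := by
    intro j x
    have h1 := per_comp Real.sin_periodic k j x
    simp only at h1 ⊢
    rw [h1, hp j x]
  have d1 : ∀ y, fderiv ℝ (fun y => Real.cos ⟪iv k, y⟫ • f y) y h
      = Real.cos ⟪iv k, y⟫ • fderiv ℝ f y h + (- ⟪iv k, h⟫) • (Real.sin ⟪iv k, y⟫ • f y) := by
    intro y
    have a1 := hasFDerivAt_one (a := iv k) (x := y) (Real.hasDerivAt_cos ⟪iv k, y⟫)
    have a2 := (hf.differentiable one_ne_zero y).hasFDerivAt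
    have a3 : HasFDerivAt (fun y => Real.cos ⟪iv k, y⟫ • f y) _ y := a1.smul a2
    rw [a3.fderiv]
    simp [smul_smul]
    ring_nf
  have d2 : ∀ y, fderiv ℝ (fun y => Real.sin ⟪iv k, y⟫ • f y) y h
      = Real.sin ⟪iv k, y⟫ • fderiv ℝ f y h + ⟪iv k, h⟫ • (Real.cos ⟪iv k, y⟫ • f y) := by
    intro y
    have a1 := hasFDerivAt_one (a := iv k) (x := y) (Real.hasDerivAt_sin ⟪iv k, y⟫)
    have a2 := (hf.differentiable one_ne_zero y).hasFDerivAt
    have a3 : HasFDerivAt (fun y => Real.sin ⟪iv k, y⟫ • f y) _ y := a1.smul a2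
    rw [a3.fderiv]
    simp [smul_smul]
    ring_nf
  have m1 := mn_fderiv hc1 hpc h 0
  have m2 := mn_fderiv hs1 hps h 0
  rw [show (fun y => fderiv ℝ (fun y => Real.cos ⟪iv k, y⟫ • f y) y h) = fun y =>
    Real.cos ⟪iv k, y⟫ • fderiv ℝ f y h + (- ⟪iv k, h⟫) • (Real.sin ⟪iv k, y⟫ • f y)
    from funext d1, mn_add (cont_cos_smul k hfc)
    (cont_const_smul (- ⟪iv k, h⟫) (cont_sin_smul k hf.continuous)), mn_smul] at m1
  rw [show (fun y => fderiv ℝ (fun y => Real.sin ⟪iv k, y⟫ • f y) y h) = fun y =>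
    Real.sin ⟪iv k, y⟫ • fderiv ℝ f y h + ⟪iv k, h⟫ • (Real.cos ⟪iv k, y⟫ • f y)
    from funext d2, mn_add (cont_sin_smul k hfc)
    (cont_const_smul ⟪iv k, h⟫ (cont_cos_smul k hf.continuous)), mn_smul] at m2
  unfold Fc Fs
  constructor
  · rw [neg_smul, ← sub_eq_add_neg, sub_eq_zero] at m1
    exact m1
  · exact eq_neg_of_add_eq_zero_left m2

theorem curl_eq_sum {f : E3 → E3} (x : E3) : curl f x = cr (e 0) (fderiv ℝ f x (e 0))
    + cr (e 1) (fderiv ℝ f x (e 1)) + cr (e 2) (fderiv ℝ f x (e 2)) := by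
  unfold curl
  apply ext3
  · rw [axial_zero]
    simp [cr_zero, e_apply']
    ring
  · rw [axial_one]
    simp [cr_one, e_apply']
    ring
  · rw [axial_two]
    simp [cr_two, e_apply']
    ring

theorem cr_clm (a : E3) : ∃ L : E3 →L[ℝ] E3, ∀ b, L b = cr a b :=
  ⟨LinearMap.toContinuousLinearMap
    { toFun := fun b => cr a b
      map_add' := fun b c => cr_add_right a b c
      map_smul' := fun r b => cr_smul_right r a b }, fun _ => rfl⟩

theorem Av_clm (L : E3 →L[ℝ] E3) (i : Fin 3) {f : E3 → E3} (hf : Continuous f) (x : E3) :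
    Av i (fun y => L (f y)) x = L (Av i f x) := by
  unfold Av avg
  rw [← ContinuousLinearMap.intervalIntegral_comp_comm]
  · simp only [map_smul]
  · have hline : Continuous fun s : ℝ => x + s • e i := by fun_prop
    have hc : Continuous fun s : ℝ => f (x + s • e i) := hf.comp hline
    exact (Continuous.const_smul hc (1 / (2 * Real.pi))).intervalIntegrable _ _

theorem mn_clm (L : E3 →L[ℝ] E3) {f : E3 → E3} (hf : Continuous f) (x : E3) :
    mn (fun y => L (f y)) x = L (mn f x) := by
  unfold mn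
  rw [show Av 2 (fun y => L (f y)) = fun y => L (Av 2 f y) from
      funext fun y => Av_clm L 2 hf y,
    show Av 1 (fun y => L (Av 2 f y)) = fun y => L (Av 1 (Av 2 f) y) from
      funext fun y => Av_clm L 1 (continuous_Av 2 hf) y,
    Av_clm L 0 (continuous_Av 1 (continuous_Av 2 hf))]

theorem LowZero.clm {K : ℕ} {f : E3 → E3} (hf : Continuous f) (h : LowZero K f)
    (L : E3 →L[ℝ] E3) : LowZero K (fun x => L (f x)) := by
  intro k hk
  obtain ⟨a1, a2⟩ := h k hk
  unfold Fc Fs at *
  constructor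
  · have : (fun y => Real.cos ⟪iv k, y⟫ • L (f y)) = fun y => L (Real.cos ⟪iv k, y⟫ • f y) := by
      funext y; rw [map_smul]
    rw [this, mn_clm L (cont_cos_smul k hf), a1, map_zero]
  · have : (fun y => Real.sin ⟪iv k, y⟫ • L (f y)) = fun y => L (Real.sin ⟪iv k, y⟫ • f y) := by
      funext y; rw [map_smul]
    rw [this, mn_clm L (cont_sin_smul k hf), a2, map_zero]

theorem LowZero.curl {K : ℕ} {f : E3 → E3} (hf : ContDiff ℝ 1 f) (hp : Periodic3 f)
    (h : LowZero K f) : LowZero K (fun x => curl f x) := by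
  have hd : ∀ i, LowZero K (fun y => fderiv ℝ f y (e i)) := by
    intro i k hk
    obtain ⟨a1, a2⟩ := h k hk
    obtain ⟨b1, b2⟩ := Fc_fderiv hf hp k (e i)
    rw [b1, b2, a1, a2, smul_zero, neg_zero]
    exact ⟨rfl, rfl⟩
  have hc : ∀ i, Continuous (fun y => fderiv ℝ f y (e i)) := fun i =>
    (hf.continuous_fderiv one_ne_zero).clm_apply continuous_const
  obtain ⟨L0, hL0⟩ := cr_clm (e 0)
  obtain ⟨L1, hL1⟩ := cr_clm (e 1)
  obtain ⟨L2, hL2⟩ := cr_clm (e 2)
  have : (fun x => Pool.Agent.Work.MP_b0497c_an.curl f x) = fun x => L0 (fderiv ℝ f x (e 0))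
      + L1 (fderiv ℝ f x (e 1)) + L2 (fderiv ℝ f x (e 2)) := by
    funext x
    rw [curl_eq_sum, hL0, hL1, hL2]
  rw [this]
  exact (((hd 0).clm (hc 0) L0).add (L0.continuous.comp (hc 0)) (L1.continuous.comp (hc 1))
    ((hd 1).clm (hc 1) L1)).add
    ((L0.continuous.comp (hc 0)).add (L1.continuous.comp (hc 1))) (L2.continuous.comp (hc 2))
    ((hd 2).clm (hc 2) L2)

end Pool.Agent.Work.MP_b0497c_an.Weak
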