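import Mathlib
import Pool.Agent.Work.MP_b0497c_an.Weak.Modes

set_option autoImplicit false

/-!
Trigonometric polynomials with prescribed low modes; low modes of the tube fields.
-/

namespace Pool.Agent.Work.MP_b0497c_an.Weak

open Set RealInnerProductSpace Pool.Agent.Work.MP_b0497c_an Filter Topology MeasureTheory
open scoped ContDiff

theorem iv_add (k l : Fin 3 → ℤ) : iv (k + l) = iv k + iv l := by
  apply ext3
  · simp [iv_zero]
  · simp [iv_one]
  · simp [iv_two]

theorem iv_sub (k l : Fin 3 → ℤ) : iv (k - l) = iv k - iv l := by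
  apply ext3
  · simp [iv_zero]
  · simp [iv_one]
  · simp [iv_two]

theorem iv_neg (k : Fin 3 → ℤ) : iv (-k) = - iv k := by
  apply ext3
  · simp [iv_zero]
  · simp [iv_one]
  · simp [iv_two]

section products

variable {G : E3 → E3} (hG : Continuous G) (k a : Fin 3 → ℤ)
include hG

theorem Fc_cos : Fc k (fun x => Real.cos ⟪iv a, x⟫ • G x)
    = (1 / 2 : ℝ) • (Fc (k - a) G + Fc (k + a) G) := by
  unfold Fc
  rw [← mn_add (cont_cos_smul (k - a) hG) (cont_cos_smul (k + a) hG), ← mn_smul]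
  congr 1
  funext x
  rw [iv_sub, iv_add, inner_sub_left, inner_add_left, Real.cos_sub, Real.cos_add, smul_smul,
    ← add_smul, smul_smul]
  congr 1
  ring

theorem Fs_cos : Fs k (fun x => Real.cos ⟪iv a, x⟫ • G x)
    = (1 / 2 : ℝ) • (Fs (k - a) G + Fs (k + a) G) := by
  unfold Fs
  rw [← mn_add (cont_sin_smul (k - a) hG) (cont_sin_smul (k + a) hG), ← mn_smul]
  congr 1
  funext x
  rw [iv_sub, iv_add, inner_sub_left, inner_add_left, Real.sin_sub, Real.sin_add, smul_smul,
    ← add_smul, smul_smul]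
  congr 1
  ring

theorem Fc_sin : Fc k (fun x => Real.sin ⟪iv a, x⟫ • G x)
    = (1 / 2 : ℝ) • (Fs (k + a) G - Fs (k - a) G) := by
  unfold Fc Fs
  rw [← mn_sub (cont_sin_smul (k + a) hG) (cont_sin_smul (k - a) hG), ← mn_smul]
  congr 1
  funext x
  rw [iv_sub, iv_add, inner_sub_left, inner_add_left, Real.sin_sub, Real.sin_add, smul_smul,
    ← sub_smul, smul_smul]
  congr 1
  ring

theorem Fs_sin : Fs k (fun x => Real.sin ⟪iv a, x⟫ • G x)
    = (1 / 2 : ℝ) • (Fc (k - a) G - Fc (k + a) G) := by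
  unfold Fc Fs
  rw [← mn_sub (cont_cos_smul (k - a) hG) (cont_cos_smul (k + a) hG), ← mn_smul]
  congr 1
  funext x
  rw [iv_sub, iv_add, inner_sub_left, inner_add_left, Real.cos_sub, Real.cos_add, smul_smul,
    ← sub_smul, smul_smul]
  congr 1
  ring

end products

theorem F_const (v : E3) (n : Fin 3 → ℤ) :
    Fc n (fun _ => v) = (if n = 0 then v else 0) ∧ Fs n (fun _ => v) = 0 := by
  by_cases h : n = 0
  · subst h
    have h0 : iv 0 = 0 := by
      apply ext3
      · simp [iv_zero]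
      · simp [iv_one]
      · simp [iv_two]
    unfold Fc Fs
    simp only [h0, inner_zero_left, Real.cos_zero, Real.sin_zero, one_smul, zero_smul, mn_const',
      if_true, and_self]
  · rw [if_neg h]
    obtain ⟨i, hi⟩ : ∃ i, n i ≠ 0 := by
      by_contra hcon
      push Not at hcon
      exact h (funext hcon)
    apply shift_zero continuous_const (fun _ _ => rfl) (θ0 := Real.pi / n i) i (fun _ => rfl)
    have : (n i : ℝ) ≠ 0 := by exact_mod_cast hi
    rw [show (n i : ℝ) * (Real.pi / n i) = Real.pi by field_simp, Real.cos_pi]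
    norm_num

/-- Vector valued trigonometric polynomials. -/
noncomputable def TP (S : Finset (Fin 3 → ℤ)) (a b : (Fin 3 → ℤ) → E3) (x : E3) : E3 :=
  ∑ k ∈ S, (Real.cos ⟪iv k, x⟫ • a k + Real.sin ⟪iv k, x⟫ • b k)

theorem contDiff_TP (S : Finset (Fin 3 → ℤ)) (a b : (Fin 3 → ℤ) → E3) :
    ContDiff ℝ ∞ (TP S a b) := by
  have hi : ∀ a : E3, ContDiff ℝ ∞ fun x : E3 => ⟪a, x⟫ := fun a => (innerSL ℝ a).contDiff
  unfold TP
  exact ContDiff.sum fun k _ => ((Real.contDiff_cos.comp (hi _)).smul contDiff_const).add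
    ((Real.contDiff_sin.comp (hi _)).smul contDiff_const)

theorem periodic_TP (S : Finset (Fin 3 → ℤ)) (a b : (Fin 3 → ℤ) → E3) : Periodic3 (TP S a b) := by
  intro j x
  apply Finset.sum_congr rfl
  intro k _
  have h1 := per_comp Real.cos_periodic k j x
  have h2 := per_comp Real.sin_periodic k j x
  simp only at h1 h2
  rw [h1, h2]

theorem TP_union (S T : Finset (Fin 3 → ℤ)) (a b c d : (Fin 3 → ℤ) → E3) : ∃ (a' b' : (Fin 3 → ℤ) → E3),
    ∀ x, TP (S ∪ T) a' b' x = TP S a b x + TP T c d x := by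
  classical
  refine ⟨fun k => (if k ∈ S then a k else 0) + (if k ∈ T then c k else 0),
    fun k => (if k ∈ S then b k else 0) + (if k ∈ T then d k else 0), fun x => ?_⟩
  unfold TP
  have h1 : ∑ k ∈ S, (Real.cos ⟪iv k, x⟫ • a k + Real.sin ⟪iv k, x⟫ • b k)
      = ∑ k ∈ S ∪ T, (if k ∈ S then (Real.cos ⟪iv k, x⟫ • a k + Real.sin ⟪iv k, x⟫ • b k) else 0) := by
    rw [← Finset.sum_filter]
    congr 1
    ext k
    simp only [Finset.mem_filter, Finset.mem_union]
    tauto
  have h2 : ∑ k ∈ T, (Real.cos ⟪iv k, x⟫ • c k + Real.sin ⟪iv k, x⟫ • d k)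
      = ∑ k ∈ S ∪ T, (if k ∈ T then (Real.cos ⟪iv k, x⟫ • c k + Real.sin ⟪iv k, x⟫ • d k) else 0) := by
    rw [← Finset.sum_filter]
    congr 1
    ext k
    simp only [Finset.mem_filter, Finset.mem_union]
    tauto
  rw [h1, h2, ← Finset.sum_add_distrib]
  apply Finset.sum_congr rfl
  intro k _
  by_cases hS : k ∈ S
  · by_cases hT : k ∈ T
    · simp only [if_pos hS, if_pos hT, smul_add]
      abel
    · simp only [if_pos hS, if_neg hT, add_zero]
  · by_cases hT : k ∈ T
    · simp only [if_neg hS, if_pos hT, zero_add]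
    · simp only [if_neg hS, if_neg hT, add_zero, smul_zero]

theorem tp_approx {f : E3 → E3} (hf : Continuous f) (hp : Periodic3 f) {ε : ℝ} (hε : 0 < ε) :
    ∃ (S : Finset (Fin 3 → ℤ)) (a b : (Fin 3 → ℤ) → E3), ∀ x, ‖f x - TP S a b x‖ ≤ ε := by
  classical
  have htr : ∀ i : Fin 3, ∃ (S : Finset (Fin 3 → ℤ)) (a b : (Fin 3 → ℤ) → ℝ), ∀ x : E3,
      |f x i - ∑ k ∈ S, (a k * Real.cos ⟪iv k, x⟫ + b k * Real.sin ⟪iv k, x⟫)| < ε / 3 := by
    intro i
    apply trig_approx ((EuclideanSpace.proj (𝕜 := ℝ) i).continuous.comp hf) _ (by positivity)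
    intro j x
    simp only [Function.comp, hp j x]
  choose S a b hab using htr
  have hi : ∀ i : Fin 3, ∀ x, TP (S i) (fun k => a i k • e i) (fun k => b i k • e i) x
      = (∑ k ∈ S i, (a i k * Real.cos ⟪iv k, x⟫ + b i k * Real.sin ⟪iv k, x⟫)) • e i := by
    intro i x
    unfold TP
    rw [Finset.sum_smul]
    apply Finset.sum_congr rfl
    intro k _
    rw [smul_smul, smul_smul, add_smul, mul_comm (a i k), mul_comm (b i k)]
  obtain ⟨a1, b1, h1⟩ := TP_union (S 0) (S 1) (fun k => a 0 k • e 0) (fun k => b 0 k • e 0)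
    (fun k => a 1 k • e 1) (fun k => b 1 k • e 1)
  obtain ⟨a2, b2, h2⟩ := TP_union (S 0 ∪ S 1) (S 2) a1 b1 (fun k => a 2 k • e 2)
    (fun k => b 2 k • e 2)
  refine ⟨S 0 ∪ S 1 ∪ S 2, a2, b2, fun x => ?_⟩
  rw [h2, h1, hi, hi, hi]
  set q : Fin 3 → ℝ := fun i =>
    ∑ k ∈ S i, (a i k * Real.cos ⟪iv k, x⟫ + b i k * Real.sin ⟪iv k, x⟫) with hq
  have h3 : f x - (q 0 • e 0 + q 1 • e 1 + q 2 • e 2)
      = (f x 0 - q 0) • e 0 + (f x 1 - q 1) • e 1 + (f x 2 - q 2) • e 2 := by
    nth_rewrite 1 [expand (f x)]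
    simp only [sub_smul]
    abel
  change ‖f x - (q 0 • e 0 + q 1 • e 1 + q 2 • e 2)‖ ≤ ε
  rw [h3]
  refine norm_add₃_le.trans ?_
  rw [norm_smul, norm_smul, norm_smul, norm_e, norm_e, norm_e, Real.norm_eq_abs,
    Real.norm_eq_abs, Real.norm_eq_abs]
  linarith [hab 0 x, hab 1 x, hab 2 x]

/-- The box of low modes. -/
noncomputable def box (K : ℕ) : Finset (Fin 3 → ℤ) := Fintype.piFinset fun _ => Finset.Icc (-(K : ℤ)) K

theorem mem_box {K : ℕ} {k : Fin 3 → ℤ} : k ∈ box K ↔ ∀ i, |k i| ≤ (K : ℤ) := by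
  unfold box
  rw [Fintype.mem_piFinset]
  simp only [Finset.mem_Icc, abs_le]

theorem Fc_neg_freq (k : Fin 3 → ℤ) (f : E3 → E3) : Fc (-k) f = Fc k f := by
  unfold Fc
  simp only [iv_neg, inner_neg_left, Real.cos_neg]

theorem Fs_neg_freq (k : Fin 3 → ℤ) (f : E3 → E3) : Fs (-k) f = - Fs k f := by
  unfold Fs
  simp only [iv_neg, inner_neg_left, Real.sin_neg, neg_smul]
  exact mn_neg _ _

theorem Fc_add {f g : E3 → E3} (hf : Continuous f) (hg : Continuous g) (k : Fin 3 → ℤ) :
    Fc k (fun x => f x + g x) = Fc k f + Fc k g := by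
  unfold Fc
  simp only [smul_add]
  exact mn_add (cont_cos_smul k hf) (cont_cos_smul k hg) 0

theorem Fs_add {f g : E3 → E3} (hf : Continuous f) (hg : Continuous g) (k : Fin 3 → ℤ) :
    Fs k (fun x => f x + g x) = Fs k f + Fs k g := by
  unfold Fs
  simp only [smul_add]
  exact mn_add (cont_sin_smul k hf) (cont_sin_smul k hg) 0

theorem Fc_sub {f g : E3 → E3} (hf : Continuous f) (hg : Continuous g) (k : Fin 3 → ℤ) :
    Fc k (fun x => f x - g x) = Fc k f - Fc k g := by
  unfold Fc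
  simp only [smul_sub]
  exact mn_sub (cont_cos_smul k hf) (cont_cos_smul k hg) 0

theorem Fs_sub {f g : E3 → E3} (hf : Continuous f) (hg : Continuous g) (k : Fin 3 → ℤ) :
    Fs k (fun x => f x - g x) = Fs k f - Fs k g := by
  unfold Fs
  simp only [smul_sub]
  exact mn_sub (cont_sin_smul k hf) (cont_sin_smul k hg) 0

theorem Fc_sum {ι : Type} (s : Finset ι) {f : ι → E3 → E3} (hf : ∀ i ∈ s, Continuous (f i))
    (k : Fin 3 → ℤ) : Fc k (fun x => ∑ i ∈ s, f i x) = ∑ i ∈ s, Fc k (f i) := by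
  unfold Fc
  simp only [Finset.smul_sum]
  exact mn_sum s (fun i hi => cont_cos_smul k (hf i hi)) 0

theorem Fs_sum {ι : Type} (s : Finset ι) {f : ι → E3 → E3} (hf : ∀ i ∈ s, Continuous (f i))
    (k : Fin 3 → ℤ) : Fs k (fun x => ∑ i ∈ s, f i x) = ∑ i ∈ s, Fs k (f i) := by
  unfold Fs
  simp only [Finset.smul_sum]
  exact mn_sum s (fun i hi => cont_sin_smul k (hf i hi)) 0

theorem sum_half (K : ℕ) (l : Fin 3 → ℤ) (hl : l ∈ box K) (v : (Fin 3 → ℤ) → E3) (σ : ℝ) :
    ∑ k ∈ box K, (1 / 2 : ℝ) • ((if l - k = 0 then v k else 0) + σ • (if l + k = 0 then v k else 0))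
      = (1 / 2 : ℝ) • (v l + σ • v (-l)) := by
  rw [← Finset.smul_sum, Finset.sum_add_distrib, ← Finset.smul_sum]
  have hl' : -l ∈ box K := by
    rw [mem_box] at hl ⊢
    intro i
    rw [Pi.neg_apply, abs_neg]
    exact hl i
  have h1 : ∑ k ∈ box K, (if l - k = 0 then v k else 0) = v l := by
    rw [Finset.sum_eq_single l]
    · simp
    · intro k _ hk
      rw [if_neg]
      intro h
      exact hk (sub_eq_zero.mp h).symm
    · intro h
      exact absurd hl h
  have h2 : ∑ k ∈ box K, (if l + k = 0 then v k else 0) = v (-l) := by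
    rw [Finset.sum_eq_single (-l)]
    · simp
    · intro k _ hk
      rw [if_neg]
      intro h
      exact hk (eq_neg_of_add_eq_zero_right h)
    · intro h
      exact absurd hl' h
  rw [h1, h2]

/-- The partial sum of the Fourier series has the right low modes. -/
theorem partial_sum {f : E3 → E3} (K : ℕ) (l : Fin 3 → ℤ) (hl : l ∈ box K) :
    Fc l (TP (box K) (fun k => Fc k f) (fun k => Fs k f)) = Fc l f ∧
    Fs l (TP (box K) (fun k => Fc k f) (fun k => Fs k f)) = Fs l f := by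
  have hterm : ∀ k : Fin 3 → ℤ, Continuous fun x : E3 =>
      Real.cos ⟪iv k, x⟫ • Fc k f + Real.sin ⟪iv k, x⟫ • Fs k f := fun k =>
    (cont_cos_smul k continuous_const).add (cont_sin_smul k continuous_const)
  have hc : ∀ k v, Continuous fun x : E3 => Real.cos ⟪iv k, x⟫ • (v : E3) := fun k v =>
    cont_cos_smul k continuous_const
  have hs : ∀ k v, Continuous fun x : E3 => Real.sin ⟪iv k, x⟫ • (v : E3) := fun k v =>
    cont_sin_smul k continuous_const
  have t1 : ∀ k, Fc l (fun x => Real.cos ⟪iv k, x⟫ • Fc k f + Real.sin ⟪iv k, x⟫ • Fs k f)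
      = (1 / 2 : ℝ) • ((if l - k = 0 then Fc k f else 0)
        + (1 : ℝ) • (if l + k = 0 then Fc k f else 0)) := by
    intro k
    rw [Fc_add (hc k _) (hs k _), Fc_cos continuous_const l k, Fc_sin continuous_const l k,
      (F_const _ _).1, (F_const _ _).1, (F_const _ _).2, (F_const _ _).2, sub_zero, smul_zero,
      add_zero, one_smul]
  have t2 : ∀ k, Fs l (fun x => Real.cos ⟪iv k, x⟫ • Fc k f + Real.sin ⟪iv k, x⟫ • Fs k f)
      = (1 / 2 : ℝ) • ((if l - k = 0 then Fs k f else 0)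
        + (-1 : ℝ) • (if l + k = 0 then Fs k f else 0)) := by
    intro k
    rw [Fs_add (hc k _) (hs k _), Fs_cos continuous_const l k, Fs_sin continuous_const l k,
      (F_const _ _).1, (F_const _ _).1, (F_const _ _).2, (F_const _ _).2, add_zero, smul_zero,
      zero_add, neg_one_smul, sub_eq_add_neg]
  constructor
  · have h := Fc_sum (box K) (fun k _ => hterm k) l
    refine h.trans ?_
    simp only [t1]
    rw [sum_half K l hl (fun k => Fc k f) 1, Fc_neg_freq, one_smul, ← two_smul ℝ, smul_smul]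
    norm_num
  · have h := Fs_sum (box K) (fun k _ => hterm k) l
    refine h.trans ?_
    simp only [t2]
    rw [sum_half K l hl (fun k => Fs k f) (-1), Fs_neg_freq, neg_one_smul, neg_neg,
      ← two_smul ℝ, smul_smul]
    norm_num

theorem norm_Fc_le {f : E3 → E3} {ε : ℝ} (h : ∀ x, ‖f x‖ ≤ ε) (k : Fin 3 → ℤ) : ‖Fc k f‖ ≤ ε := by
  unfold Fc
  apply mn_norm_le
  intro x
  rw [norm_smul, Real.norm_eq_abs]
  have h1 := Real.abs_cos_le_one ⟪iv k, x⟫
  calc |Real.cos ⟪iv k, x⟫| * ‖f x‖ ≤ 1 * ‖f x‖ := by gcongr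
    _ ≤ ε := by rw [one_mul]; exact h x

theorem norm_Fs_le {f : E3 → E3} {ε : ℝ} (h : ∀ x, ‖f x‖ ≤ ε) (k : Fin 3 → ℤ) : ‖Fs k f‖ ≤ ε := by
  unfold Fs
  apply mn_norm_le
  intro x
  rw [norm_smul, Real.norm_eq_abs]
  have h1 := Real.abs_sin_le_one ⟪iv k, x⟫
  calc |Real.sin ⟪iv k, x⟫| * ‖f x‖ ≤ 1 * ‖f x‖ := by gcongr
    _ ≤ ε := by rw [one_mul]; exact h x

/-- Uniform approximation by a trigonometric polynomial with the same low modes. -/
theorem tp_exact {f : E3 → E3} (hf : Continuous f) (hp : Periodic3 f) (K : ℕ) {ε : ℝ}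
    (hε : 0 < ε) : ∃ (S : Finset (Fin 3 → ℤ)) (a b : (Fin 3 → ℤ) → E3),
      (∀ x, ‖TP S a b x - f x‖ ≤ ε) ∧ LowZero K (fun x => TP S a b x - f x) := by
  classical
  set n : ℝ := ((box K).card : ℝ) with hn
  have hn0 : 0 ≤ n := by positivity
  set ε1 : ℝ := ε / (1 + 2 * n) with hε1
  have hε10 : 0 < ε1 := by positivity
  obtain ⟨S0, a0, b0, h0⟩ := tp_approx hf hp hε10
  set g : E3 → E3 := fun x => f x - TP S0 a0 b0 x with hg
  have hgc : Continuous g := hf.sub (contDiff_TP S0 a0 b0).continuous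
  obtain ⟨a', b', h1⟩ := TP_union S0 (box K) a0 b0 (fun k => Fc k g) (fun k => Fs k g)
  have hbc : Continuous (TP (box K) (fun k => Fc k g) (fun k => Fs k g)) :=
    (contDiff_TP _ _ _).continuous
  refine ⟨S0 ∪ box K, a', b', ?_, ?_⟩
  · intro x
    rw [h1]
    have h2 : ‖TP (box K) (fun k => Fc k g) (fun k => Fs k g) x‖ ≤ 2 * n * ε1 := by
      unfold TP
      refine (norm_sum_le _ _).trans ?_
      calc ∑ k ∈ box K, ‖Real.cos ⟪iv k, x⟫ • Fc k g + Real.sin ⟪iv k, x⟫ • Fs k g‖
          ≤ ∑ k ∈ box K, (2 * ε1) := by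
            apply Finset.sum_le_sum
            intro k _
            refine (norm_add_le _ _).trans ?_
            rw [norm_smul, norm_smul, Real.norm_eq_abs, Real.norm_eq_abs]
            have c1 := Real.abs_cos_le_one ⟪iv k, x⟫
            have c2 := Real.abs_sin_le_one ⟪iv k, x⟫
            have d1 := norm_Fc_le h0 k
            have d2 := norm_Fs_le h0 k
            have e1 : |Real.cos ⟪iv k, x⟫| * ‖Fc k g‖ ≤ 1 * ε1 :=
              mul_le_mul c1 d1 (norm_nonneg _) zero_le_one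
            have e2 : |Real.sin ⟪iv k, x⟫| * ‖Fs k g‖ ≤ 1 * ε1 :=
              mul_le_mul c2 d2 (norm_nonneg _) zero_le_one
            linarith
        _ = 2 * n * ε1 := by
            rw [Finset.sum_const, nsmul_eq_mul]
            ring
    have h3 : TP S0 a0 b0 x + TP (box K) (fun k => Fc k g) (fun k => Fs k g) x - f x
        = TP (box K) (fun k => Fc k g) (fun k => Fs k g) x - (f x - TP S0 a0 b0 x) := by abel
    rw [h3]
    refine (norm_sub_le _ _).trans ?_
    have h4 := h0 x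
    have h5 : ε1 * (1 + 2 * n) = ε := by
      rw [hε1]
      field_simp
    linarith
  · have h3 : (fun x => TP (S0 ∪ box K) a' b' x - f x)
        = fun x => TP (box K) (fun k => Fc k g) (fun k => Fs k g) x - g x := by
      funext x
      rw [h1]
      simp only [hg]
      abel
    rw [h3]
    intro l hl
    obtain ⟨p1, p2⟩ := partial_sum (f := g) K l (mem_box.mpr hl)
    rw [Fc_sub hbc hgc, Fs_sub hbc hgc, p1, p2, sub_self, sub_self]
    exact ⟨rfl, rfl⟩

/-! ### Low modes of the tubes -/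

theorem mn_curl {f : E3 → E3} (hf : ContDiff ℝ 1 f) (hp : Periodic3 f) (x : E3) :
    mn (fun y => curl f y) x = 0 := by
  have hc : ∀ i, Continuous (fun y => fderiv ℝ f y (e i)) := fun i =>
    (hf.continuous_fderiv one_ne_zero).clm_apply continuous_const
  obtain ⟨L0, hL0⟩ := cr_clm (e 0)
  obtain ⟨L1, hL1⟩ := cr_clm (e 1)
  obtain ⟨L2, hL2⟩ := cr_clm (e 2)
  have : (fun x => curl f x) = fun x => L0 (fderiv ℝ f x (e 0))
      + L1 (fderiv ℝ f x (e 1)) + L2 (fderiv ℝ f x (e 2)) := by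
    funext x
    rw [curl_eq_sum, hL0, hL1, hL2]
  have q0 : Continuous fun y => L0 (fderiv ℝ f y (e 0)) := L0.continuous.comp (hc 0)
  have q1 : Continuous fun y => L1 (fderiv ℝ f y (e 1)) := L1.continuous.comp (hc 1)
  have q2 : Continuous fun y => L2 (fderiv ℝ f y (e 2)) := L2.continuous.comp (hc 2)
  have q3 : Continuous fun y => L0 (fderiv ℝ f y (e 0)) + L1 (fderiv ℝ f y (e 1)) := q0.add q1
  rw [this, mn_add q3 q2, mn_add q0 q1,
    mn_clm L0 (hc 0), mn_clm L1 (hc 1), mn_clm L2 (hc 2), mn_fderiv hf hp, mn_fderiv hf hp,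
    mn_fderiv hf hp]
  simp

/-- The tube field and the shear mode have the same low modes. -/
theorem Mode.low (M : Mode) {p q : ℝ → ℝ} (hp : ContDiff ℝ ∞ p) (hq : ContDiff ℝ ∞ q)
    (hpp : Function.Periodic p (2 * Real.pi)) (hqp : Function.Periodic q (2 * Real.pi))
    (hpm : ∫ s in (0 : ℝ)..(2 * Real.pi), p s = 2 * Real.pi)
    (hqm : ∫ s in (0 : ℝ)..(2 * Real.pi), q s = 2 * Real.pi) (K N : ℕ) (hN2 : 2 ≤ N)
    (hN : ∀ i, (K : ℤ) + |M.a i| < N) :
    LowZero K (fun x => M.amp p q N x • M.dir - M.field x) := by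
  have hNpos : (0 : ℝ) < N := by
    have : 0 < N := by omega
    exact_mod_cast this
  set G : E3 → E3 := fun x => (p (N * ⟪iv M.a, x⟫) * q (N * ⟪iv M.b, x⟫) - 1) • M.dir with hG
  have hi : ∀ a : E3, Continuous fun x : E3 => ⟪a, x⟫ := fun a => (innerSL ℝ a).continuous
  have hGc : Continuous G := by
    refine Continuous.smul (((hp.continuous.comp (continuous_const.mul (hi _))).mul
      (hq.continuous.comp (continuous_const.mul (hi _)))).sub continuous_const) continuous_const
  have hGp : Periodic3 G := by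
    intro i x
    have h1 := per_comp (per_nat hpp N) M.a i x
    have h2 := per_comp (per_nat hqp N) M.b i x
    simp only at h1 h2
    simp only [hG, h1, h2]
  have hGs : ∀ i x, G (x + (2 * Real.pi / N) • e i) = G x := by
    intro i x
    have key : ∀ (P : ℝ → ℝ) (hP : Function.Periodic P (2 * Real.pi)) (a : Fin 3 → ℤ),
        P (N * ⟪iv a, x + (2 * Real.pi / N) • e i⟫) = P (N * ⟪iv a, x⟫) := by
      intro P hP a
      rw [inner_add_right, inner_smul_right, inner_iv_e]
      have := hP.int_mul (a i) (N * ⟪iv a, x⟫)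
      rw [← this]
      congr 1
      field_simp
    simp only [hG]
    rw [key p hpp, key q hqp]
  have hGm : mn G 0 = 0 := by
    let M1 : Mode := ⟨M.a, M.b, 1, 0, 0⟩
    obtain ⟨K1, -, hK1⟩ := M1.approx hp hq hpp hqp hpm hqm
    obtain ⟨Y, hYs, hYp, -, hY⟩ := hK1 N hN2
    have h1 : G = fun x => curl Y x := by
      funext x
      have h2 := hY x
      have h3 : M1.dir = M.dir := rfl
      have h4 : M1.field x = M.dir := by
        unfold Mode.field Mode.F
        rw [h3]
        simp [M1]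
      have h5 : M1.amp p q N x = p (N * ⟪iv M.a, x⟫) * q (N * ⟪iv M.b, x⟫) := by
        unfold Mode.amp Mode.F
        simp [M1]
      rw [h3, h4, h5] at h2
      simp only [hG]
      rw [sub_smul, one_smul, h2]
      abel
    rw [h1]
    exact mn_curl (hYs.of_le (by simp)) hYp 0
  have hsmall : ∀ l : Fin 3 → ℤ, (∀ i, |l i| < (N : ℤ)) → Fc l G = 0 ∧ Fs l G = 0 :=
    small_period hGc hGp (by omega) hGs hGm
  have hform : (fun x => M.amp p q N x • M.dir - M.field x) = fun x =>
      M.C • G x + (M.A • (Real.cos ⟪iv M.a, x⟫ • G x) + M.B • (Real.sin ⟪iv M.a, x⟫ • G x)) := by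
    funext x
    unfold Mode.amp Mode.field Mode.F
    simp only [hG, smul_smul, ← add_smul, ← sub_smul]
    congr 1
    ring
  have c1 : Continuous fun x => M.C • G x := cont_const_smul _ hGc
  have c2 : Continuous fun x => M.A • (Real.cos ⟪iv M.a, x⟫ • G x) :=
    cont_const_smul _ (cont_cos_smul _ hGc)
  have c3 : Continuous fun x => M.B • (Real.sin ⟪iv M.a, x⟫ • G x) :=
    cont_const_smul _ (cont_sin_smul _ hGc)
  have hsm : ∀ (r : ℝ) (f : E3 → E3), LowZero K f → LowZero K (fun x => r • f x) := by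
    intro r f h k hk
    obtain ⟨b1, b2⟩ := h k hk
    unfold Fc Fs at *
    constructor
    · rw [show (fun y => Real.cos ⟪iv k, y⟫ • r • f y) = fun y => r • (Real.cos ⟪iv k, y⟫ • f y)
        from funext fun y => smul_comm _ _ _, mn_smul, b1, smul_zero]
    · rw [show (fun y => Real.sin ⟪iv k, y⟫ • r • f y) = fun y => r • (Real.sin ⟪iv k, y⟫ • f y)
        from funext fun y => smul_comm _ _ _, mn_smul, b2, smul_zero]
  rw [hform]
  refine LowZero.add c1 (c2.add c3) (hsm _ _ ?_) (LowZero.add c2 c3 (hsm _ _ ?_) (hsm _ _ ?_))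
  · intro k hk
    apply hsmall
    intro i
    have h1 := hk i
    have h2 := hN i
    have h3 := abs_nonneg (M.a i)
    linarith
  · intro k hk
    have h4 : ∀ i, |(k - M.a) i| < (N : ℤ) := fun i => by
      have h1 := hk i
      have h2 := hN i
      rw [Pi.sub_apply]
      have := abs_sub (k i) (M.a i)
      linarith
    have h5 : ∀ i, |(k + M.a) i| < (N : ℤ) := fun i => by
      have h1 := hk i
      have h2 := hN i
      rw [Pi.add_apply]
      have := abs_add_le (k i) (M.a i)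
      linarith
    rw [Fc_cos hGc, Fs_cos hGc, (hsmall _ h4).1, (hsmall _ h5).1, (hsmall _ h4).2,
      (hsmall _ h5).2]
    simp
  · intro k hk
    have h4 : ∀ i, |(k - M.a) i| < (N : ℤ) := fun i => by
      have h1 := hk i
      have h2 := hN i
      rw [Pi.sub_apply]
      have := abs_sub (k i) (M.a i)
      linarith
    have h5 : ∀ i, |(k + M.a) i| < (N : ℤ) := fun i => by
      have h1 := hk i
      have h2 := hN i
      rw [Pi.add_apply]
      have := abs_add_le (k i) (M.a i)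
      linarith
    rw [Fc_sin hGc, Fs_sin hGc, (hsmall _ h4).1, (hsmall _ h5).1, (hsmall _ h4).2,
      (hsmall _ h5).2]
    simp

end Pool.Agent.Work.MP_b0497c_an.Weak
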