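import Mathlib
import Pool.Agent.Work.MP_b0497c_an.Weak.Block

set_option autoImplicit false

/-!
A compactly supported twisted vortex tube: exact solution with linearly growing vorticity.
-/

namespace Pool.Agent.Work.MP_b0497c_an.Weak

open Set RealInnerProductSpace Pool.Agent.Work.MP_b0497c_an Filter Topology
open scoped ContDiff

/-- Squared distance to the axis. -/
noncomputable def RR (c x : E3) : ℝ := (x 0 - c 0) ^ 2 + (x 1 - c 1) ^ 2

/-- The vortex tube. -/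
noncomputable def VL (Ω : ℝ → ℝ) (c : E3) (t : ℝ) (x : E3) : E3 :=
  !₂[- (Ω (RR c x) * (x 1 - c 1)), Ω (RR c x) * (x 0 - c 0),
    Ω (RR c x) * (Real.cos (t * Ω (RR c x)) * (x 1 - c 1)
      - Real.sin (t * Ω (RR c x)) * (x 0 - c 0))]

/-- The pressure of the vortex tube. -/
noncomputable def PL (Ω : ℝ → ℝ) (ρ : ℝ) (c : E3) (x : E3) : ℝ :=
  (1 / 2) * ∫ s in (ρ ^ 2)..(RR c x), (Ω s) ^ 2

theorem contDiff_coord (i : Fin 3) {n : WithTop ℕ∞} : ContDiff ℝ n fun x : E3 => x i :=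
  (EuclideanSpace.proj (𝕜 := ℝ) i).contDiff

theorem contDiff_RR (c : E3) {n : WithTop ℕ∞} : ContDiff ℝ n (RR c) := by
  unfold RR
  exact (((contDiff_coord 0).sub contDiff_const).pow 2).add
    (((contDiff_coord 1).sub contDiff_const).pow 2)

theorem contDiff_integral {g : ℝ → ℝ} (hg : ContDiff ℝ ∞ g) (a : ℝ) :
    ContDiff ℝ ∞ fun s => ∫ x in a..s, g x := by
  have hd : ∀ s, HasDerivAt (fun s => ∫ x in a..s, g x) (g s) s := fun s =>
    intervalIntegral.integral_hasDerivAt_right (hg.continuous.intervalIntegrable _ _)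
      hg.continuous.stronglyMeasurable.stronglyMeasurableAtFilter hg.continuous.continuousAt
  have hderiv : deriv (fun s => ∫ x in a..s, g x) = g := funext fun s => (hd s).deriv
  rw [show (∞ : WithTop ℕ∞) = ∞ + 1 from rfl, contDiff_succ_iff_deriv]
  refine ⟨fun s => (hd s).differentiableAt, ?_, ?_⟩
  · intro h
    exact absurd h (by simp)
  · rw [hderiv]
    exact hg

variable {Ω : ℝ → ℝ} {ρ : ℝ}

theorem contDiff_VL (hΩ : ContDiff ℝ ∞ Ω) (c : E3) :
    ContDiff ℝ ∞ fun z : ℝ × E3 => VL Ω c z.1 z.2 := by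
  have hR : ContDiff ℝ ∞ fun z : ℝ × E3 => Ω (RR c z.2) :=
    hΩ.comp ((contDiff_RR c).comp contDiff_snd)
  have h0 : ContDiff ℝ ∞ fun z : ℝ × E3 => z.2 0 - c 0 :=
    ((contDiff_coord 0).comp contDiff_snd).sub contDiff_const
  have h1 : ContDiff ℝ ∞ fun z : ℝ × E3 => z.2 1 - c 1 :=
    ((contDiff_coord 1).comp contDiff_snd).sub contDiff_const
  have ht : ContDiff ℝ ∞ fun z : ℝ × E3 => z.1 * Ω (RR c z.2) := contDiff_fst.mul hR
  rw [contDiff_euclidean]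
  intro i
  fin_cases i
  · exact (hR.mul h1).neg
  · exact hR.mul h0
  · exact hR.mul (((Real.contDiff_cos.comp ht).mul h1).sub ((Real.contDiff_sin.comp ht).mul h0))

theorem contDiff_PL (hΩ : ContDiff ℝ ∞ Ω) (ρ : ℝ) (c : E3) : ContDiff ℝ ∞ (PL Ω ρ c) := by
  unfold PL
  exact contDiff_const.mul ((contDiff_integral (hΩ.pow 2) (ρ ^ 2)).comp (contDiff_RR c))

/-- The line derivative of the vortex tube. -/
theorem fderiv_VL (hΩ : ContDiff ℝ ∞ Ω) (c : E3) (t : ℝ) (x h : E3) :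
    (fderiv ℝ (VL Ω c t) x h) 0 = - (deriv Ω (RR c x) *
        (2 * ((x 0 - c 0) * h 0 + (x 1 - c 1) * h 1)) * (x 1 - c 1) + Ω (RR c x) * h 1) ∧
    (fderiv ℝ (VL Ω c t) x h) 1 = deriv Ω (RR c x) *
        (2 * ((x 0 - c 0) * h 0 + (x 1 - c 1) * h 1)) * (x 0 - c 0) + Ω (RR c x) * h 0 ∧
    (fderiv ℝ (VL Ω c t) x h) 2 = deriv Ω (RR c x) *
        (2 * ((x 0 - c 0) * h 0 + (x 1 - c 1) * h 1)) *
        (Real.cos (t * Ω (RR c x)) * (x 1 - c 1) - Real.sin (t * Ω (RR c x)) * (x 0 - c 0))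
      + Ω (RR c x) * (Real.cos (t * Ω (RR c x)) * h 1 - Real.sin (t * Ω (RR c x)) * h 0
        - t * (deriv Ω (RR c x) * (2 * ((x 0 - c 0) * h 0 + (x 1 - c 1) * h 1))) *
        (Real.sin (t * Ω (RR c x)) * (x 1 - c 1) + Real.cos (t * Ω (RR c x)) * (x 0 - c 0))) := by
  have hV : ContDiff ℝ ∞ (VL Ω c t) :=
    (contDiff_VL hΩ c).comp (contDiff_const.prodMk contDiff_id)
  have hVd : HasFDerivAt (VL Ω c t) (fderiv ℝ (VL Ω c t) x) x :=
    (hV.differentiable (by simp) x).hasFDerivAt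
  have hline : HasDerivAt (fun s : ℝ => x + s • h) h 0 := by
    simpa using ((hasDerivAt_id (0 : ℝ)).smul_const h).const_add x
  have hVl : HasDerivAt (fun s : ℝ => VL Ω c t (x + s • h)) (fderiv ℝ (VL Ω c t) x h) 0 := by
    have h1 : HasFDerivAt (VL Ω c t) (fderiv ℝ (VL Ω c t) x) (x + (0 : ℝ) • h) := by
      simpa using hVd
    exact h1.comp_hasDerivAt (0 : ℝ) hline
  have hcomp : ∀ i : Fin 3, HasDerivAt (fun s : ℝ => VL Ω c t (x + s • h) i)
      ((fderiv ℝ (VL Ω c t) x h) i) 0 := by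
    intro i
    exact ((EuclideanSpace.proj (𝕜 := ℝ) i).hasFDerivAt).comp_hasDerivAt (0 : ℝ) hVl
  -- one dimensional pieces
  have hy : ∀ i : Fin 3, HasDerivAt (fun s : ℝ => (x + s • h) i - c i) (h i) 0 := by
    intro i
    have h1 : HasDerivAt (fun s : ℝ => x i + s * h i - c i) (h i) 0 := by
      simpa using (((hasDerivAt_id (0 : ℝ)).mul_const (h i)).const_add (x i)).sub_const (c i)
    exact h1
  have hR : HasDerivAt (fun s : ℝ => RR c (x + s • h))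
      (2 * ((x 0 - c 0) * h 0 + (x 1 - c 1) * h 1)) 0 := by
    have h1 := ((hy 0).pow 2).add ((hy 1).pow 2)
    refine h1.congr_deriv ?_
    simp
    ring
  have hO : HasDerivAt (fun s : ℝ => Ω (RR c (x + s • h)))
      (deriv Ω (RR c x) * (2 * ((x 0 - c 0) * h 0 + (x 1 - c 1) * h 1))) 0 := by
    have h1 : HasDerivAt Ω (deriv Ω (RR c x)) (RR c (x + (0 : ℝ) • h)) := by
      simpa using (hΩ.differentiable (by simp) (RR c x)).hasDerivAt
    exact h1.comp (0 : ℝ) hR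
  set D := 2 * ((x 0 - c 0) * h 0 + (x 1 - c 1) * h 1) with hD
  refine ⟨?_, ?_, ?_⟩
  · refine (hcomp 0).unique ?_
    have h1 : HasDerivAt (fun s : ℝ => -(Ω (RR c (x + s • h)) * ((x + s • h) 1 - c 1))) _ 0 :=
      (hO.mul (hy 1)).neg
    refine h1.congr_deriv ?_
    simp
  · refine (hcomp 1).unique ?_
    have h1 : HasDerivAt (fun s : ℝ => Ω (RR c (x + s • h)) * ((x + s • h) 0 - c 0)) _ 0 :=
      hO.mul (hy 0)
    refine h1.congr_deriv ?_
    simp
  · refine (hcomp 2).unique ?_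
    have hcos := ((hO.const_mul t).cos).mul (hy 1)
    have hsin := ((hO.const_mul t).sin).mul (hy 0)
    have h1 : HasDerivAt (fun s : ℝ => Ω (RR c (x + s • h)) *
      (Real.cos (t * Ω (RR c (x + s • h))) * ((x + s • h) 1 - c 1)
      - Real.sin (t * Ω (RR c (x + s • h))) * ((x + s • h) 0 - c 0))) _ 0 :=
      hO.mul (hcos.sub hsin)
    refine h1.congr_deriv ?_
    simp only [zero_smul, add_zero]
    ring

theorem dv_VL (hΩ : ContDiff ℝ ∞ Ω) (c : E3) (t : ℝ) (x : E3) : dv (VL Ω c t) x = 0 := by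
  rw [dv_eq, (fderiv_VL hΩ c t x (e 0)).1, (fderiv_VL hΩ c t x (e 1)).2.1,
    (fderiv_VL hΩ c t x (e 2)).2.2]
  simp [e_apply']
  ring

theorem gradient_PL (hΩ : ContDiff ℝ ∞ Ω) (ρ : ℝ) (c x : E3) :
    gradient (PL Ω ρ c) x = (Ω (RR c x)) ^ 2 • !₂[x 0 - c 0, x 1 - c 1, 0] := by
  have hR : HasFDerivAt (RR c)
      (innerSL ℝ (!₂[2 * (x 0 - c 0), 2 * (x 1 - c 1), 0] : E3)) x := by
    have h0 : HasFDerivAt (fun y : E3 => y 0 - c 0) (EuclideanSpace.proj (𝕜 := ℝ) (0 : Fin 3)) x :=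
      ((EuclideanSpace.proj (𝕜 := ℝ) (0 : Fin 3)).hasFDerivAt).sub_const _
    have h1 : HasFDerivAt (fun y : E3 => y 1 - c 1) (EuclideanSpace.proj (𝕜 := ℝ) (1 : Fin 3)) x :=
      ((EuclideanSpace.proj (𝕜 := ℝ) (1 : Fin 3)).hasFDerivAt).sub_const _
    refine ((h0.pow 2).add (h1.pow 2)).congr_fderiv ?_
    ext v
    simp [inner_eq]
  have hI : HasDerivAt (fun s => ∫ y in (ρ ^ 2)..s, (Ω y) ^ 2) ((Ω (RR c x)) ^ 2) (RR c x) :=
    intervalIntegral.integral_hasDerivAt_right ((hΩ.pow 2).continuous.intervalIntegrable _ _)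
      (hΩ.pow 2).continuous.stronglyMeasurable.stronglyMeasurableAtFilter
      (hΩ.pow 2).continuous.continuousAt
  have hP : HasFDerivAt (PL Ω ρ c)
      (innerSL ℝ ((Ω (RR c x)) ^ 2 • !₂[x 0 - c 0, x 1 - c 1, 0] : E3)) x := by
    refine ((hI.comp_hasFDerivAt x hR).const_mul (1 / 2)).congr_fderiv ?_
    ext v
    simp [inner_eq]
    ring
  have hG : HasGradientAt (PL Ω ρ c) ((Ω (RR c x)) ^ 2 • !₂[x 0 - c 0, x 1 - c 1, 0] : E3) x := by
    rw [hasGradientAt_iff_hasFDerivAt]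
    exact hP
  exact hG.gradient

theorem mom_VL (hΩ : ContDiff ℝ ∞ Ω) (ρ : ℝ) (c : E3) (t : ℝ) (x : E3) :
    deriv (fun s => VL Ω c s x) t + fderiv ℝ (VL Ω c t) x (VL Ω c t x)
      = - gradient (PL Ω ρ c) x := by
  have hV : ContDiff ℝ ∞ (fun s => VL Ω c s x) :=
    (contDiff_VL hΩ c).comp (contDiff_id.prodMk contDiff_const)
  have hVd : HasDerivAt (fun s => VL Ω c s x) (deriv (fun s => VL Ω c s x) t) t :=
    (hV.differentiable (by simp) t).hasDerivAt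
  have hcomp : ∀ i : Fin 3, HasDerivAt (fun s : ℝ => VL Ω c s x i)
      ((deriv (fun s => VL Ω c s x) t) i) t := by
    intro i
    exact ((EuclideanSpace.proj (𝕜 := ℝ) i).hasFDerivAt).comp_hasDerivAt t hVd
  have d0 : (deriv (fun s => VL Ω c s x) t) 0 = 0 := by
    refine (hcomp 0).unique ?_
    exact hasDerivAt_const _ _
  have d1 : (deriv (fun s => VL Ω c s x) t) 1 = 0 := by
    refine (hcomp 1).unique ?_
    exact hasDerivAt_const _ _
  have d2 : (deriv (fun s => VL Ω c s x) t) 2 = - (Ω (RR c x)) ^ 2 *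
      (Real.sin (t * Ω (RR c x)) * (x 1 - c 1) + Real.cos (t * Ω (RR c x)) * (x 0 - c 0)) := by
    refine (hcomp 2).unique ?_
    have ht : HasDerivAt (fun s : ℝ => s * Ω (RR c x)) (Ω (RR c x)) t := by
      simpa using (hasDerivAt_id t).mul_const (Ω (RR c x))
    have h1 := ((ht.cos.mul_const (x 1 - c 1)).sub (ht.sin.mul_const (x 0 - c 0))).const_mul
      (Ω (RR c x))
    refine HasDerivAt.congr_deriv (f := fun s : ℝ => VL Ω c s x 2) h1 ?_
    ring
  obtain ⟨f0, f1, f2⟩ := fderiv_VL hΩ c t x (VL Ω c t x)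
  have v0 : (VL Ω c t x) 0 = - (Ω (RR c x) * (x 1 - c 1)) := rfl
  have v1 : (VL Ω c t x) 1 = Ω (RR c x) * (x 0 - c 0) := rfl
  rw [gradient_PL hΩ]
  apply ext3
  · rw [PiLp.add_apply, d0, f0, v0, v1]
    simp
    ring
  · rw [PiLp.add_apply, d1, f1, v0, v1]
    simp
    ring
  · rw [PiLp.add_apply, d2, f2, v0, v1]
    simp
    ring

/-- The axial derivative seen in the vorticity. -/
theorem curl_VL_ge (hΩ : ContDiff ℝ ∞ Ω) (c : E3) (t s : ℝ) :
    2 * s ^ 2 * t * |Ω (s ^ 2) * deriv Ω (s ^ 2)| ≤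
      ‖curl (VL Ω c t) (c + s • !₂[Real.cos (t * Ω (s ^ 2)), Real.sin (t * Ω (s ^ 2)), 0])‖ := by
  set θ := t * Ω (s ^ 2) with hθ
  set n : E3 := !₂[Real.cos θ, Real.sin θ, 0] with hn
  set x : E3 := c + s • n with hx
  have x0 : x 0 - c 0 = s * Real.cos θ := by simp [hx, hn]
  have x1 : x 1 - c 1 = s * Real.sin θ := by simp [hx, hn]
  have hR : RR c x = s ^ 2 := by
    unfold RR
    rw [x0, x1]
    have := Real.sin_sq_add_cos_sq θ
    nlinarith
  have h2 := (fderiv_VL hΩ c t x n).2.2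
  have n0 : n 0 = Real.cos θ := rfl
  have n1 : n 1 = Real.sin θ := rfl
  have hsc := Real.sin_sq_add_cos_sq θ
  have h3 : (fderiv ℝ (VL Ω c t) x n) 2 = - (2 * s ^ 2 * t * (Ω (s ^ 2) * deriv Ω (s ^ 2))) := by
    rw [h2, hR, x0, x1, n0, n1, ← hθ]
    have h4 : s * Real.cos θ * Real.cos θ + s * Real.sin θ * Real.sin θ = s := by
      linear_combination s * hsc
    rw [h4]
    have h5 : Real.sin θ * (s * Real.sin θ) + Real.cos θ * (s * Real.cos θ) = s := by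
      linear_combination s * hsc
    rw [h5]
    ring
  have h4 : (fderiv ℝ (VL Ω c t) x n) 2 = ⟪curl (VL Ω c t) x, !₂[n 1, - n 0, 0]⟫ := by
    rw [apply_expand (fderiv ℝ (VL Ω c t) x) n 2, inner_eq]
    have c0 : curl (VL Ω c t) x 0 = (fderiv ℝ (VL Ω c t) x (e 1)) 2
      - (fderiv ℝ (VL Ω c t) x (e 2)) 1 := rfl
    have c1 : curl (VL Ω c t) x 1 = (fderiv ℝ (VL Ω c t) x (e 2)) 0
      - (fderiv ℝ (VL Ω c t) x (e 0)) 2 := rfl
    rw [c0, c1, (fderiv_VL hΩ c t x (e 2)).1, (fderiv_VL hΩ c t x (e 2)).2.1]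
    simp [e_apply', hn]
    ring
  have h5 := abs_real_inner_le_norm (curl (VL Ω c t) x) (!₂[n 1, - n 0, 0] : E3)
  have h6 : ‖(!₂[n 1, - n 0, 0] : E3)‖ = 1 := by
    have : ‖(!₂[n 1, - n 0, 0] : E3)‖ ^ 2 = 1 := by
      rw [norm_sq_eq]
      simp [hn]
    nlinarith [norm_nonneg (!₂[n 1, - n 0, 0] : E3)]
  rw [h6, mul_one, ← h4, h3, abs_neg] at h5
  refine le_trans ?_ h5
  rw [abs_mul (2 * s ^ 2 * t)]
  gcongr
  exact le_abs_self _

end Pool.Agent.Work.MP_b0497c_an.Weak
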