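import Mathlib
import Pool.Agent.Work.MP_b0497c_an.Weak.Vortex

set_option autoImplicit false

/-!
Periodisation of fields supported in a tube around a vertical axis.
-/

namespace Pool.Agent.Work.MP_b0497c_an.Weak

open Set RealInnerProductSpace Pool.Agent.Work.MP_b0497c_an Filter Topology
open scoped ContDiff

/-- A horizontal lattice vector. -/
noncomputable def kv (n0 n1 : ℤ) : E3 := !₂[2 * Real.pi * n0, 2 * Real.pi * n1, 0]

/-- The lattice vector closest to `x - c`. -/
noncomputable def rd (c x : E3) : E3 :=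
  kv (round ((x 0 - c 0) / (2 * Real.pi))) (round ((x 1 - c 1) / (2 * Real.pi)))

/-- `g` vanishes outside of the tube of radius `ρ` (in the maximum norm) around `c`. -/
def Vanish {Z : Type} [Zero Z] (ρ : ℝ) (c : E3) (g : E3 → Z) : Prop :=
  ∀ x : E3, (ρ ≤ |x 0 - c 0| ∨ ρ ≤ |x 1 - c 1|) → g x = 0

theorem abs_red_le (y : ℝ) : |y - 2 * Real.pi * round (y / (2 * Real.pi))| ≤ Real.pi := by
  have h1 : |y / (2 * Real.pi) - round (y / (2 * Real.pi))| ≤ 1 / 2 := abs_sub_round _
  have h3 : y - 2 * Real.pi * round (y / (2 * Real.pi))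
      = (2 * Real.pi) * (y / (2 * Real.pi) - round (y / (2 * Real.pi))) := by
    field_simp
  rw [h3, abs_mul, abs_of_pos (by positivity : 0 < 2 * Real.pi)]
  calc 2 * Real.pi * |y / (2 * Real.pi) - round (y / (2 * Real.pi))|
      ≤ 2 * Real.pi * (1 / 2) := by gcongr
    _ = Real.pi := by ring

theorem red_cases {ρ y : ℝ} (hρ : ρ < Real.pi) {n : ℤ}
    (h : |y - 2 * Real.pi * n| < 2 * Real.pi - ρ)
    (hne : round (y / (2 * Real.pi)) ≠ n) :
    ρ ≤ |y - 2 * Real.pi * round (y / (2 * Real.pi))| ∧ ρ ≤ |y - 2 * Real.pi * n| := by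
  set m := round (y / (2 * Real.pi)) with hm
  have h1 := abs_red_le y
  rw [← hm] at h1
  have h2 : (1 : ℝ) ≤ |((m - n : ℤ) : ℝ)| := by
    have : (1 : ℤ) ≤ |m - n| := Int.one_le_abs (sub_ne_zero.mpr hne)
    exact_mod_cast this
  have h3 : 2 * Real.pi ≤ |y - 2 * Real.pi * n| + |y - 2 * Real.pi * m| := by
    calc 2 * Real.pi = 2 * Real.pi * 1 := by ring
      _ ≤ 2 * Real.pi * |((m - n : ℤ) : ℝ)| := by gcongr
      _ = |(y - 2 * Real.pi * n) - (y - 2 * Real.pi * m)| := by
          rw [show (y - 2 * Real.pi * n) - (y - 2 * Real.pi * m)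
            = (2 * Real.pi) * ((m - n : ℤ) : ℝ) by push_cast; ring, abs_mul,
            abs_of_pos (by positivity : 0 < 2 * Real.pi)]
      _ ≤ _ := abs_sub _ _
  constructor <;> linarith

section

variable {Z : Type} [Zero Z] {ρ : ℝ} {c : E3} {g : E3 → Z}

theorem per_eq (hg : Vanish ρ c g) (hρ : ρ < Real.pi) (x : E3) (n0 n1 : ℤ)
    (h0 : |x 0 - c 0 - 2 * Real.pi * n0| < 2 * Real.pi - ρ)
    (h1 : |x 1 - c 1 - 2 * Real.pi * n1| < 2 * Real.pi - ρ) :
    g (x - rd c x) = g (x - kv n0 n1) := by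
  by_cases e0 : round ((x 0 - c 0) / (2 * Real.pi)) = n0
  · by_cases e1 : round ((x 1 - c 1) / (2 * Real.pi)) = n1
    · unfold rd
      rw [e0, e1]
    · obtain ⟨a1, a2⟩ := red_cases hρ h1 e1
      rw [hg _ (Or.inr ?_), hg _ (Or.inr ?_)]
      · simp only [kv, PiLp.sub_apply]
        refine a2.trans (le_of_eq ?_)
        congr 1
        simp
        ring
      · simp only [rd, kv, PiLp.sub_apply]
        refine a1.trans (le_of_eq ?_)
        congr 1
        simp
        ring
  · obtain ⟨a1, a2⟩ := red_cases hρ h0 e0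
    rw [hg _ (Or.inl ?_), hg _ (Or.inl ?_)]
    · simp only [kv, PiLp.sub_apply]
      refine a2.trans (le_of_eq ?_)
      congr 1
      simp
      ring
    · simp only [rd, kv, PiLp.sub_apply]
      refine a1.trans (le_of_eq ?_)
      congr 1
      simp
      ring

theorem per_eventually (hg : Vanish ρ c g) (hρ : ρ < Real.pi) (x : E3) (n0 n1 : ℤ)
    (h0 : |x 0 - c 0 - 2 * Real.pi * n0| < 2 * Real.pi - ρ)
    (h1 : |x 1 - c 1 - 2 * Real.pi * n1| < 2 * Real.pi - ρ) :
    ∀ᶠ y in 𝓝 x, g (y - rd c y) = g (y - kv n0 n1) := by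
  have c0 : Continuous fun y : E3 => |y 0 - c 0 - 2 * Real.pi * n0| := by fun_prop
  have c1 : Continuous fun y : E3 => |y 1 - c 1 - 2 * Real.pi * n1| := by fun_prop
  filter_upwards [c0.continuousAt.eventually_lt (continuousAt_const (y := 2 * Real.pi - ρ)) h0,
    c1.continuousAt.eventually_lt (continuousAt_const (y := 2 * Real.pi - ρ)) h1] with y hy0 hy1
  exact per_eq hg hρ y n0 n1 hy0 hy1

theorem per_self (hg : Vanish ρ c g) (hρ : ρ < Real.pi) (x : E3) :
    ∀ᶠ y in 𝓝 x, g (y - rd c y) = g (y - rd c x) := by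
  refine per_eventually hg hρ x _ _ ?_ ?_
  · have := abs_red_le (x 0 - c 0)
    linarith
  · have := abs_red_le (x 1 - c 1)
    linarith

/-- Periodicity of the periodisation. -/
theorem per_periodic (hz : ∀ x : E3, ∀ τ : ℝ, g (x + τ • e 2) = g x) :
    Periodic3 fun x => g (x - rd c x) := by
  have hpi : (2 * Real.pi) ≠ 0 := by positivity
  intro i x
  simp only
  fin_cases i
  · have h1 : (x + (2 * Real.pi) • e 0) - rd c (x + (2 * Real.pi) • e 0) = x - rd c x := by
      have h2 : (x 0 + 2 * Real.pi - c 0) / (2 * Real.pi) = (x 0 - c 0) / (2 * Real.pi) + 1 := by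
        field_simp
        ring
      unfold rd
      simp only [PiLp.add_apply, PiLp.smul_apply, smul_eq_mul, e_apply']
      simp only [if_true, mul_one, if_neg (show ¬ ((1 : Fin 3) = 0) by decide), mul_zero, add_zero]
      rw [h2, round_add_one]
      ext j
      fin_cases j
      · simp [kv, e_apply']
        ring
      · simp [kv, e_apply']
      · simp [kv, e_apply']
    exact congrArg g h1
  · have h1 : (x + (2 * Real.pi) • e 1) - rd c (x + (2 * Real.pi) • e 1) = x - rd c x := by
      have h2 : (x 1 + 2 * Real.pi - c 1) / (2 * Real.pi) = (x 1 - c 1) / (2 * Real.pi) + 1 := by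
        field_simp
        ring
      unfold rd
      simp only [PiLp.add_apply, PiLp.smul_apply, smul_eq_mul, e_apply']
      simp only [if_true, mul_one, if_neg (show ¬ ((0 : Fin 3) = 1) by decide), mul_zero, add_zero]
      rw [h2, round_add_one]
      ext j
      fin_cases j
      · simp [kv, e_apply']
      · simp [kv, e_apply']
        ring
      · simp [kv, e_apply']
    exact congrArg g h1
  · have h1 : rd c (x + (2 * Real.pi) • e 2) = rd c x := by
      unfold rd
      simp only [PiLp.add_apply, PiLp.smul_apply, smul_eq_mul, e_apply']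
      simp only [if_neg (show ¬ ((0 : Fin 3) = 2) by decide),
        if_neg (show ¬ ((1 : Fin 3) = 2) by decide), mul_zero, add_zero]
    change g (x + (2 * Real.pi) • e 2 - rd c (x + (2 * Real.pi) • e 2)) = _
    rw [h1, show x + (2 * Real.pi) • e 2 - rd c x = (x - rd c x) + (2 * Real.pi) • e 2 by abel, hz]

end

end Pool.Agent.Work.MP_b0497c_an.Weak
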