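import Mathlib
import Pool.Agent.Work.MP_b0497c_an.Weak.Periodize

set_option autoImplicit false

/-!
Global smooth solutions, superposition of solutions with disjoint supports.
-/

namespace Pool.Agent.Work.MP_b0497c_an.Weak

open Set RealInnerProductSpace Pool.Agent.Work.MP_b0497c_an Filter Topology
open scoped ContDiff

/-- Global smooth periodic solutions of the Euler equations, on the whole time axis. -/
structure GSol (u : ℝ → E3 → E3) (p : ℝ → E3 → ℝ) : Prop where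
  smooth_u : ContDiff ℝ ∞ fun z : ℝ × E3 => u z.1 z.2
  smooth_p : ContDiff ℝ ∞ fun z : ℝ × E3 => p z.1 z.2
  per_u : ∀ t, Periodic3 (u t)
  per_p : ∀ t, Periodic3 (p t)
  mom : ∀ t x, deriv (fun s => u s x) t + fderiv ℝ (u t) x (u t x) = - gradient (p t) x
  div : ∀ t x, dv (u t) x = 0

namespace GSol

variable {u : ℝ → E3 → E3} {p : ℝ → E3 → ℝ}

theorem smooth_x (h : GSol u p) (t : ℝ) : ContDiff ℝ ∞ (u t) :=
  h.smooth_u.comp (contDiff_const.prodMk contDiff_id)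

theorem smooth_t (h : GSol u p) (x : E3) : ContDiff ℝ ∞ (fun s => u s x) :=
  h.smooth_u.comp (contDiff_id.prodMk contDiff_const)

theorem isClassical (h : GSol u p) (T : ℝ) : IsClassicalSolution T u p where
  periodic_u t _ := h.per_u t
  periodic_p t _ := h.per_p t
  contDiff_u := (h.smooth_u.of_le (by simp)).contDiffOn
  contDiff_p := (h.smooth_p.of_le (by simp)).contDiffOn
  momentum t ht x := by
    have h1 : derivWithin (fun s => u s x) (Ico 0 T) t = deriv (fun s => u s x) t := by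
      apply DifferentiableAt.derivWithin ((h.smooth_t x).differentiable (by simp) t)
      exact uniqueDiffOn_Ico 0 T t ht
    rw [h1]
    exact h.mom t x
  div_free t _ x := h.div t x

/-- Superposition with a steady pressureless flow of disjoint support. -/
theorem add_steady (h : GSol u p) {v : E3 → E3} (hv : ContDiff ℝ ∞ v) (hvp : Periodic3 v)
    (hvd : ∀ x, dv v x = 0) (hvs : ∀ x, fderiv ℝ v x (v x) = 0)
    (hdis : ∀ t x, v x ≠ 0 → u t x = 0) : GSol (fun t x => v x + u t x) p where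
  smooth_u := (hv.comp contDiff_snd).add h.smooth_u
  smooth_p := h.smooth_p
  per_u t := by
    intro i x
    simp only [hvp i x, h.per_u t i x]
  per_p := h.per_p
  mom t x := by
    have hd1 : deriv (fun s => v x + u s x) t = deriv (fun s => u s x) t := deriv_const_add _
    have hvx : DifferentiableAt ℝ v x := hv.differentiable (by simp) x
    have hux : DifferentiableAt ℝ (u t) x := (h.smooth_x t).differentiable (by simp) x
    have hd2 : fderiv ℝ (fun y => v y + u t y) x = fderiv ℝ v x + fderiv ℝ (u t) x :=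
      fderiv_fun_add hvx hux
    have z1 : fderiv ℝ (u t) x (v x) = 0 := by
      by_cases hx : v x = 0
      · rw [hx, map_zero]
      · have : u t =ᶠ[𝓝 x] fun _ => 0 := by
          filter_upwards [hv.continuous.continuousAt.eventually_ne hx] with y hy
          exact hdis t y hy
        rw [this.fderiv_eq]
        simp
    have z2 : fderiv ℝ v x (u t x) = 0 := by
      by_cases hx : u t x = 0
      · rw [hx, map_zero]
      · have : v =ᶠ[𝓝 x] fun _ => 0 := by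
          filter_upwards [(h.smooth_x t).continuous.continuousAt.eventually_ne hx] with y hy
          by_contra hcon
          exact hy (hdis t y hcon)
        rw [this.fderiv_eq]
        simp
    rw [hd1, hd2, add_apply, map_add, map_add, hvs x, z1, z2, zero_add, zero_add, zero_add]
    exact h.mom t x
  div t x := by
    have hvx : DifferentiableAt ℝ v x := hv.differentiable (by simp) x
    have hux : DifferentiableAt ℝ (u t) x := (h.smooth_x t).differentiable (by simp) x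
    have hd2 : fderiv ℝ (fun y => v y + u t y) x = fderiv ℝ v x + fderiv ℝ (u t) x :=
      fderiv_fun_add hvx hux
    have h1 := hvd x
    have h2 := h.div t x
    rw [dv_eq] at h1 h2 ⊢
    rw [hd2]
    simp only [add_apply, PiLp.add_apply]
    linarith

end GSol

/-! ### Finite sums of tubes -/

section Tubes

variable {ι : Type} (s : Finset ι) (φ : ι → E3 → ℝ) (c : ι → E3)

theorem tubes_smooth (hφ : ∀ i ∈ s, ContDiff ℝ ∞ (φ i)) :
    ContDiff ℝ ∞ fun x => ∑ i ∈ s, φ i x • c i :=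
  ContDiff.sum fun i hi => (hφ i hi).smul contDiff_const

theorem tubes_fderiv (hφ : ∀ i ∈ s, ContDiff ℝ ∞ (φ i)) (x h : E3) :
    fderiv ℝ (fun x => ∑ i ∈ s, φ i x • c i) x h = ∑ i ∈ s, (fderiv ℝ (φ i) x h) • c i := by
  have hd : ∀ i ∈ s, HasFDerivAt (fun x => φ i x • c i)
      ((fderiv ℝ (φ i) x).smulRight (c i)) x := fun i hi =>
    (((hφ i hi).differentiable (by simp) x).hasFDerivAt).smul_const (c i)
  have h1 : HasFDerivAt (fun x => ∑ i ∈ s, φ i x • c i)
      (∑ i ∈ s, (fderiv ℝ (φ i) x).smulRight (c i)) x := HasFDerivAt.fun_sum hd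
  rw [h1.fderiv, sum_apply]
  rfl

theorem tubes_div (hφ : ∀ i ∈ s, ContDiff ℝ ∞ (φ i)) (hdir : ∀ i ∈ s, ∀ x, fderiv ℝ (φ i) x (c i) = 0)
    (x : E3) : dv (fun x => ∑ i ∈ s, φ i x • c i) x = 0 := by
  rw [dv_eq, tubes_fderiv s φ c hφ, tubes_fderiv s φ c hφ, tubes_fderiv s φ c hφ]
  simp only [WithLp.ofLp_sum, Finset.sum_apply, PiLp.smul_apply, smul_eq_mul]
  rw [← Finset.sum_add_distrib, ← Finset.sum_add_distrib]
  apply Finset.sum_eq_zero
  intro i hi
  have h1 := hdir i hi x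
  rw [expand (c i)] at h1
  simp only [map_add, map_smul, smul_eq_mul] at h1
  linarith

theorem tubes_steady (hφ : ∀ i ∈ s, ContDiff ℝ ∞ (φ i))
    (hdir : ∀ i ∈ s, ∀ x, fderiv ℝ (φ i) x (c i) = 0)
    (hdis : ∀ i ∈ s, ∀ j ∈ s, i ≠ j → ∀ x, φ i x ≠ 0 → φ j x = 0) (x : E3) :
    fderiv ℝ (fun x => ∑ i ∈ s, φ i x • c i) x (∑ i ∈ s, φ i x • c i) = 0 := by
  rw [tubes_fderiv s φ c hφ]
  apply Finset.sum_eq_zero
  intro i hi
  rw [map_sum]
  rw [Finset.sum_eq_zero, zero_smul]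
  intro j hj
  rw [map_smul]
  by_cases hij : j = i
  · rw [hij, hdir i hi, smul_zero]
  · by_cases hx : φ j x = 0
    · rw [hx, zero_smul]
    · have : φ i =ᶠ[𝓝 x] fun _ => 0 := by
        filter_upwards [(hφ j hj).continuous.continuousAt.eventually_ne hx] with y hy
        exact hdis j hj i hi hij y hy
      rw [this.fderiv_eq]
      simp

end Tubes

/-! ### The periodised vortex tube -/

/-- The periodic vortex tubes. -/
noncomputable def VP (Ω : ℝ → ℝ) (c : E3) (t : ℝ) (x : E3) : E3 := VL Ω c t (x - rd c x)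

/-- The pressure. -/
noncomputable def PP (Ω : ℝ → ℝ) (ρ : ℝ) (c : E3) (x : E3) : ℝ := PL Ω ρ c (x - rd c x)

section

variable {Ω : ℝ → ℝ} {ρ : ℝ} {c : E3}

theorem RR_ge {x : E3} (hρ : 0 < ρ) (h : ρ ≤ |x 0 - c 0| ∨ ρ ≤ |x 1 - c 1|) : ρ ^ 2 ≤ RR c x := by
  unfold RR
  rcases h with h | h
  · have : ρ ^ 2 ≤ (x 0 - c 0) ^ 2 := by
      rw [← sq_abs (x 0 - c 0)]
      gcongr
    nlinarith [sq_nonneg (x 1 - c 1)]
  · have : ρ ^ 2 ≤ (x 1 - c 1) ^ 2 := by
      rw [← sq_abs (x 1 - c 1)]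
      gcongr
    nlinarith [sq_nonneg (x 0 - c 0)]

theorem vanish_VL (hρ : 0 < ρ) (h0 : ∀ s, ρ ^ 2 ≤ s → Ω s = 0) :
    Vanish ρ c (fun (x : E3) (t : ℝ) => VL Ω c t x) := by
  intro x hx
  funext t
  have := h0 _ (RR_ge (c := c) hρ hx)
  change VL Ω c t x = 0
  unfold VL
  rw [this]
  ext i
  fin_cases i <;> simp

theorem vanish_PL (hρ : 0 < ρ) (h0 : ∀ s, ρ ^ 2 ≤ s → Ω s = 0) :
    Vanish ρ c (PL Ω ρ c) := by
  intro x hx
  have h1 := RR_ge (c := c) hρ hx
  unfold PL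
  rw [intervalIntegral.integral_congr (g := fun _ => (0 : ℝ))]
  · simp
  · intro s hs
    rw [uIcc_of_le h1] at hs
    simp only
    rw [h0 s hs.1]
    norm_num

theorem VP_ev (hρ : 0 < ρ) (hρ' : ρ < Real.pi) (h0 : ∀ s, ρ ^ 2 ≤ s → Ω s = 0) (x : E3) :
    ∀ᶠ y in 𝓝 x, ∀ t, VP Ω c t y = VL Ω c t (y - rd c x) := by
  filter_upwards [per_self (vanish_VL (c := c) hρ h0) hρ' x] with y hy t
  exact congrFun hy t

theorem PP_ev (hρ : 0 < ρ) (hρ' : ρ < Real.pi) (h0 : ∀ s, ρ ^ 2 ≤ s → Ω s = 0) (x : E3) :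
    ∀ᶠ y in 𝓝 x, PP Ω ρ c y = PL Ω ρ c (y - rd c x) :=
  per_self (vanish_PL (c := c) hρ h0) hρ' x

theorem VP_fderiv (hρ : 0 < ρ) (hρ' : ρ < Real.pi) (h0 : ∀ s, ρ ^ 2 ≤ s → Ω s = 0) (t : ℝ)
    (x : E3) : fderiv ℝ (VP Ω c t) x = fderiv ℝ (VL Ω c t) (x - rd c x) := by
  have h1 : VP Ω c t =ᶠ[𝓝 x] fun y => VL Ω c t (y + (-rd c x)) := by
    filter_upwards [VP_ev (c := c) hρ hρ' h0 x] with y hy
    rw [hy t, sub_eq_add_neg]
  rw [h1.fderiv_eq, fderiv_comp_add_right, sub_eq_add_neg]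

theorem GSol_VP (hΩ : ContDiff ℝ ∞ Ω) (hρ : 0 < ρ) (hρ' : ρ < Real.pi)
    (h0 : ∀ s, ρ ^ 2 ≤ s → Ω s = 0) : GSol (VP Ω c) (fun _ => PP Ω ρ c) where
  smooth_u := by
    rw [contDiff_iff_contDiffAt]
    rintro ⟨t, x⟩
    have h1 : (fun z : ℝ × E3 => VP Ω c z.1 z.2) =ᶠ[𝓝 (t, x)]
        fun z => VL Ω c z.1 (z.2 - rd c x) := by
      have h2 := (continuous_snd (X := ℝ) (Y := E3)).continuousAt (x := (t, x))
      filter_upwards [h2.eventually (VP_ev (c := c) hρ hρ' h0 x)] with z hz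
      exact hz z.1
    refine ContDiffAt.congr_of_eventuallyEq ?_ h1
    have h3 : ContDiff ℝ ∞ fun z : ℝ × E3 => VL Ω c z.1 (z.2 - rd c x) :=
      (contDiff_VL hΩ c).comp (contDiff_fst.prodMk (contDiff_snd.sub contDiff_const))
    exact h3.contDiffAt
  smooth_p := by
    have h4 : ContDiff ℝ ∞ (PP Ω ρ c) := by
      rw [contDiff_iff_contDiffAt]
      intro x
      refine ContDiffAt.congr_of_eventuallyEq ?_ (PP_ev (c := c) hρ hρ' h0 x)
      exact ((contDiff_PL hΩ ρ c).comp (contDiff_id.sub contDiff_const)).contDiffAt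
    exact h4.comp contDiff_snd
  per_u t := by
    have h1 : Periodic3 fun (x : E3) => (fun (x : E3) (t : ℝ) => VL Ω c t x) (x - rd c x) := by
      apply per_periodic (g := fun (x : E3) (t : ℝ) => VL Ω c t x)
      intro x τ
      funext t
      simp [VL, RR, e_apply']
    intro i x
    exact congrFun (h1 i x) t
  per_p t := by
    apply per_periodic
    intro x τ
    simp [PL, RR, e_apply']
  mom t x := by
    rw [VP_fderiv hρ hρ' h0]
    have h1 : gradient (PP Ω ρ c) x = gradient (PL Ω ρ c) (x - rd c x) := by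
      have h2 : PP Ω ρ c =ᶠ[𝓝 x] fun y => PL Ω ρ c (y + (-rd c x)) := by
        filter_upwards [PP_ev (c := c) hρ hρ' h0 x] with y hy
        rw [hy, sub_eq_add_neg]
      unfold gradient
      rw [h2.fderiv_eq, fderiv_comp_add_right, sub_eq_add_neg]
    rw [h1]
    exact mom_VL hΩ ρ c t (x - rd c x)
  div t x := by
    unfold dv
    rw [VP_fderiv hρ hρ' h0]
    exact dv_VL hΩ c t (x - rd c x)

theorem VP_support (hρ : 0 < ρ) (h0 : ∀ s, ρ ^ 2 ≤ s → Ω s = 0) {t : ℝ} {x : E3}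
    (h : VP Ω c t x ≠ 0) : ∃ n0 n1 : ℤ, |x 0 - c 0 - 2 * Real.pi * n0| < ρ ∧
      |x 1 - c 1 - 2 * Real.pi * n1| < ρ := by
  refine ⟨round ((x 0 - c 0) / (2 * Real.pi)), round ((x 1 - c 1) / (2 * Real.pi)), ?_⟩
  by_contra hcon
  rw [not_and_or, not_lt, not_lt] at hcon
  apply h
  have h1 := vanish_VL (c := c) hρ h0 (x - rd c x) (by
    rcases hcon with h2 | h2
    · left
      refine h2.trans (le_of_eq ?_)
      congr 1
      simp [rd, kv]
      ring
    · right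
      refine h2.trans (le_of_eq ?_)
      congr 1
      simp [rd, kv]
      ring)
  exact congrFun h1 t

theorem VL_reflect (t : ℝ) (x : E3) : VL Ω c t ((2 : ℝ) • c - x) = - VL Ω c t x := by
  have hR : RR c ((2 : ℝ) • c - x) = RR c x := by
    unfold RR
    simp
    ring
  unfold VL
  rw [hR]
  ext i
  fin_cases i
  · simp
    ring
  · simp
    ring
  · simp
    ring

theorem VP_odd (hρ : 0 < ρ) (hρ' : ρ < Real.pi) (h0 : ∀ s, ρ ^ 2 ≤ s → Ω s = 0) (t : ℝ) (x : E3) :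
    VP Ω c t ((2 : ℝ) • c - x) = - VP Ω c t x := by
  set m0 := round ((x 0 - c 0) / (2 * Real.pi)) with hm0
  set m1 := round ((x 1 - c 1) / (2 * Real.pi)) with hm1
  have h1 := per_eq (vanish_VL (c := c) hρ h0) hρ' ((2 : ℝ) • c - x) (-m0) (-m1) (by
      have h2 := abs_red_le (x 0 - c 0)
      rw [← hm0] at h2
      have h3 : ((2 : ℝ) • c - x) 0 - c 0 - 2 * Real.pi * ((-m0 : ℤ) : ℝ)
          = -(x 0 - c 0 - 2 * Real.pi * m0) := by
        simp
        ring
      rw [h3, abs_neg]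
      linarith) (by
      have h2 := abs_red_le (x 1 - c 1)
      rw [← hm1] at h2
      have h3 : ((2 : ℝ) • c - x) 1 - c 1 - 2 * Real.pi * ((-m1 : ℤ) : ℝ)
          = -(x 1 - c 1 - 2 * Real.pi * m1) := by
        simp
        ring
      rw [h3, abs_neg]
      linarith)
  have h2 := congrFun h1 t
  unfold VP
  rw [h2, ← VL_reflect]
  congr 1
  unfold rd
  rw [← hm0, ← hm1]
  ext i
  fin_cases i
  · simp [kv]
    ring
  · simp [kv]
    ring
  · simp [kv]

theorem VL_norm_le {δ : ℝ} (hδ : 0 ≤ δ) (hρ : 0 < ρ) (h0 : ∀ s, ρ ^ 2 ≤ s → Ω s = 0)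
    (hb : ∀ s, |Ω s| ≤ δ) (t : ℝ) (x : E3) : ‖VL Ω c t x‖ ≤ 2 * δ * ρ := by
  by_cases hR : ρ ^ 2 ≤ RR c x
  · have : VL Ω c t x = 0 := by
      unfold VL
      rw [h0 _ hR]
      ext i
      fin_cases i <;> simp
    rw [this, norm_zero]
    positivity
  · rw [not_le] at hR
    apply le_of_sq_le_sq _ (by positivity)
    rw [norm_sq_eq]
    have v0 : (VL Ω c t x) 0 = - (Ω (RR c x) * (x 1 - c 1)) := rfl
    have v1 : (VL Ω c t x) 1 = Ω (RR c x) * (x 0 - c 0) := rfl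
    have v2 : (VL Ω c t x) 2 = Ω (RR c x) * (Real.cos (t * Ω (RR c x)) * (x 1 - c 1)
      - Real.sin (t * Ω (RR c x)) * (x 0 - c 0)) := rfl
    rw [v0, v1, v2]
    set C := Real.cos (t * Ω (RR c x))
    set S := Real.sin (t * Ω (RR c x))
    have hsc : S ^ 2 + C ^ 2 = 1 := Real.sin_sq_add_cos_sq _
    have hRR : RR c x = (x 0 - c 0) ^ 2 + (x 1 - c 1) ^ 2 := rfl
    set y0 := x 0 - c 0
    set y1 := x 1 - c 1
    have h3 : (C * y1 - S * y0) ^ 2 ≤ y0 ^ 2 + y1 ^ 2 := by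
      nlinarith [sq_nonneg (C * y0 + S * y1)]
    have h4 : (Ω (RR c x)) ^ 2 ≤ δ ^ 2 := by
      rw [← sq_abs]
      gcongr
      exact hb _
    have h5 : (-(Ω (RR c x) * y1)) ^ 2 + (Ω (RR c x) * y0) ^ 2
        + (Ω (RR c x) * (C * y1 - S * y0)) ^ 2
        = (Ω (RR c x)) ^ 2 * (y0 ^ 2 + y1 ^ 2 + (C * y1 - S * y0) ^ 2) := by ring
    rw [h5]
    calc (Ω (RR c x)) ^ 2 * (y0 ^ 2 + y1 ^ 2 + (C * y1 - S * y0) ^ 2)
        ≤ δ ^ 2 * (4 * ρ ^ 2) := by
          apply mul_le_mul h4 _ (by positivity) (by positivity)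
          nlinarith
      _ = (2 * δ * ρ) ^ 2 := by ring

/-- The angular velocity profile. -/
theorem exists_profile {δ : ℝ} (hδ : 0 < δ) (hρ : 0 < ρ) : ∃ (Ω : ℝ → ℝ) (s : ℝ),
    ContDiff ℝ ∞ Ω ∧ (∀ r, ρ ^ 2 ≤ r → Ω r = 0) ∧ (∀ r, |Ω r| ≤ δ) ∧ 0 < s ∧ s < ρ ∧
    0 < |Ω (s ^ 2) * deriv Ω (s ^ 2)| := by
  set Ω : ℝ → ℝ := fun r => δ * expNegInvGlue (ρ ^ 2 - r) with hΩdef
  have hsm : ContDiff ℝ ∞ Ω :=
    contDiff_const.mul (expNegInvGlue.contDiff.comp (contDiff_const.sub contDiff_id))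
  refine ⟨Ω, ρ / 2, hsm, ?_, ?_, by positivity, by linarith, ?_⟩
  · intro r hr
    simp only [hΩdef]
    rw [expNegInvGlue.zero_of_nonpos (by linarith), mul_zero]
  · intro r
    simp only [hΩdef]
    rw [abs_mul, abs_of_pos hδ, abs_of_nonneg (expNegInvGlue.nonneg _)]
    have : expNegInvGlue (ρ ^ 2 - r) ≤ 1 := by
      unfold expNegInvGlue
      split_ifs with h
      · exact zero_le_one
      · rw [Real.exp_le_one_iff]
        rw [not_le] at h
        have := inv_pos.mpr h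
        linarith
    calc δ * expNegInvGlue (ρ ^ 2 - r) ≤ δ * 1 := by gcongr
      _ = δ := mul_one _
  · have hpos : 0 < ρ ^ 2 - (ρ / 2) ^ 2 := by nlinarith
    have hΩpos : 0 < Ω ((ρ / 2) ^ 2) := mul_pos hδ (expNegInvGlue.pos_of_pos hpos)
    have hder : HasDerivAt Ω (δ * (Real.exp (-(ρ ^ 2 - (ρ / 2) ^ 2)⁻¹)
        * (-(1 / (ρ ^ 2 - (ρ / 2) ^ 2) ^ 2)))) ((ρ / 2) ^ 2) := by
      have h1 : Ω =ᶠ[𝓝 ((ρ / 2) ^ 2)] fun r => δ * Real.exp (-(ρ ^ 2 - r)⁻¹) := by
        have : ∀ᶠ r in 𝓝 ((ρ / 2) ^ 2), r < ρ ^ 2 := eventually_lt_nhds (by linarith)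
        filter_upwards [this] with r hr
        simp only [hΩdef]
        unfold expNegInvGlue
        rw [if_neg (by linarith)]
      refine HasDerivAt.congr_of_eventuallyEq ?_ h1
      have h2 : HasDerivAt (fun r : ℝ => ρ ^ 2 - r) (-1) ((ρ / 2) ^ 2) := by
        simpa using (hasDerivAt_id ((ρ / 2) ^ 2)).const_sub (ρ ^ 2)
      have h3 := (((h2.inv hpos.ne').neg).exp).const_mul δ
      refine h3.congr_deriv ?_
      simp only [Pi.neg_apply, Pi.inv_apply]
      ring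
    rw [hder.deriv, abs_pos]
    apply mul_ne_zero hΩpos.ne'
    apply mul_ne_zero hδ.ne'
    apply mul_ne_zero (Real.exp_pos _).ne'
    rw [neg_ne_zero]
    positivity

end

end Pool.Agent.Work.MP_b0497c_an.Weak
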