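import Mathlib
import Pool.Agent.Work.MP_b0497c_an.Weak.Solution

set_option autoImplicit false

/-!
Scaling of solutions, the vortex profile with large amplitude, bounds of its initial vorticity.
-/

namespace Pool.Agent.Work.MP_b0497c_an.Weak

open Set RealInnerProductSpace Pool.Agent.Work.MP_b0497c_an Filter Topology
open scoped ContDiff

theorem fderiv_scale {F : Type} [NormedAddCommGroup F] [NormedSpace ℝ F] {f : E3 → F} (N : ℝ)
    (x : E3) (hf : DifferentiableAt ℝ f (N • x)) :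
    fderiv ℝ (fun y => f (N • y)) x = N • fderiv ℝ f (N • x) := by
  have h1 : HasFDerivAt (fun y : E3 => N • y) (N • ContinuousLinearMap.id ℝ E3) x :=
    (hasFDerivAt_id x).const_smul N
  have h2 := hf.hasFDerivAt.comp x h1
  have h3 : HasFDerivAt (fun y => f (N • y)) (N • fderiv ℝ f (N • x)) x := by
    refine HasFDerivAt.congr_fderiv h2 ?_
    ext v
    simp
  exact h3.fderiv

theorem curl_scale {f : E3 → E3} (N : ℝ) (x : E3) (hf : DifferentiableAt ℝ f (N • x)) :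
    curl (fun y => f (N • y)) x = N • curl f (N • x) := by
  unfold curl
  rw [fderiv_scale N x hf, axial_smul]

theorem GSol.scale {u : ℝ → E3 → E3} {p : ℝ → E3 → ℝ} (h : GSol u p) (N : ℕ) :
    GSol (fun t x => u (N * t) ((N : ℝ) • x)) (fun t x => p (N * t) ((N : ℝ) • x)) where
  smooth_u := by
    have h0 : ContDiff ℝ ∞ fun z : ℝ × E3 => (N : ℝ) • z.2 :=
      ContDiff.const_smul (N : ℝ) contDiff_snd
    have h1 : ContDiff ℝ ∞ fun z : ℝ × E3 => ((N : ℝ) * z.1, (N : ℝ) • z.2) :=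
      (contDiff_const.mul contDiff_fst).prodMk h0
    exact h.smooth_u.comp h1
  smooth_p := by
    have h0 : ContDiff ℝ ∞ fun z : ℝ × E3 => (N : ℝ) • z.2 :=
      ContDiff.const_smul (N : ℝ) contDiff_snd
    have h1 : ContDiff ℝ ∞ fun z : ℝ × E3 => ((N : ℝ) * z.1, (N : ℝ) • z.2) :=
      (contDiff_const.mul contDiff_fst).prodMk h0
    exact h.smooth_p.comp h1
  per_u t := by
    intro i x
    simp only
    have h1 : Function.Periodic (u (N * t)) ((2 * Real.pi) • e i) := h.per_u _ i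
    have h2 := h1.nsmul N ((N : ℝ) • x)
    rw [smul_add, ← h2]
    congr 1
    rw [← Nat.cast_smul_eq_nsmul ℝ]
  per_p t := by
    intro i x
    simp only
    have h1 : Function.Periodic (p (N * t)) ((2 * Real.pi) • e i) := h.per_p _ i
    have h2 := h1.nsmul N ((N : ℝ) • x)
    rw [smul_add, ← h2]
    congr 1
    rw [← Nat.cast_smul_eq_nsmul ℝ]
  mom t x := by
    have hd1 : deriv (fun s => u (N * s) ((N : ℝ) • x)) t
        = (N : ℝ) • deriv (fun s => u s ((N : ℝ) • x)) (N * t) := by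
      have h1 : HasDerivAt (fun s : ℝ => (N : ℝ) * s) N t := by
        simpa using (hasDerivAt_id t).const_mul (N : ℝ)
      have h2 : HasDerivAt (fun s => u s ((N : ℝ) • x)) (deriv (fun s => u s ((N : ℝ) • x)) (N * t))
          (N * t) := ((h.smooth_t ((N : ℝ) • x)).differentiable (by simp) (N * t)).hasDerivAt
      exact (h2.scomp t h1).deriv
    have hd2 : fderiv ℝ (fun y => u (N * t) ((N : ℝ) • y)) x
        = (N : ℝ) • fderiv ℝ (u (N * t)) ((N : ℝ) • x) :=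
      fderiv_scale N x ((h.smooth_x (N * t)).differentiable (by simp) _)
    have hp : ContDiff ℝ ∞ (p (N * t)) := h.smooth_p.comp (contDiff_const.prodMk contDiff_id)
    have hd3 : gradient (fun y => p (N * t) ((N : ℝ) • y)) x
        = (N : ℝ) • gradient (p (N * t)) ((N : ℝ) • x) := by
      unfold gradient
      rw [fderiv_scale N x (hp.differentiable (by simp) _)]
      simp
    rw [hd1, hd2, hd3, smul_apply, ← smul_add, h.mom, smul_neg]
  div t x := by
    have hd2 : fderiv ℝ (fun y => u (N * t) ((N : ℝ) • y)) x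
        = (N : ℝ) • fderiv ℝ (u (N * t)) ((N : ℝ) • x) :=
      fderiv_scale N x ((h.smooth_x (N * t)).differentiable (by simp) _)
    have h1 := h.div (N * t) ((N : ℝ) • x)
    rw [dv_eq] at h1 ⊢
    rw [hd2]
    simp only [smul_apply, PiLp.smul_apply, smul_eq_mul]
    linear_combination (N : ℝ) * h1

/-- The shape function. -/
noncomputable def chi (σ : ℝ) : ℝ := expNegInvGlue (1 - σ)

theorem contDiff_chi : ContDiff ℝ ∞ chi :=
  expNegInvGlue.contDiff.comp (contDiff_const.sub contDiff_id)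

theorem chi_zero {σ : ℝ} (h : 1 ≤ σ) : chi σ = 0 := expNegInvGlue.zero_of_nonpos (by linarith)

theorem chi_pos {σ : ℝ} (h : σ < 1) : 0 < chi σ := expNegInvGlue.pos_of_pos (by linarith)

theorem chi_nonneg (σ : ℝ) : 0 ≤ chi σ := expNegInvGlue.nonneg _

theorem chi_le (σ : ℝ) : chi σ ≤ 1 := by
  unfold chi expNegInvGlue
  split_ifs with h
  · exact zero_le_one
  · rw [Real.exp_le_one_iff]
    rw [not_le] at h
    have := inv_pos.mpr h
    linarith

theorem deriv_chi_ne : deriv chi (1 / 4) ≠ 0 := by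
  have hder : HasDerivAt chi (Real.exp (-(1 - 1 / 4 : ℝ)⁻¹)
      * (-(1 / (1 - 1 / 4 : ℝ) ^ 2))) (1 / 4) := by
    have h1 : chi =ᶠ[𝓝 (1 / 4 : ℝ)] fun r => Real.exp (-(1 - r)⁻¹) := by
      have : ∀ᶠ r in 𝓝 (1 / 4 : ℝ), r < 1 := eventually_lt_nhds (by norm_num)
      filter_upwards [this] with r hr
      unfold chi expNegInvGlue
      rw [if_neg (by linarith)]
    refine HasDerivAt.congr_of_eventuallyEq ?_ h1
    have h2 : HasDerivAt (fun r : ℝ => 1 - r) (-1) (1 / 4) := by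
      simpa using (hasDerivAt_id (1 / 4 : ℝ)).const_sub 1
    have h3 := ((h2.inv (by norm_num)).neg).exp
    refine h3.congr_deriv ?_
    simp only [Pi.neg_apply, Pi.inv_apply]
    ring
  rw [hder.deriv]
  apply mul_ne_zero (Real.exp_pos _).ne'
  norm_num

theorem deriv_chi_bound : ∃ C, 0 ≤ C ∧ ∀ σ, 0 ≤ σ → |σ * deriv chi σ| ≤ C := by
  have hc : Continuous fun σ : ℝ => σ * deriv chi σ :=
    continuous_id.mul (contDiff_chi.continuous_deriv (by simp))
  obtain ⟨C, hC⟩ := isCompact_Icc.exists_bound_of_continuousOn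
    (s := Icc (0 : ℝ) 1) hc.continuousOn
  refine ⟨max C 0, le_max_right _ _, fun σ hσ => ?_⟩
  by_cases h : σ ≤ 1
  · exact (hC σ ⟨hσ, h⟩).trans (le_max_left _ _)
  · rw [not_le] at h
    have h1 : chi =ᶠ[𝓝 σ] fun _ => 0 := by
      filter_upwards [eventually_gt_nhds h] with r hr
      exact chi_zero hr.le
    rw [h1.deriv_eq]
    simp

/-- The angular velocity profiles, with uniform constants. -/
theorem exists_shape : ∃ c1 C1 : ℝ, 0 < c1 ∧ 0 ≤ C1 ∧ ∀ Λ ρ : ℝ, 0 < Λ → 0 < ρ →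
    ∃ Ω : ℝ → ℝ, ContDiff ℝ ∞ Ω ∧ (∀ r, ρ ^ 2 ≤ r → Ω r = 0) ∧ (∀ r, |Ω r| ≤ Λ) ∧
      (∀ r, 0 ≤ r → |r * deriv Ω r| ≤ C1 * Λ) ∧
      c1 * Λ ^ 2 = 2 * (ρ / 2) ^ 2 * |Ω ((ρ / 2) ^ 2) * deriv Ω ((ρ / 2) ^ 2)| := by
  obtain ⟨C1, hC10, hC1⟩ := deriv_chi_bound
  refine ⟨(1 / 2) * |chi (1 / 4) * deriv chi (1 / 4)|, C1, ?_, hC10, ?_⟩
  · have : 0 < |chi (1 / 4) * deriv chi (1 / 4)| :=
      abs_pos.mpr (mul_ne_zero (chi_pos (by norm_num)).ne' deriv_chi_ne)
    positivity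
  · intro Λ ρ hΛ hρ
    set Ω : ℝ → ℝ := fun r => Λ * chi (r / ρ ^ 2) with hΩ
    have hρ2 : 0 < ρ ^ 2 := by positivity
    have hder : ∀ r, HasDerivAt Ω (Λ * (deriv chi (r / ρ ^ 2) * (1 / ρ ^ 2))) r := by
      intro r
      have h1 : HasDerivAt (fun r : ℝ => r / ρ ^ 2) (1 / ρ ^ 2) r :=
        (hasDerivAt_id r).div_const _
      have h2 : HasDerivAt chi (deriv chi (r / ρ ^ 2)) (r / ρ ^ 2) :=
        (contDiff_chi.differentiable (by simp) _).hasDerivAt
      exact (h2.comp r h1).const_mul Λ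
    refine ⟨Ω, contDiff_const.mul (contDiff_chi.comp (contDiff_id.div_const _)), ?_, ?_, ?_, ?_⟩
    · intro r hr
      simp only [hΩ]
      rw [chi_zero (by rw [le_div_iff₀ hρ2]; linarith), mul_zero]
    · intro r
      simp only [hΩ]
      rw [abs_mul, abs_of_pos hΛ, abs_of_nonneg (chi_nonneg _)]
      calc Λ * chi (r / ρ ^ 2) ≤ Λ * 1 := by gcongr; exact chi_le _
        _ = Λ := mul_one _
    · intro r hr
      rw [(hder r).deriv]
      have h1 : r * (Λ * (deriv chi (r / ρ ^ 2) * (1 / ρ ^ 2)))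
          = Λ * ((r / ρ ^ 2) * deriv chi (r / ρ ^ 2)) := by ring
      rw [h1, abs_mul, abs_of_pos hΛ, mul_comm]
      gcongr
      exact hC1 _ (by positivity)
    · rw [(hder _).deriv]
      simp only [hΩ]
      have h1 : (ρ / 2) ^ 2 / ρ ^ 2 = 1 / 4 := by
        field_simp
        norm_num
      rw [h1]
      have h2 : Λ * chi (1 / 4) * (Λ * (deriv chi (1 / 4) * (1 / ρ ^ 2)))
          = (Λ ^ 2 / ρ ^ 2) * (chi (1 / 4) * deriv chi (1 / 4)) := by ring
      rw [h2, abs_mul (Λ ^ 2 / ρ ^ 2), abs_of_pos (by positivity : 0 < Λ ^ 2 / ρ ^ 2)]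
      field_simp

/-- Bound of the initial vorticity of the tube. -/
theorem curl_VL_zero_le {Ω : ℝ → ℝ} (hΩ : ContDiff ℝ ∞ Ω) {Λ B : ℝ} (hb : ∀ r, |Ω r| ≤ Λ)
    (hB : ∀ r, 0 ≤ r → |r * deriv Ω r| ≤ B) (c x : E3) :
    ‖curl (VL Ω c 0) x‖ ≤ 4 * Λ + 6 * B := by
  have hRR : RR c x = (x 0 - c 0) ^ 2 + (x 1 - c 1) ^ 2 := rfl
  have hR0 : 0 ≤ RR c x := by rw [hRR]; positivity
  have h1 := hb (RR c x)
  have h2 := hB (RR c x) hR0
  have hprod : ∀ y z : ℝ, |y * z| ≤ RR c x → |deriv Ω (RR c x) * (2 * y) * z| ≤ 2 * B := by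
    intro y z hyz
    have h3 : |deriv Ω (RR c x) * (2 * y) * z| = 2 * (|deriv Ω (RR c x)| * |y * z|) := by
      rw [show deriv Ω (RR c x) * (2 * y) * z = 2 * (deriv Ω (RR c x) * (y * z)) by ring,
        abs_mul, abs_mul, abs_two]
    rw [h3]
    have h4 : |deriv Ω (RR c x)| * |y * z| ≤ |deriv Ω (RR c x)| * RR c x := by gcongr
    have h5 : |deriv Ω (RR c x)| * RR c x = |RR c x * deriv Ω (RR c x)| := by
      rw [abs_mul, abs_of_nonneg hR0, mul_comm]
    linarith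
  have hy01 : |(x 0 - c 0) * (x 1 - c 1)| ≤ RR c x := by
    rw [abs_le, hRR]
    constructor <;> nlinarith [sq_nonneg (x 0 - c 0 + (x 1 - c 1)),
      sq_nonneg (x 0 - c 0 - (x 1 - c 1))]
  have hy11 : |(x 1 - c 1) * (x 1 - c 1)| ≤ RR c x := by
    rw [abs_le, hRR]
    constructor <;> nlinarith [sq_nonneg (x 0 - c 0), sq_nonneg (x 1 - c 1)]
  have c0 : |curl (VL Ω c 0) x 0| ≤ Λ + 2 * B := by
    have : curl (VL Ω c 0) x 0
        = deriv Ω (RR c x) * (2 * (x 1 - c 1)) * (x 1 - c 1) + Ω (RR c x) := by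
      change (fderiv ℝ (VL Ω c 0) x (e 1)) 2 - (fderiv ℝ (VL Ω c 0) x (e 2)) 1 = _
      rw [(fderiv_VL hΩ c 0 x (e 1)).2.2, (fderiv_VL hΩ c 0 x (e 2)).2.1]
      simp [e_apply']
    rw [this]
    refine (abs_add_le _ _).trans ?_
    have := hprod _ _ hy11
    linarith
  have c1 : |curl (VL Ω c 0) x 1| ≤ 2 * B := by
    have : curl (VL Ω c 0) x 1
        = - (deriv Ω (RR c x) * (2 * (x 0 - c 0)) * (x 1 - c 1)) := by
      change (fderiv ℝ (VL Ω c 0) x (e 2)) 0 - (fderiv ℝ (VL Ω c 0) x (e 0)) 2 = _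
      rw [(fderiv_VL hΩ c 0 x (e 2)).1, (fderiv_VL hΩ c 0 x (e 0)).2.2]
      simp [e_apply']
    rw [this, abs_neg]
    exact hprod _ _ hy01
  have c2 : |curl (VL Ω c 0) x 2| ≤ 2 * Λ + 2 * B := by
    have : curl (VL Ω c 0) x 2
        = 2 * (RR c x * deriv Ω (RR c x)) + 2 * Ω (RR c x) := by
      change (fderiv ℝ (VL Ω c 0) x (e 0)) 1 - (fderiv ℝ (VL Ω c 0) x (e 1)) 0 = _
      rw [(fderiv_VL hΩ c 0 x (e 0)).2.1, (fderiv_VL hΩ c 0 x (e 1)).1]
      simp only [e_apply', hRR]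
      simp
      ring
    rw [this]
    refine (abs_add_le _ _).trans ?_
    rw [abs_mul 2 (RR c x * deriv Ω (RR c x)), abs_mul 2 (Ω (RR c x)), abs_two]
    linarith
  rw [expand (curl (VL Ω c 0) x)]
  refine norm_add₃_le.trans ?_
  rw [norm_smul, norm_smul, norm_smul, norm_e, norm_e, norm_e, Real.norm_eq_abs,
    Real.norm_eq_abs, Real.norm_eq_abs]
  have hΛ0 : 0 ≤ Λ := (abs_nonneg _).trans h1
  linarith

end Pool.Agent.Work.MP_b0497c_an.Weak
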