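import Mathlib
import Pool.Agent.Work.MP_b0497c_an.Weak.Exact
import Pool.Agent.Work.MP_b0497c_an.Weak.Scale

set_option autoImplicit false

/-!
Every divergence free field is, up to high frequencies and a small vector potential, a steady
pressureless Euler flow and the datum of a global smooth solution with growing vorticity.
-/

namespace Pool.Agent.Work.MP_b0497c_an.Weak

open Set RealInnerProductSpace Pool.Agent.Work.MP_b0497c_an Filter Topology
open scoped ContDiff

/-- Offsets for a finite index type. -/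
theorem exists_offsets' {ι : Type} [Fintype ι] (a b : ι → Fin 3 → ℤ) :
    ∃ (α β : ι → ℝ) (r : ℝ), 0 < r ∧ r < Real.pi ∧ ∀ i j, i ≠ j → ∀ x : E3,
      ∀ n1 n2 n3 n4 : ℤ, |⟪iv (a i), x⟫ - α i - 2 * Real.pi * n1| < r →
      |⟪iv (b i), x⟫ - β i - 2 * Real.pi * n2| < r →
      |⟪iv (a j), x⟫ - α j - 2 * Real.pi * n3| < r →
      |⟪iv (b j), x⟫ - β j - 2 * Real.pi * n4| < r → False := by
  classical
  let f := Fintype.equivFin ι
  obtain ⟨α, β, r, hr, hr', h⟩ := exists_offsets (Fintype.card ι) (fun k => a (f.symm k))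
    (fun k => b (f.symm k))
  refine ⟨fun i => α (f i), fun i => β (f i), r, hr, hr', ?_⟩
  intro i j hij x n1 n2 n3 n4 h1 h2 h3 h4
  refine h (f i) (f j) (fun h => hij (f.injective h)) x n1 n2 n3 n4 ?_ ?_ ?_ ?_
  · simpa using h1
  · simpa using h2
  · simpa using h3
  · simpa using h4

/-- Integer unit vectors. -/
def ue (i : Fin 3) : Fin 3 → ℤ := fun j => if j = i then 1 else 0

theorem iv_ue (i : Fin 3) : iv (ue i) = e i := by
  ext j
  fin_cases i <;> fin_cases j <;> simp [iv, ue, e]

/-- The constant modes. -/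
noncomputable def constMode (m : E3) (i : Fin 3) : Mode :=
  ⟨ue (i + 1), ue (i + 2), m i, 0, 0⟩

theorem constMode_field (m : E3) (i : Fin 3) (x : E3) : (constMode m i).field x = m i • e i := by
  unfold Mode.field Mode.dir Mode.F constMode
  simp only [iv_ue, zero_mul, add_zero]
  congr 1
  fin_cases i <;> ext j <;> fin_cases j <;> simp [cr, e]

/-- The oscillating modes. -/
noncomputable def oscMode (i : Fin 3) (k : Fin 3 → ℤ) (A B : ℝ) : Mode :=
  ⟨k, ue i, 0, B, -A⟩

theorem oscMode_field (i : Fin 3) (k : Fin 3 → ℤ) (A B : ℝ) (x : E3) :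
    (oscMode i k A B).field x
      = curl (fun y => (A * Real.cos ⟪iv k, y⟫ + B * Real.sin ⟪iv k, y⟫) • e i) x := by
  have h1 : HasDerivAt (fun s : ℝ => A * Real.cos s + B * Real.sin s)
      (A * (- Real.sin ⟪iv k, x⟫) + B * Real.cos ⟪iv k, x⟫) ⟪iv k, x⟫ :=
    ((Real.hasDerivAt_cos _).const_mul A).add ((Real.hasDerivAt_sin _).const_mul B)
  have h2 : HasFDerivAt (fun y : E3 => A * Real.cos ⟪iv k, y⟫ + B * Real.sin ⟪iv k, y⟫) _ x :=
    hasFDerivAt_one h1
  rw [curl_smul_const (e i) h2, cr_smul_left]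
  unfold Mode.field Mode.dir Mode.F oscMode
  simp only [iv_ue]
  congr 1
  ring

/-- Decomposition of a constant plus the curl of a trigonometric polynomial into finitely many
shear modes with integer directions. -/
theorem exists_modes (m : E3) (S : Finset (Fin 3 → ℤ)) (a b : (Fin 3 → ℤ) → E3) :
    ∃ (n : ℕ) (M : Fin n → Mode), ∀ x, ∑ j, (M j).field x = m + curl (TP S a b) x := by
  classical
  let ι0 : Type := (Fin 3) ⊕ (Fin 3 × {k : Fin 3 → ℤ // k ∈ S})
  let M : ι0 → Mode := fun j => Sum.elim (fun i => constMode m i)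
    (fun z => oscMode z.1 z.2.1 (a z.2.1 z.1) (b z.2.1 z.1)) j
  have hi : ∀ a : E3, ContDiff ℝ ∞ fun x : E3 => ⟪a, x⟫ := fun a => (innerSL ℝ a).contDiff
  have hQz : ∀ z : Fin 3 × {k : Fin 3 → ℤ // k ∈ S}, ContDiff ℝ ∞ fun x : E3 =>
      (a z.2.1 z.1 * Real.cos ⟪iv z.2.1, x⟫ + b z.2.1 z.1 * Real.sin ⟪iv z.2.1, x⟫) • e z.1 := by
    intro z
    exact ((contDiff_const.mul (Real.contDiff_cos.comp (hi _))).add
      (contDiff_const.mul (Real.contDiff_sin.comp (hi _)))).smul contDiff_const
  have hTP : TP S a b = fun x => ∑ z : Fin 3 × {k : Fin 3 → ℤ // k ∈ S},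
      (a z.2.1 z.1 * Real.cos ⟪iv z.2.1, x⟫ + b z.2.1 z.1 * Real.sin ⟪iv z.2.1, x⟫) • e z.1 := by
    funext x
    unfold TP
    rw [Fintype.sum_prod_type_right, ← Finset.sum_coe_sort S]
    apply Finset.sum_congr rfl
    intro k _
    rw [Fin.sum_univ_three]
    nth_rewrite 1 [expand (a k)]
    nth_rewrite 1 [expand (b k)]
    simp only [smul_add, smul_smul, add_smul, mul_comm (Real.cos _), mul_comm (Real.sin _)]
    abel
  have hfield : ∀ x, ∑ j : ι0, (M j).field x = m + curl (TP S a b) x := by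
    intro x
    rw [Fintype.sum_sum_type]
    congr 1
    · simp only [M, Sum.elim_inl, constMode_field]
      rw [Fin.sum_univ_three]
      exact (expand m).symm
    · simp only [M, Sum.elim_inr, oscMode_field]
      rw [hTP]
      exact (curl_sum Finset.univ
        (fun z _ => (hQz z).differentiable (by simp) x)).symm
  let f := Fintype.equivFin ι0
  refine ⟨Fintype.card ι0, fun j => M (f.symm j), fun x => ?_⟩
  rw [← hfield x]
  exact Equiv.sum_comp f.symm (fun j => (M j).field x)

/-- Being close to `u0`: up to a small vector potential and with the same low modes. -/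
def Close (ε : ℝ) (K : ℕ) (u0 w : E3 → E3) : Prop :=
  (∃ A : E3 → E3, ContDiff ℝ 1 A ∧ Periodic3 A ∧ (∀ x, ‖A x‖ ≤ ε) ∧ ∀ x, w x = u0 x + curl A x) ∧
  LowZero K (fun x => w x - u0 x)

theorem periodic_bound {g : E3 → ℝ} (hg : Continuous g) (hp : Periodic3 g) :
    ∃ W, 0 ≤ W ∧ ∀ x, |g x| ≤ W := by
  obtain ⟨C, hC⟩ := (isCompact_closedBall (0 : E3) 13).exists_bound_of_continuousOn
    hg.continuousOn
  refine ⟨max C 0, le_max_right _ _, fun x => ?_⟩
  obtain ⟨v, hv, hvp⟩ := exists_shift x
  rw [← hvp ℝ g hp x]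
  refine (hC (x + v) ?_).trans (le_max_left _ _)
  rw [mem_closedBall_zero_iff]
  exact hv

theorem main {u0 : E3 → E3} (hu0 : ContDiff ℝ 1 u0) (hp0 : Periodic3 u0)
    (hd0 : ∀ x, dv u0 x = 0) {ε : ℝ} (hε : 0 < ε) (K : ℕ) (Mf : ℝ) :
    ∃ (v : E3 → E3) (u : ℝ → E3 → E3) (p : ℝ → E3 → ℝ),
      ContDiff ℝ ∞ v ∧ Periodic3 v ∧ (∀ x, dv v x = 0) ∧ (∀ x, fderiv ℝ v x (v x) = 0) ∧
      Close ε K u0 v ∧
      GSol u p ∧ (∀ t x, ‖u t x - v x‖ ≤ ε) ∧ (∀ t, Close ε K u0 (u t)) ∧
      ∃ κ > 0, (∀ y, Mf * ‖curl (u 0) y‖ ≤ κ) ∧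
        ∀ t, 0 ≤ t → ∀ y, ∃ x, ‖x - y‖ ≤ ε ∧ κ * t ≤ ‖curl (u t) x‖ := by
  classical
  -- the vector potential and its approximation
  obtain ⟨Ψ, hΨs, hΨp, hΨ, -⟩ := exists_potential hu0 hp0 hd0
  set m : E3 := mn u0 0 with hm
  obtain ⟨S, a, b, hTPb, hTPl⟩ := tp_exact hΨs.continuous hΨp K (ε := ε / 4) (by positivity)
  set Q : E3 → E3 := TP S a b with hQ
  have hQs : ContDiff ℝ ∞ Q := contDiff_TP S a b
  have hQp : Periodic3 Q := periodic_TP S a b
  obtain ⟨n, M, hfield⟩ := exists_modes m S a b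
  -- offsets
  let a' : Option (Fin n) → Fin 3 → ℤ := fun j => j.elim (ue 0) (fun j => (M j).a)
  let b' : Option (Fin n) → Fin 3 → ℤ := fun j => j.elim (ue 1) (fun j => (M j).b)
  obtain ⟨α, β, r, hr, hr', hoff⟩ := exists_offsets' a' b'
  obtain ⟨P, hPs, hPp, hPm, hPsupp⟩ := exists_bump hr hr'
  have hPshift : ∀ γ : ℝ, ContDiff ℝ ∞ (fun s => P (s - γ)) ∧
      Function.Periodic (fun s => P (s - γ)) (2 * Real.pi) ∧
      (∫ s in (0 : ℝ)..(2 * Real.pi), P (s - γ) = 2 * Real.pi) := by
    intro γ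
    refine ⟨hPs.comp (contDiff_id.sub contDiff_const), ?_, ?_⟩
    · intro s
      simp only
      rw [show s + 2 * Real.pi - γ = (s - γ) + 2 * Real.pi by ring, hPp]
    · rw [intervalIntegral.integral_comp_sub_right P γ]
      have h1 := hPp.intervalIntegral_add_eq (0 - γ) 0
      rw [zero_add, hPm] at h1
      rw [show 2 * Real.pi - γ = 0 - γ + 2 * Real.pi by ring]
      exact h1
  have happ := fun j : Fin n => (M j).approx (hPshift (α (some j))).1 (hPshift (β (some j))).1
    (hPshift (α (some j))).2.1 (hPshift (β (some j))).2.1 (hPshift (α (some j))).2.2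
    (hPshift (β (some j))).2.2
  choose C hC0 hC using happ
  -- the frequency
  have hsumC0 : 0 ≤ ∑ j, C j := Finset.sum_nonneg fun j _ => hC0 j
  obtain ⟨N0, hN0'⟩ := exists_nat_gt ((∑ j, C j) / (ε / 4) + 10 / ε)
  have hN0 : (∑ j, C j) / (ε / 4) < N0 := lt_of_le_of_lt (by
    have : 0 < 10 / ε := by positivity
    linarith) hN0'
  have hN0ε : 10 / ε < N0 := lt_of_le_of_lt (by
    have : 0 ≤ (∑ j, C j) / (ε / 4) := by positivity
    linarith) hN0'
  set N : ℕ := N0 + 2 + (K + 1 + ∑ j, ∑ i, ((M j).a i).natAbs) with hN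
  have hN2 : 2 ≤ N := by omega
  have hNpos : (0 : ℝ) < N := by
    have : 0 < N := by omega
    exact_mod_cast this
  have hsumC : (∑ j, C j) / N ≤ ε / 4 := by
    rw [div_le_iff₀ hNpos]
    rw [div_lt_iff₀ (by positivity)] at hN0
    have : (N0 : ℝ) ≤ N := by
      have : N0 ≤ N := by omega
      exact_mod_cast this
    nlinarith
  have hNa : ∀ j i, (K : ℤ) + |(M j).a i| < N := by
    intro j i
    have h1 : ((M j).a i).natAbs ≤ ∑ i, ((M j).a i).natAbs :=
      Finset.single_le_sum (f := fun i => ((M j).a i).natAbs) (fun _ _ => Nat.zero_le _)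
        (Finset.mem_univ i)
    have h2 : ∑ i, ((M j).a i).natAbs ≤ ∑ j, ∑ i, ((M j).a i).natAbs :=
      Finset.single_le_sum (f := fun j => ∑ i, ((M j).a i).natAbs) (fun _ _ => Nat.zero_le _)
        (Finset.mem_univ j)
    rw [Int.abs_eq_natAbs]
    have h3 : K + ((M j).a i).natAbs < N := by omega
    exact_mod_cast h3
  choose Y hYs hYp hYb hY using fun j => hC j N hN2
  set φ : Fin n → E3 → ℝ := fun j => (M j).amp (fun s => P (s - α (some j)))
    (fun s => P (s - β (some j))) N with hφ
  set v : E3 → E3 := fun x => ∑ j : Fin n, φ j x • (M j).dir with hv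
  have hφs : ∀ j ∈ (Finset.univ : Finset (Fin n)), ContDiff ℝ ∞ (φ j) := fun j _ =>
    (M j).amp_contDiff (hPshift _).1 (hPshift _).1 N
  have hφd : ∀ j ∈ (Finset.univ : Finset (Fin n)), ∀ x, fderiv ℝ (φ j) x (M j).dir = 0 :=
    fun j _ x => (M j).amp_dir (hPshift _).1 (hPshift _).1 N x
  have hφsupp : ∀ j x, φ j x ≠ 0 → ∃ n1 n2 : ℤ,
      |⟪iv (a' (some j)), (N : ℝ) • x⟫ - α (some j) - 2 * Real.pi * n1| < r ∧
      |⟪iv (b' (some j)), (N : ℝ) • x⟫ - β (some j) - 2 * Real.pi * n2| < r := by
    intro j x hx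
    have h1 : P (N * ⟪iv (M j).a, x⟫ - α (some j)) ≠ 0 := by
      intro h
      apply hx
      change (P (N * ⟪iv (M j).a, x⟫ - α (some j)) * (M j).F ⟪iv (M j).a, x⟫) *
        P (N * ⟪iv (M j).b, x⟫ - β (some j)) = 0
      rw [h]
      simp
    have h2 : P (N * ⟪iv (M j).b, x⟫ - β (some j)) ≠ 0 := by
      intro h
      apply hx
      change (P (N * ⟪iv (M j).a, x⟫ - α (some j)) * (M j).F ⟪iv (M j).a, x⟫) *
        P (N * ⟪iv (M j).b, x⟫ - β (some j)) = 0
      rw [h]
      simp
    obtain ⟨n1, hn1⟩ := hPsupp _ h1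
    obtain ⟨n2, hn2⟩ := hPsupp _ h2
    refine ⟨n1, n2, ?_, ?_⟩
    · rw [inner_smul_right]
      exact hn1
    · rw [inner_smul_right]
      exact hn2
  have hφdis : ∀ i ∈ (Finset.univ : Finset (Fin n)), ∀ j ∈ (Finset.univ : Finset (Fin n)),
      i ≠ j → ∀ x, φ i x ≠ 0 → φ j x = 0 := by
    intro i _ j _ hij x hx
    by_contra hcon
    obtain ⟨n1, n2, h1, h2⟩ := hφsupp i x hx
    obtain ⟨n3, n4, h3, h4⟩ := hφsupp j x hcon
    exact hoff (some i) (some j) (fun h => hij (Option.some_injective _ h)) _ n1 n2 n3 n4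
      h1 h2 h3 h4
  have hvs : ContDiff ℝ ∞ v := tubes_smooth _ _ _ hφs
  have hvp : Periodic3 v := by
    intro i x
    apply Finset.sum_congr rfl
    intro j _
    have h1 : φ j (x + (2 * Real.pi) • e i) = φ j x :=
      (M j).amp_periodic (hPshift _).2.1 (hPshift _).2.1 N i x
    rw [h1]
  have hvd : ∀ x, dv v x = 0 := tubes_div _ _ _ hφs hφd
  have hvst : ∀ x, fderiv ℝ v x (v x) = 0 := tubes_steady _ _ _ hφs hφd hφdis
  -- the potential of the steady part
  set A0 : E3 → E3 := fun x => (Q x - Ψ x) + ∑ j, Y j x with hA0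
  have hsumYs : ContDiff ℝ 1 fun x => ∑ j, Y j x :=
    ContDiff.sum fun j _ => (hYs j).of_le (by simp)
  have hQΨ : ContDiff ℝ 1 fun x => Q x - Ψ x := (hQs.of_le (by simp)).sub hΨs
  have hQΨp : Periodic3 fun x => Q x - Ψ x := by
    intro i x
    simp only [hQp i x, hΨp i x]
  have hA0s : ContDiff ℝ 1 A0 := hQΨ.add hsumYs
  have hA0p : Periodic3 A0 := by
    intro i x
    simp only [hA0, hQp i x, hΨp i x]
    congr 1
    apply Finset.sum_congr rfl
    intro j _
    exact hYp j i x
  have hA0b : ∀ x, ‖A0 x‖ ≤ ε / 2 := by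
    intro x
    have h1 : ‖∑ j, Y j x‖ ≤ ε / 4 := by
      calc ‖∑ j, Y j x‖ ≤ ∑ j, ‖Y j x‖ := norm_sum_le _ _
        _ ≤ ∑ j, C j / N := Finset.sum_le_sum fun j _ => hYb j x
        _ = (∑ j, C j) / N := by rw [Finset.sum_div]
        _ ≤ ε / 4 := hsumC
    calc ‖A0 x‖ ≤ ‖Q x - Ψ x‖ + ‖∑ j, Y j x‖ := norm_add_le _ _
      _ ≤ ε / 4 + ε / 4 := add_le_add (hTPb x) h1
      _ = ε / 2 := by ring
  have hvA : ∀ x, v x = u0 x + curl A0 x := by
    intro x
    have h1 : v x = ∑ j, (M j).field x + ∑ j, curl (Y j) x := by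
      rw [← Finset.sum_add_distrib]
      apply Finset.sum_congr rfl
      intro j _
      exact hY j x
    have h2 : curl A0 x = (curl Q x - curl Ψ x) + ∑ j, curl (Y j) x := by
      rw [hA0, curl_add (hQΨ.differentiable one_ne_zero x) (hsumYs.differentiable one_ne_zero x),
        curl_sub (hQs.differentiable (by simp) x) (hΨs.differentiable one_ne_zero x),
        curl_sum Finset.univ (fun j _ => (hYs j).differentiable (by simp) x)]
    rw [h1, h2, hfield, hΨ x]
    abel
  have hvlow : LowZero K (fun x => v x - u0 x) := by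
    have h1 : (fun x => v x - u0 x) = fun x => curl (fun y => Q y - Ψ y) x
        + ∑ j, ((M j).amp (fun s => P (s - α (some j))) (fun s => P (s - β (some j))) N x •
          (M j).dir - (M j).field x) := by
      funext x
      rw [curl_sub (hQs.differentiable (by simp) x) (hΨs.differentiable one_ne_zero x),
        Finset.sum_sub_distrib, hfield, hΨ x]
      simp only [hv, hφ, hQ]
      abel
    have hterm : ∀ j : Fin n, Continuous fun x =>
        (M j).amp (fun s => P (s - α (some j))) (fun s => P (s - β (some j))) N x •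
          (M j).dir - (M j).field x := by
      intro j
      have h2 : Continuous (M j).field := by
        unfold Mode.field
        exact (((M j).F_contDiff.continuous).comp (continuous_inner' _)).smul continuous_const
      exact (((M j).amp_contDiff (hPshift _).1 (hPshift _).1 N).continuous.smul
        continuous_const).sub h2
    have hcurlc : Continuous fun x => curl (fun y => Q y - Ψ y) x := by
      have h3 : Continuous (fderiv ℝ fun y => Q y - Ψ y) := hQΨ.continuous_fderiv one_ne_zero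
      exact (LinearMap.continuous_of_finiteDimensional axialL).comp h3
    rw [h1]
    exact LowZero.add hcurlc (continuous_finsetSum _ fun j _ => hterm j)
      (LowZero.curl hQΨ hQΨp hTPl)
      (LowZero.sum Finset.univ (fun j _ => hterm j) fun j _ =>
        (M j).low (hPshift _).1 (hPshift _).1 (hPshift _).2.1 (hPshift _).2.1
          (hPshift _).2.2 (hPshift _).2.2 K N hN2 (hNa j))
  -- the vortex tube: amplitude and size
  obtain ⟨W, hW0, hW⟩ := periodic_bound (g := fun x => ‖curl v x‖) (by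
      have h3 : Continuous (fderiv ℝ v) := hvs.continuous_fderiv (by simp)
      exact ((LinearMap.continuous_of_finiteDimensional axialL).comp h3).norm) (by
      intro i x
      simp only
      unfold curl
      rw [hvp.fderiv i x])
  obtain ⟨c1, C1, hc1, hC1, hshape⟩ := exists_shape
  set M' : ℝ := max Mf 0 with hM'
  have hM'0 : 0 ≤ M' := le_max_right _ _
  set CC : ℝ := W + N * (4 + 6 * C1) with hCC
  have hCC0 : 0 ≤ CC := by positivity
  set Λ : ℝ := max 1 (M' * CC / (N ^ 2 * c1)) with hΛ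
  have hΛ1 : 1 ≤ Λ := le_max_left _ _
  have hΛ0 : 0 < Λ := by linarith
  have hΛ2 : M' * CC ≤ N ^ 2 * c1 * Λ := by
    have h1 : M' * CC / (N ^ 2 * c1) ≤ Λ := le_max_right _ _
    rw [div_le_iff₀ (by positivity)] at h1
    linarith
  set ρ : ℝ := min r (ε / (160 * Λ)) with hρdef
  have hρ : 0 < ρ := lt_min hr (by positivity)
  have hρr : ρ ≤ r := min_le_left _ _
  have hρπ : ρ < Real.pi := lt_of_le_of_lt hρr hr'
  have hρε : 2 * Λ * ρ ≤ ε / 80 := by
    have h1 : ρ ≤ ε / (160 * Λ) := min_le_right _ _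
    calc 2 * Λ * ρ ≤ 2 * Λ * (ε / (160 * Λ)) := by gcongr
      _ = ε / 80 := by field_simp; norm_num
  obtain ⟨Ω, hΩs, hΩ0, hΩb, hΩd, hΩg⟩ := hshape Λ ρ hΛ0 hρ
  set c : E3 := !₂[α none, β none, 0] with hc
  have hG0 : GSol (VP Ω c) (fun _ => PP Ω ρ c) := GSol_VP hΩs hρ hρπ hΩ0
  set w : ℝ → E3 → E3 := fun t x => VP Ω c (N * t) ((N : ℝ) • x) with hw
  have hG : GSol w (fun _ x => PP Ω ρ c ((N : ℝ) • x)) := hG0.scale N
  have hdis : ∀ t x, v x ≠ 0 → w t x = 0 := by
    intro t x hx
    by_contra hcon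
    obtain ⟨n0, n1, h0, h1⟩ := VP_support (c := c) hρ hΩ0 hcon
    obtain ⟨j, hj⟩ : ∃ j, φ j x ≠ 0 := by
      by_contra hall
      push Not at hall
      apply hx
      apply Finset.sum_eq_zero
      intro j _
      rw [hall j, zero_smul]
    obtain ⟨n3, n4, h3, h4⟩ := hφsupp j x hj
    refine hoff none (some j) (by simp) ((N : ℝ) • x) n0 n1 n3 n4 ?_ ?_ h3 h4
    · change |⟪iv (ue 0), (N : ℝ) • x⟫ - α none - 2 * Real.pi * n0| < r
      have : ⟪iv (ue 0), (N : ℝ) • x⟫ = ((N : ℝ) • x) 0 := by
        rw [iv_ue, inner_eq]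
        simp [e_apply']
      rw [this]
      exact lt_of_lt_of_le h0 hρr
    · change |⟪iv (ue 1), (N : ℝ) • x⟫ - β none - 2 * Real.pi * n1| < r
      have : ⟪iv (ue 1), (N : ℝ) • x⟫ = ((N : ℝ) • x) 1 := by
        rw [iv_ue, inner_eq]
        simp [e_apply']
      rw [this]
      exact lt_of_lt_of_le h1 hρr
  have hVb : ∀ t x, ‖w t x‖ ≤ ε / 80 := by
    intro t x
    exact (VL_norm_le (c := c) hΛ0.le hρ hΩ0 hΩb (N * t) ((N : ℝ) • x - rd c ((N : ℝ) • x))).trans
      hρε
  have hodd : ∀ t x, w t ((2 / N : ℝ) • c - x) = - w t x := by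
    intro t x
    simp only [hw]
    rw [← VP_odd hρ hρπ hΩ0]
    congr 1
    rw [smul_sub, smul_smul]
    congr 2
    field_simp
  have hmean : ∀ t, mn (w t) 0 = 0 := fun t => mn_odd (hG.per_u t) _ (hodd t) 0
  have hwlow : ∀ t, LowZero K (w t) := by
    intro t k hk
    refine small_period (hG.smooth_x t).continuous (hG.per_u t) (N := N) (by omega) ?_ (hmean t)
      k ?_
    · intro i x
      have h1 := hG0.per_u (N * t) i ((N : ℝ) • x)
      simp only [hw]
      rw [smul_add, smul_smul, show (N : ℝ) * (2 * Real.pi / N) = 2 * Real.pi by field_simp]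
      exact h1
    · intro i
      have h1 := hk i
      have h2 : K < N := by omega
      have h3 : (K : ℤ) < N := by exact_mod_cast h2
      linarith
  have hGS : GSol (fun t x => v x + w t x) (fun _ x => PP Ω ρ c ((N : ℝ) • x)) :=
    hG.add_steady hvs hvp hvd hvst hdis
  have hcurlsum : ∀ t x, curl (fun y => v y + w t y) x = curl v x + curl (w t) x := fun t x =>
    curl_add (hvs.differentiable (by simp) x) ((hG.smooth_x t).differentiable (by simp) x)
  have hcurlw : ∀ t x, curl (w t) x = (N : ℝ) • curl (VP Ω c (N * t)) ((N : ℝ) • x) := fun t x =>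
    curl_scale N x ((hG0.smooth_x (N * t)).differentiable (by simp) _)
  refine ⟨v, fun t x => v x + w t x, fun _ x => PP Ω ρ c ((N : ℝ) • x), hvs, hvp, hvd, hvst,
    ⟨⟨A0, hA0s, hA0p, fun x => (hA0b x).trans (by linarith), hvA⟩, hvlow⟩,
    hGS, ?_, ?_, ?_⟩
  · intro t x
    rw [add_sub_cancel_left]
    exact (hVb t x).trans (by linarith)
  · intro t
    obtain ⟨Ψt, hΨts, hΨtp, hΨt, hΨtb⟩ := exists_potential
      ((hG.smooth_x t).of_le (by simp)) (hG.per_u t) (hG.div t)
    refine ⟨⟨fun x => A0 x + Ψt x, hA0s.add hΨts, ?_, ?_, ?_⟩, ?_⟩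
    · intro i x
      simp only [hA0p i x, hΨtp i x]
    · intro x
      have h1 := hΨtb (ε / 80) (hVb t) x
      calc ‖A0 x + Ψt x‖ ≤ ‖A0 x‖ + ‖Ψt x‖ := norm_add_le _ _
        _ ≤ ε / 2 + 20 * (ε / 80) := add_le_add (hA0b x) h1
        _ ≤ ε := by linarith
    · intro x
      change v x + w t x = _
      rw [curl_add (hA0s.differentiable one_ne_zero x) (hΨts.differentiable one_ne_zero x), hvA x,
        hΨt x, hmean t, zero_add]
      abel
    · have h1 : (fun x => (fun t x => v x + w t x) t x - u0 x) = fun x => (v x - u0 x) + w t x := by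
        funext x
        simp only
        abel
      rw [h1]
      exact hvlow.add (hvs.continuous.sub hu0.continuous) (hG.smooth_x t).continuous (hwlow t)
  · refine ⟨N ^ 2 * c1 * Λ ^ 2, by positivity, ?_, ?_⟩
    · intro y
      change Mf * ‖curl (fun x => v x + w 0 x) y‖ ≤ _
      have h1 : ‖curl (fun x => v x + w 0 x) y‖ ≤ CC * Λ := by
        rw [hcurlsum, hcurlw, mul_zero]
        refine (norm_add_le _ _).trans ?_
        rw [norm_smul, Real.norm_eq_abs, abs_of_pos hNpos]
        have h2 : ‖curl v y‖ ≤ W := by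
          have := hW y
          rwa [abs_of_nonneg (norm_nonneg _)] at this
        have h3 : ‖curl (VP Ω c 0) ((N : ℝ) • y)‖ ≤ 4 * Λ + 6 * (C1 * Λ) := by
          have h4 : curl (VP Ω c 0) ((N : ℝ) • y)
              = curl (VL Ω c 0) ((N : ℝ) • y - rd c ((N : ℝ) • y)) := by
            unfold curl
            rw [VP_fderiv hρ hρπ hΩ0]
          rw [h4]
          exact curl_VL_zero_le hΩs hΩb hΩd c _
        have h5 : W ≤ W * Λ := by nlinarith
        have h6 : (N : ℝ) * ‖curl (VP Ω c 0) ((N : ℝ) • y)‖ ≤ N * (4 * Λ + 6 * (C1 * Λ)) := by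
          gcongr
        rw [hCC]
        linarith
      calc Mf * ‖curl (fun x => v x + w 0 x) y‖
          ≤ M' * ‖curl (fun x => v x + w 0 x) y‖ := by
            gcongr
            exact le_max_left _ _
        _ ≤ M' * (CC * Λ) := by gcongr
        _ = (M' * CC) * Λ := by ring
        _ ≤ (N ^ 2 * c1 * Λ) * Λ := by gcongr
        _ = N ^ 2 * c1 * Λ ^ 2 := by ring
    · intro t ht y
      set s : ℝ := ρ / 2 with hs
      have hs0 : 0 < s := by positivity
      have hsρ : s < ρ := by rw [hs]; linarith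
      set T : ℝ := N * t with hT
      set nn : E3 := !₂[Real.cos (T * Ω (s ^ 2)), Real.sin (T * Ω (s ^ 2)), 0] with hnn
      -- a point on the axis at the right height
      set c' : E3 := c + ((N : ℝ) * y 2) • e 2 with hc'
      have hVLc : VL Ω c' = VL Ω c := by
        funext t x
        simp [VL, RR, hc', e_apply']
      set z : E3 := c' + s • nn with hz
      set n0 : ℤ := round ((N * y 0 - c 0) / (2 * Real.pi)) with hn0
      set n1 : ℤ := round ((N * y 1 - c 1) / (2 * Real.pi)) with hn1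
      set lat : E3 := n0 • ((2 * Real.pi) • e 0) + n1 • ((2 * Real.pi) • e 1)
        + (0 : ℤ) • ((2 * Real.pi) • e 2) with hlat
      set x : E3 := (1 / N : ℝ) • (z + lat) with hx
      have hNx : (N : ℝ) • x = z + lat := by
        rw [hx, smul_smul]
        have : (N : ℝ) * (1 / N) = 1 := by field_simp
        rw [this, one_smul]
      have z0 : z 0 - c 0 = s * Real.cos (T * Ω (s ^ 2)) := by
        simp [hz, hnn, hc', e_apply']
      have z1 : z 1 - c 1 = s * Real.sin (T * Ω (s ^ 2)) := by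
        simp [hz, hnn, hc', e_apply']
      have hcos1 := Real.abs_cos_le_one (T * Ω (s ^ 2))
      have hsin1 := Real.abs_sin_le_one (T * Ω (s ^ 2))
      have hsπ : s < Real.pi := by linarith
      refine ⟨x, ?_, ?_⟩
      · -- the distance
        have d0 : |((N : ℝ) • (x - y)) 0| ≤ 2 * Real.pi := by
          have h1 : ((N : ℝ) • (x - y)) 0
              = s * Real.cos (T * Ω (s ^ 2)) - ((N * y 0 - c 0) - 2 * Real.pi * n0) := by
            rw [smul_sub, hNx, ← z0]
            simp [hlat, e_apply']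
            ring
          rw [h1]
          refine (abs_sub _ _).trans ?_
          have h2 := abs_red_le (N * y 0 - c 0)
          rw [← hn0] at h2
          rw [abs_mul, abs_of_pos hs0]
          nlinarith
        have d1 : |((N : ℝ) • (x - y)) 1| ≤ 2 * Real.pi := by
          have h1 : ((N : ℝ) • (x - y)) 1
              = s * Real.sin (T * Ω (s ^ 2)) - ((N * y 1 - c 1) - 2 * Real.pi * n1) := by
            rw [smul_sub, hNx, ← z1]
            simp [hlat, e_apply']
            ring
          rw [h1]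
          refine (abs_sub _ _).trans ?_
          have h2 := abs_red_le (N * y 1 - c 1)
          rw [← hn1] at h2
          rw [abs_mul, abs_of_pos hs0]
          nlinarith
        have d2 : ((N : ℝ) • (x - y)) 2 = 0 := by
          rw [smul_sub, hNx]
          simp [hlat, e_apply', hz, hnn, hc', hc]
        have hpi := Real.pi_lt_d2
        have h3 : ‖(N : ℝ) • (x - y)‖ ≤ 10 := by
          apply le_of_sq_le_sq _ (by norm_num)
          rw [norm_sq_eq, d2]
          have e0 : ((N : ℝ) • (x - y)) 0 ^ 2 ≤ 7 ^ 2 := by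
            rw [← sq_abs]
            have : |((N : ℝ) • (x - y)) 0| ≤ 7 := d0.trans (by linarith)
            gcongr
          have e1 : ((N : ℝ) • (x - y)) 1 ^ 2 ≤ 7 ^ 2 := by
            rw [← sq_abs]
            have : |((N : ℝ) • (x - y)) 1| ≤ 7 := d1.trans (by linarith)
            gcongr
          norm_num at e0 e1 ⊢
          linarith
        rw [norm_smul, Real.norm_eq_abs, abs_of_pos hNpos] at h3
        have h4 : 10 ≤ N * ε := by
          rw [div_lt_iff₀ hε] at hN0ε
          have h5 : (N0 : ℝ) ≤ N := by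
            have : N0 ≤ N := by omega
            exact_mod_cast this
          nlinarith
        by_contra hcon
        rw [not_le] at hcon
        have h6 : N * ε < N * ‖x - y‖ := by gcongr
        linarith
      have hk : kv 0 0 = 0 := by
        ext i
        fin_cases i <;> simp [kv]
      have hev : ∀ᶠ y in 𝓝 z, VP Ω c T y = VL Ω c T y := by
        have h1 := per_eventually (vanish_VL (c := c) hρ hΩ0) hρπ z 0 0 (by
          rw [z0]
          simp only [Int.cast_zero, mul_zero, sub_zero]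
          rw [abs_mul, abs_of_pos hs0]
          nlinarith) (by
          rw [z1]
          simp only [Int.cast_zero, mul_zero, sub_zero]
          rw [abs_mul, abs_of_pos hs0]
          nlinarith)
        filter_upwards [h1] with y hy
        have h2 := congrFun hy T
        rw [hk, sub_zero] at h2
        exact h2
      have hRR : RR c z = s ^ 2 := by
        unfold RR
        rw [z0, z1]
        have := Real.sin_sq_add_cos_sq (T * Ω (s ^ 2))
        linear_combination s ^ 2 * this
      have hΩne : Ω (s ^ 2) ≠ 0 := by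
        intro h
        rw [hs] at h
        rw [h, zero_mul, abs_zero, mul_zero] at hΩg
        have : 0 < c1 * Λ ^ 2 := by positivity
        linarith
      have hper1 : VP Ω c T (z + lat) = VP Ω c T z :=
        (hG0.per_u T).shift (fun i => if i = 0 then n0 else if i = 1 then n1 else 0) z
      have hper2 : curl (VP Ω c T) (z + lat) = curl (VP Ω c T) z := by
        have h1 : Periodic3 (fderiv ℝ (VP Ω c T)) := (hG0.per_u T).fderiv
        have h2 := h1.shift (fun i => if i = 0 then n0 else if i = 1 then n1 else 0) z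
        unfold curl
        exact congrArg axial h2
      have hVne : w t x ≠ 0 := by
        simp only [hw]
        rw [hNx, hper1, hev.self_of_nhds]
        intro h
        have h0 := congrArg (fun w : E3 => w 0) h
        have h1 := congrArg (fun w : E3 => w 1) h
        have v0 : (VL Ω c T z) 0 = - (Ω (RR c z) * (z 1 - c 1)) := rfl
        have v1 : (VL Ω c T z) 1 = Ω (RR c z) * (z 0 - c 0) := rfl
        simp only [v0, v1, hRR, z0, z1, PiLp.zero_apply] at h0 h1
        have h2 : Real.sin (T * Ω (s ^ 2)) = 0 := by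
          have h3 : Ω (s ^ 2) * (s * Real.sin (T * Ω (s ^ 2))) = 0 := by linarith
          rcases mul_eq_zero.mp h3 with h4 | h4
          · exact absurd h4 hΩne
          · exact (mul_eq_zero.mp h4).resolve_left hs0.ne'
        have h3 : Real.cos (T * Ω (s ^ 2)) = 0 := by
          rcases mul_eq_zero.mp h1 with h4 | h4
          · exact absurd h4 hΩne
          · exact (mul_eq_zero.mp h4).resolve_left hs0.ne'
        have := Real.sin_sq_add_cos_sq (T * Ω (s ^ 2))
        rw [h2, h3] at this
        norm_num at this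
      have hv0 : v =ᶠ[𝓝 x] fun _ => 0 := by
        filter_upwards [(hG.smooth_x t).continuous.continuousAt.eventually_ne hVne] with y hy
        by_contra hcon
        exact hy (hdis t y hcon)
      have hcv : curl v x = 0 := by
        unfold curl
        rw [hv0.fderiv_eq]
        simp [axial_z]
      have hcV : curl (VP Ω c T) z = curl (VL Ω c T) z := by
        unfold curl
        rw [Filter.EventuallyEq.fderiv_eq hev]
      change _ ≤ ‖curl (fun y => v y + w t y) x‖
      rw [hcurlsum, hcv, zero_add, hcurlw, hNx, norm_smul, Real.norm_eq_abs, abs_of_pos hNpos,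
        hper2, hcV]
      have h5 := curl_VL_ge hΩs c' T s
      rw [hVLc] at h5
      calc N ^ 2 * c1 * Λ ^ 2 * t = N * ((c1 * Λ ^ 2) * T) := by rw [hT]; ring
        _ = N * (2 * s ^ 2 * T * |Ω (s ^ 2) * deriv Ω (s ^ 2)|) := by
            rw [hΩg, hs]; ring
        _ ≤ N * ‖curl (VL Ω c T) z‖ := by gcongr

end Pool.Agent.Work.MP_b0497c_an.Weak
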