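import Mathlib
import Pool.Agent.Work.MP_b0497c_an.Weak.Main

set_option autoImplicit false

/-!
Fourier coefficients as explicit triple integrals.
-/

namespace Pool.Agent.Work.MP_b0497c_an.Weak

open Set RealInnerProductSpace Pool.Agent.Work.MP_b0497c_an
open scoped ContDiff

/-- The cosine Fourier coefficient of a field on the torus (times `(2 * pi) ^ 3`). -/
noncomputable def cosCoeff (k : Fin 3 → ℤ)
    (f : EuclideanSpace ℝ (Fin 3) → EuclideanSpace ℝ (Fin 3)) : EuclideanSpace ℝ (Fin 3) :=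
  ∫ a in (0 : ℝ)..(2 * Real.pi), ∫ b in (0 : ℝ)..(2 * Real.pi), ∫ c in (0 : ℝ)..(2 * Real.pi),
    Real.cos (k 0 * a + k 1 * b + k 2 * c) • f !₂[a, b, c]

/-- The sine Fourier coefficient of a field on the torus (times `(2 * pi) ^ 3`). -/
noncomputable def sinCoeff (k : Fin 3 → ℤ)
    (f : EuclideanSpace ℝ (Fin 3) → EuclideanSpace ℝ (Fin 3)) : EuclideanSpace ℝ (Fin 3) :=
  ∫ a in (0 : ℝ)..(2 * Real.pi), ∫ b in (0 : ℝ)..(2 * Real.pi), ∫ c in (0 : ℝ)..(2 * Real.pi),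
    Real.sin (k 0 * a + k 1 * b + k 2 * c) • f !₂[a, b, c]

theorem point_eq (a b c : ℝ) : (0 : E3) + a • e 0 + b • e 1 + c • e 2 = !₂[a, b, c] := by
  ext i
  fin_cases i <;> simp [e]

theorem mn_eq_integral (g : E3 → E3) :
    mn g 0 = (1 / (2 * Real.pi)) • (1 / (2 * Real.pi)) • (1 / (2 * Real.pi)) •
      ∫ a in (0 : ℝ)..(2 * Real.pi), ∫ b in (0 : ℝ)..(2 * Real.pi), ∫ c in (0 : ℝ)..(2 * Real.pi),
        g !₂[a, b, c] := by
  unfold mn Av avg
  simp only [intervalIntegral.integral_smul, point_eq]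

theorem cosCoeff_eq (k : Fin 3 → ℤ) (f : E3 → E3) :
    cosCoeff k f = (2 * Real.pi) • (2 * Real.pi) • (2 * Real.pi) • Fc k f := by
  unfold Fc
  rw [mn_eq_integral]
  have h2 : ∀ a b c : ℝ, ⟪iv k, (!₂[a, b, c] : E3)⟫ = k 0 * a + k 1 * b + k 2 * c := by
    intro a b c
    rw [inner_eq]
    rfl
  simp only [smul_smul, h2]
  unfold cosCoeff
  rw [show 2 * Real.pi * (2 * Real.pi * (2 * Real.pi * (1 / (2 * Real.pi) * (1 / (2 * Real.pi) *
    (1 / (2 * Real.pi)))))) = 1 by field_simp, one_smul]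

theorem sinCoeff_eq (k : Fin 3 → ℤ) (f : E3 → E3) :
    sinCoeff k f = (2 * Real.pi) • (2 * Real.pi) • (2 * Real.pi) • Fs k f := by
  unfold Fs
  rw [mn_eq_integral]
  have h2 : ∀ a b c : ℝ, ⟪iv k, (!₂[a, b, c] : E3)⟫ = k 0 * a + k 1 * b + k 2 * c := by
    intro a b c
    rw [inner_eq]
    rfl
  simp only [smul_smul, h2]
  unfold sinCoeff
  rw [show 2 * Real.pi * (2 * Real.pi * (2 * Real.pi * (1 / (2 * Real.pi) * (1 / (2 * Real.pi) *
    (1 / (2 * Real.pi)))))) = 1 by field_simp, one_smul]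

theorem coeff_of_lowZero {K : ℕ} {f g : E3 → E3} (hf : Continuous f) (hg : Continuous g)
    (h : LowZero K (fun x => f x - g x)) (k : Fin 3 → ℤ) (hk : ∀ i, |k i| ≤ (K : ℤ)) :
    cosCoeff k f = cosCoeff k g ∧ sinCoeff k f = sinCoeff k g := by
  obtain ⟨h1, h2⟩ := h k hk
  rw [Fc_sub hf hg, sub_eq_zero] at h1
  rw [Fs_sub hf hg, sub_eq_zero] at h2
  rw [cosCoeff_eq, cosCoeff_eq, sinCoeff_eq, sinCoeff_eq, h1, h2]
  exact ⟨rfl, rfl⟩

/-- `w` is close to `u0`: it differs from `u0` by the curl of a periodic `C^1` vector potential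
bounded by `ε`, and all Fourier coefficients with frequencies `|k i| ≤ K` are the same. -/
def Near (ε : ℝ) (K : ℕ)
    (u0 w : EuclideanSpace ℝ (Fin 3) → EuclideanSpace ℝ (Fin 3)) : Prop :=
  (∃ A : EuclideanSpace ℝ (Fin 3) → EuclideanSpace ℝ (Fin 3), ContDiff ℝ 1 A ∧ Periodic3 A ∧
    (∀ x, ‖A x‖ ≤ ε) ∧ ∀ x, w x = u0 x + curl A x) ∧
  ∀ k : Fin 3 → ℤ, (∀ i, |k i| ≤ (K : ℤ)) →
    cosCoeff k w = cosCoeff k u0 ∧ sinCoeff k w = sinCoeff k u0

/-- A smooth periodic steady Euler flow with zero pressure. -/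
structure Steady (v : EuclideanSpace ℝ (Fin 3) → EuclideanSpace ℝ (Fin 3)) : Prop where
  smooth : ContDiff ℝ ∞ v
  periodic : Periodic3 v
  div_free : ∀ x, LinearMap.trace ℝ (EuclideanSpace ℝ (Fin 3)) (fderiv ℝ v x) = 0
  steady : ∀ x, fderiv ℝ v x (v x) = 0

/-- A smooth global periodic solution of the Euler equations. -/
structure GlobalSol (u : ℝ → EuclideanSpace ℝ (Fin 3) → EuclideanSpace ℝ (Fin 3))
    (p : ℝ → EuclideanSpace ℝ (Fin 3) → ℝ) : Prop where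
  smooth_u : ContDiff ℝ ∞ (fun z : ℝ × EuclideanSpace ℝ (Fin 3) => u z.1 z.2)
  smooth_p : ContDiff ℝ ∞ (fun z : ℝ × EuclideanSpace ℝ (Fin 3) => p z.1 z.2)
  solution : ∀ T, IsClassicalSolution T u p

/-- In every closed ball of radius `ε` the vorticity grows at least linearly, at a rate which is at
least `M` times the maximum of the initial vorticity. -/
def Grows (ε M : ℝ) (u : ℝ → EuclideanSpace ℝ (Fin 3) → EuclideanSpace ℝ (Fin 3)) : Prop :=
  ∃ κ : ℝ, 0 < κ ∧ (∀ y, M * ‖curl (u 0) y‖ ≤ κ) ∧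
    ∀ t, 0 ≤ t → ∀ y, ∃ x, ‖x - y‖ ≤ ε ∧ κ * t ≤ ‖curl (u t) x‖

theorem Close.near {ε : ℝ} {K : ℕ} {u0 w : E3 → E3} (h : Close ε K u0 w) (hu : Continuous u0)
    (hw : Continuous w) : Near ε K u0 w :=
  ⟨h.1, fun k hk => coeff_of_lowZero hw hu h.2 k hk⟩

end Pool.Agent.Work.MP_b0497c_an.Weak
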